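import Mathlib.Topology.Sheaves.Presheaf
import Mathlib.LinearAlgebra.Lagrange
import Mathlib.Analysis.PSeries
import Mathlib.Algebra.Ring.IsFormallyReal
import Mathlib.Analysis.SpecialFunctions.Trigonometric.DerivHyp
import Mathlib.Analysis.Real.Pi.Wallis
import Mathlib.Combinatorics.SetFamily.FourFunctions
import Mathlib.Data.Finset.Functor
import Mathlib.RingTheory.PiTensorProduct
import Mathlib.Logic.Equiv.Bool
import Mathlib.Order.CompletePartialOrder
import Pool.Agent.MP_cb84d8_pr.Defs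

-- ======== part 0: formerly Pool.Agent.MP_cb84d8_pr.Basic
section MrgPart0

/-!
Finite-volume averages: flips, the Holley and FKG inequalities.
-/

open Finset
open scoped FinsetFamily

namespace Pool.Agent.MP_cb84d8_pr

noncomputable section
open Classical

lemma mem_fill {Λ : Finset Site} {τ σ : Config} : σ ∈ fill Λ τ ↔ ∀ x, x ∉ Λ → σ x = τ x := by
  unfold fill
  simp only [mem_image, mem_powerset]
  constructor
  · rintro ⟨S, -, rfl⟩ x hx
    simp [hx]
  · intro h
    refine ⟨Λ.filter (fun x => σ x = true), filter_subset _ _, ?_⟩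
    funext x
    by_cases hx : x ∈ Λ
    · simp [hx]
    · simp [hx, h x hx]

lemma self_mem_fill (Λ : Finset Site) (τ : Config) : τ ∈ fill Λ τ := mem_fill.2 fun _ _ => rfl

lemma card_fill (Λ : Finset Site) (τ : Config) : (fill Λ τ).card = 2 ^ Λ.card := by
  unfold fill
  rw [card_image_of_injOn, card_powerset]
  intro S hS T hT h
  simp only [coe_powerset, Set.mem_preimage, Set.mem_powerset_iff, coe_subset] at hS hT
  ext x
  by_cases hx : x ∈ Λ
  · have := congrFun h x
    simpa [hx] using this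
  · exact ⟨fun h' => absurd (hS h') hx, fun h' => absurd (hT h') hx⟩

@[simp] lemma spin_true : spin true = 1 := by simp [spin]
@[simp] lemma spin_false : spin false = -1 := by simp [spin]
lemma spin_not (b : Bool) : spin (!b) = - spin b := by cases b <;> simp
lemma spin_mul_self (b : Bool) : spin b * spin b = 1 := by cases b <;> simp
lemma abs_spin (b : Bool) : |spin b| = 1 := by cases b <;> simp
lemma spin_mono : Monotone spin := by
  intro a b h
  cases a <;> cases b
  · exact le_rfl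
  · simp
  · exact absurd h (by decide)
  · exact le_rfl
lemma spin_le_one (b : Bool) : spin b ≤ 1 := by cases b <;> simp
lemma neg_one_le_spin (b : Bool) : -1 ≤ spin b := by cases b <;> simp

lemma bond_cases (σ : Config) (e : Edge) : bond σ e = 1 ∨ bond σ e = -1 := by
  unfold bond
  cases σ e.1 <;> cases σ (tip e) <;> simp

lemma bond_eq (σ : Config) (e : Edge) : bond σ e = if σ e.1 = σ (tip e) then 1 else -1 := by
  unfold bond
  cases σ e.1 <;> cases σ (tip e) <;> simp

lemma tip_ne (e : Edge) : tip e ≠ e.1 := by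
  obtain ⟨⟨a, b⟩, d⟩ := e
  cases d <;> simp [tip]

lemma mem_star {x : Site} {e : Edge} : e ∈ star x ↔ e.1 = x ∨ tip e = x := by
  obtain ⟨⟨a, b⟩, d⟩ := e
  obtain ⟨x1, x2⟩ := x
  cases d <;> simp [star, tip, Prod.ext_iff] <;> omega

lemma mem_touching {Λ : Finset Site} {e : Edge} : e ∈ touching Λ ↔ e.1 ∈ Λ ∨ tip e ∈ Λ := by
  simp only [touching, mem_biUnion, mem_star]
  constructor
  · rintro ⟨x, hx, rfl | rfl⟩
    exacts [Or.inl hx, Or.inr hx]
  · rintro (h | h)
    exacts [⟨_, h, Or.inl rfl⟩, ⟨_, h, Or.inr rfl⟩]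

lemma touching_mono {Λ Λ' : Finset Site} (h : Λ ⊆ Λ') : touching Λ ⊆ touching Λ' := by
  intro e he
  rw [mem_touching] at he ⊢
  exact he.imp (fun h' => h h') (fun h' => h h')

lemma weight_pos (β : ℝ) (F : Finset Edge) (σ : Config) : 0 < weight β F σ := Real.exp_pos _

lemma Z_pos (β : ℝ) (F : Finset Edge) (Λ : Finset Site) (τ : Config) :
    0 < ∑ σ ∈ fill Λ τ, weight β F σ :=
  sum_pos (fun σ _ => weight_pos β F σ) ⟨τ, self_mem_fill Λ τ⟩

section avg
variable {β : ℝ} {F : Finset Edge} {Λ : Finset Site} {τ : Config} {f g : Config → ℝ}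

lemma avg_mono (h : ∀ σ ∈ fill Λ τ, f σ ≤ g σ) : avg β F Λ τ f ≤ avg β F Λ τ g := by
  unfold avg
  refine div_le_div_of_nonneg_right (sum_le_sum fun σ hσ => ?_) (Z_pos β F Λ τ).le
  exact mul_le_mul_of_nonneg_left (h σ hσ) (weight_pos β F σ).le

lemma avg_congr (h : ∀ σ ∈ fill Λ τ, f σ = g σ) : avg β F Λ τ f = avg β F Λ τ g :=
  le_antisymm (avg_mono fun σ hσ => (h σ hσ).le) (avg_mono fun σ hσ => (h σ hσ).ge)

lemma avg_const (c : ℝ) : avg β F Λ τ (fun _ => c) = c := by
  unfold avg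
  rw [← sum_mul, mul_comm, mul_div_assoc, div_self (Z_pos β F Λ τ).ne', mul_one]

lemma avg_add : avg β F Λ τ (fun σ => f σ + g σ) = avg β F Λ τ f + avg β F Λ τ g := by
  unfold avg
  rw [← add_div, ← sum_add_distrib]
  congr 1
  exact sum_congr rfl fun σ _ => by ring

lemma avg_const_mul (c : ℝ) : avg β F Λ τ (fun σ => c * f σ) = c * avg β F Λ τ f := by
  unfold avg
  rw [← mul_div_assoc, mul_sum]
  congr 1
  exact sum_congr rfl fun σ _ => by ring

lemma avg_sub : avg β F Λ τ (fun σ => f σ - g σ) = avg β F Λ τ f - avg β F Λ τ g := by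
  unfold avg
  rw [← sub_div, ← sum_sub_distrib]
  congr 1
  exact sum_congr rfl fun σ _ => by ring

lemma avg_sum {ι : Type*} (s : Finset ι) (f : ι → Config → ℝ) :
    avg β F Λ τ (fun σ => ∑ i ∈ s, f i σ) = ∑ i ∈ s, avg β F Λ τ (f i) := by
  unfold avg
  rw [← sum_div, sum_comm]
  congr 1
  exact sum_congr rfl fun σ _ => by rw [mul_sum]

lemma avg_nonneg (h : ∀ σ ∈ fill Λ τ, 0 ≤ f σ) : 0 ≤ avg β F Λ τ f := by
  have := avg_mono (β := β) (F := F) (f := fun _ => (0 : ℝ)) h
  rwa [avg_const] at this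

lemma avg_le_const {c : ℝ} (h : ∀ σ ∈ fill Λ τ, f σ ≤ c) : avg β F Λ τ f ≤ c := by
  have := avg_mono (β := β) (F := F) (g := fun _ => c) h
  rwa [avg_const] at this

lemma const_le_avg {c : ℝ} (h : ∀ σ ∈ fill Λ τ, c ≤ f σ) : c ≤ avg β F Λ τ f := by
  have := avg_mono (β := β) (F := F) (f := fun _ => c) h
  rwa [avg_const] at this

/-- Extra edges away from `Λ` do not change averages. -/
lemma avg_edges (h : touching Λ ⊆ F) : avg β F Λ τ f = avg β (touching Λ) Λ τ f := by
  have key : ∀ σ ∈ fill Λ τ, weight β F σ =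
      weight β (F \ touching Λ) τ * weight β (touching Λ) σ := by
    intro σ hσ
    unfold weight
    rw [← Real.exp_add, ← mul_add, ← sum_sdiff h]
    congr 3
    refine sum_congr rfl fun e he => ?_
    rw [mem_sdiff, mem_touching, not_or] at he
    unfold bond
    rw [mem_fill.1 hσ _ he.2.1, mem_fill.1 hσ _ he.2.2]
  unfold avg
  rw [sum_congr rfl key, sum_congr rfl (fun σ hσ => by rw [key σ hσ, mul_assoc]), ← mul_sum,
    ← mul_sum, mul_div_mul_left _ _ (weight_pos _ _ _).ne']

end avg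

lemma bond_super (a b : Config) (e : Edge) :
    bond a e + bond b e ≤ bond (a ⊓ b) e + bond (a ⊔ b) e := by
  unfold bond
  simp only [Pi.inf_apply, Pi.sup_apply]
  cases a e.1 <;> cases a (tip e) <;> cases b e.1 <;> cases b (tip e) <;> norm_num

lemma weight_super {β : ℝ} (hβ : 0 ≤ β) (F : Finset Edge) (a b : Config) :
    weight β F a * weight β F b ≤ weight β F (a ⊓ b) * weight β F (a ⊔ b) := by
  unfold weight
  rw [← Real.exp_add, ← Real.exp_add, ← mul_add, ← mul_add, ← sum_add_distrib, ← sum_add_distrib]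
  exact Real.exp_le_exp.2 (mul_le_mul_of_nonneg_left (sum_le_sum fun e _ => bond_super a b e) hβ)

/-- Holley's inequality. -/
lemma holley_fill {β : ℝ} (hβ : 0 ≤ β) (F : Finset Edge) {Λ Λ' : Finset Site} {τ τ' : Config}
    (h1 : ∀ a ∈ fill Λ τ, ∀ b ∈ fill Λ' τ', a ⊓ b ∈ fill Λ τ)
    (h2 : ∀ a ∈ fill Λ τ, ∀ b ∈ fill Λ' τ', a ⊔ b ∈ fill Λ' τ')
    {f : Config → ℝ} (hf : Monotone f) : avg β F Λ τ f ≤ avg β F Λ' τ' f := by
  have main : ∀ g : Config → ℝ, Monotone g → 0 ≤ g → avg β F Λ τ g ≤ avg β F Λ' τ' g := by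
    intro g hg hg0
    have hw : (0 : Config → ℝ) ≤ weight β F := fun σ => (weight_pos β F σ).le
    have hwg : (0 : Config → ℝ) ≤ fun σ => weight β F σ * g σ :=
      fun σ => mul_nonneg (hw σ) (hg0 σ)
    have := four_functions_theorem (fun σ => weight β F σ * g σ) (weight β F) (weight β F)
      (fun σ => weight β F σ * g σ) hwg hw hw hwg (fun a b => by
        have h3 := weight_super hβ F a b
        have h4 : g a ≤ g (a ⊔ b) := hg le_sup_left
        calc weight β F a * g a * weight β F b = (weight β F a * weight β F b) * g a := by ring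
          _ ≤ (weight β F (a ⊓ b) * weight β F (a ⊔ b)) * g (a ⊔ b) :=
            mul_le_mul h3 h4 (hg0 a) (mul_nonneg (hw _) (hw _))
          _ = _ := by ring) (fill Λ τ) (fill Λ' τ')
    have hs1 : ∑ σ ∈ fill Λ τ ⊼ fill Λ' τ', weight β F σ ≤ ∑ σ ∈ fill Λ τ, weight β F σ := by
      refine sum_le_sum_of_subset_of_nonneg ?_ fun σ _ _ => hw σ
      intro c hc
      obtain ⟨a, ha, b, hb, rfl⟩ := mem_infs.1 hc
      exact h1 a ha b hb
    have hs2 : ∑ σ ∈ fill Λ τ ⊻ fill Λ' τ', weight β F σ * g σ ≤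
        ∑ σ ∈ fill Λ' τ', weight β F σ * g σ := by
      refine sum_le_sum_of_subset_of_nonneg ?_ fun σ _ _ => hwg σ
      intro c hc
      obtain ⟨a, ha, b, hb, rfl⟩ := mem_sups.1 hc
      exact h2 a ha b hb
    have h5 := this.trans (mul_le_mul hs1 hs2 (sum_nonneg fun σ _ => hwg σ)
      (Z_pos β F Λ τ).le)
    unfold avg
    rw [div_le_div_iff₀ (Z_pos β F Λ τ) (Z_pos β F Λ' τ')]
    linarith
  have := main (fun σ => f σ - f ⊥) (fun a b h => sub_le_sub_right (hf h) _)
    (fun σ => sub_nonneg.2 (hf bot_le))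
  rw [avg_sub, avg_sub, avg_const, avg_const] at this
  linarith

/-- Any finite-volume state is dominated by the plus state of a smaller volume. -/
lemma avg_le_plus {β : ℝ} (hβ : 0 ≤ β) {F : Finset Edge} {Λ Λ' : Finset Site} (τ : Config)
    (hΛ : Λ' ⊆ Λ) (hF : touching Λ' ⊆ F) {f : Config → ℝ} (hf : Monotone f) :
    avg β F Λ τ f ≤ avg β (touching Λ') Λ' ⊤ f := by
  rw [← avg_edges hF]
  refine holley_fill hβ F ?_ ?_ hf
  · intro a ha b hb
    rw [mem_fill] at *
    intro x hx
    have h1 := ha x hx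
    have h2 := hb x (fun h => hx (hΛ h))
    simp [h1, h2]
  · intro a ha b hb
    rw [mem_fill] at *
    intro x hx
    have h2 := hb x hx
    simp [h2]

/-- The FKG inequality. -/
lemma fkg_fill {β : ℝ} (hβ : 0 ≤ β) (F : Finset Edge) (Λ : Finset Site) (τ : Config)
    {f g : Config → ℝ} (hf : Monotone f) (hg : Monotone g) :
    avg β F Λ τ f * avg β F Λ τ g ≤ avg β F Λ τ (fun σ => f σ * g σ) := by
  have main : ∀ f g : Config → ℝ, Monotone f → Monotone g → 0 ≤ f → 0 ≤ g →
      avg β F Λ τ f * avg β F Λ τ g ≤ avg β F Λ τ (fun σ => f σ * g σ) := by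
    intro f g hf hg hf0 hg0
    have hw : (0 : Config → ℝ) ≤ weight β F := fun σ => (weight_pos β F σ).le
    have hwf : (0 : Config → ℝ) ≤ fun σ => weight β F σ * f σ :=
      fun σ => mul_nonneg (hw σ) (hf0 σ)
    have hwg : (0 : Config → ℝ) ≤ fun σ => weight β F σ * g σ :=
      fun σ => mul_nonneg (hw σ) (hg0 σ)
    have hwfg : (0 : Config → ℝ) ≤ fun σ => weight β F σ * (f σ * g σ) :=
      fun σ => mul_nonneg (hw σ) (mul_nonneg (hf0 σ) (hg0 σ))
    have := four_functions_theorem (fun σ => weight β F σ * f σ) (fun σ => weight β F σ * g σ)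
      (weight β F) (fun σ => weight β F σ * (f σ * g σ)) hwf hwg hw hwfg (fun a b => by
        have h3 := weight_super hβ F a b
        have h4 : f a ≤ f (a ⊔ b) := hf le_sup_left
        have h5 : g b ≤ g (a ⊔ b) := hg le_sup_right
        calc weight β F a * f a * (weight β F b * g b)
            = (weight β F a * weight β F b) * (f a * g b) := by ring
          _ ≤ (weight β F (a ⊓ b) * weight β F (a ⊔ b)) * (f (a ⊔ b) * g (a ⊔ b)) :=
            mul_le_mul h3 (mul_le_mul h4 h5 (hg0 b) (hf0 _)) (mul_nonneg (hf0 a) (hg0 b))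
              (mul_nonneg (hw _) (hw _))
          _ = _ := by ring) (fill Λ τ) (fill Λ τ)
    have hs1 : ∑ σ ∈ fill Λ τ ⊼ fill Λ τ, weight β F σ ≤ ∑ σ ∈ fill Λ τ, weight β F σ := by
      refine sum_le_sum_of_subset_of_nonneg ?_ fun σ _ _ => hw σ
      intro c hc
      obtain ⟨a, ha, b, hb, rfl⟩ := mem_infs.1 hc
      rw [mem_fill] at *
      intro x hx
      simp [ha x hx, hb x hx]
    have hs2 : ∑ σ ∈ fill Λ τ ⊻ fill Λ τ, weight β F σ * (f σ * g σ) ≤
        ∑ σ ∈ fill Λ τ, weight β F σ * (f σ * g σ) := by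
      refine sum_le_sum_of_subset_of_nonneg ?_ fun σ _ _ => hwfg σ
      intro c hc
      obtain ⟨a, ha, b, hb, rfl⟩ := mem_sups.1 hc
      rw [mem_fill] at *
      intro x hx
      simp [ha x hx, hb x hx]
    have h5 := this.trans (mul_le_mul hs1 hs2 (sum_nonneg fun σ _ => hwfg σ)
      (Z_pos β F Λ τ).le)
    have hZ := Z_pos β F Λ τ
    unfold avg
    rw [div_mul_div_comm, div_le_div_iff₀ (mul_pos hZ hZ) hZ]
    nlinarith
  have := main (fun σ => f σ - f ⊥) (fun σ => g σ - g ⊥) (fun a b h => sub_le_sub_right (hf h) _)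
    (fun a b h => sub_le_sub_right (hg h) _)
    (fun σ => sub_nonneg.2 (hf bot_le)) (fun σ => sub_nonneg.2 (hg bot_le))
  have e : avg β F Λ τ (fun σ => (f σ - f ⊥) * (g σ - g ⊥)) = avg β F Λ τ (fun σ => f σ * g σ)
      - g ⊥ * avg β F Λ τ f - f ⊥ * avg β F Λ τ g + f ⊥ * g ⊥ := by
    rw [← avg_const_mul, ← avg_const_mul, ← avg_sub, ← avg_sub,
      ← avg_const (β := β) (F := F) (Λ := Λ) (τ := τ) (f ⊥ * g ⊥), ← avg_add]
    exact avg_congr fun σ _ => by ring
  rw [e, avg_sub, avg_sub, avg_const, avg_const] at this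
  nlinarith

/-- The sign `-1` when `P` holds and `1` otherwise. -/
def sg (P : Prop) : ℝ := if P then -1 else 1

lemma sg_mul_self (P : Prop) : sg P * sg P = 1 := by unfold sg; split_ifs <;> simp
lemma sg_cases (P : Prop) : sg P = 1 ∨ sg P = -1 := by unfold sg; split_ifs <;> simp
lemma sg_pos {P : Prop} (h : P) : sg P = -1 := by simp [sg, h]
lemma sg_neg {P : Prop} (h : ¬ P) : sg P = 1 := by simp [sg, h]

/-- Flip the spins in `G`. -/
def flp (G : Set Site) (σ : Config) : Config := fun x => if x ∈ G then !σ x else σ x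

lemma flp_flp (G : Set Site) (σ : Config) : flp G (flp G σ) = σ := by
  funext x
  unfold flp
  split_ifs <;> simp

lemma spin_flp (G : Set Site) (σ : Config) (x : Site) :
    spin (flp G σ x) = sg (x ∈ G) * spin (σ x) := by
  unfold flp sg
  split_ifs <;> simp [spin_not]

lemma bond_flp (G : Set Site) (σ : Config) (e : Edge) :
    bond (flp G σ) e = sg (e.1 ∈ G) * sg (tip e ∈ G) * bond σ e := by
  unfold bond
  rw [spin_flp, spin_flp]
  ring

lemma flp_mem_fill {G : Set Site} {Λ : Finset Site} (hG : ∀ x ∈ G, x ∈ Λ) {τ σ : Config}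
    (hσ : σ ∈ fill Λ τ) : flp G σ ∈ fill Λ τ := by
  rw [mem_fill] at *
  intro x hx
  have : x ∉ G := fun h => hx (hG x h)
  simp [flp, this, hσ x hx]

lemma sum_fill_flp {G : Set Site} {Λ : Finset Site} (hG : ∀ x ∈ G, x ∈ Λ) (τ : Config)
    (f : Config → ℝ) : ∑ σ ∈ fill Λ τ, f (flp G σ) = ∑ σ ∈ fill Λ τ, f σ :=
  sum_nbij' (flp G) (flp G) (fun _ h => flp_mem_fill hG h) (fun _ h => flp_mem_fill hG h)
    (fun σ _ => flp_flp G σ) (fun σ _ => flp_flp G σ) (fun _ _ => rfl)

lemma betaC_pos : 0 < betaC := by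
  unfold betaC
  have : (0 : ℝ) < √2 := Real.sqrt_pos.2 (by norm_num)
  have := Real.log_pos (show (1 : ℝ) < 1 + √2 by linarith)
  linarith

lemma exp_two_betaC : Real.exp (2 * betaC) = 1 + √2 := by
  unfold betaC
  have : (0 : ℝ) < √2 := Real.sqrt_pos.2 (by norm_num)
  rw [mul_div_cancel₀ _ (two_ne_zero), Real.exp_log (by linarith)]

lemma sqrt_two_mul_self : √2 * √2 = (2 : ℝ) := Real.mul_self_sqrt (by norm_num)

lemma exp_neg_two_betaC : Real.exp (-(2 * betaC)) = √2 - 1 := by
  rw [Real.exp_neg, exp_two_betaC]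
  have : (0 : ℝ) < √2 := Real.sqrt_pos.2 (by norm_num)
  have h2 := sqrt_two_mul_self
  field_simp
  nlinarith

end

end Pool.Agent.MP_cb84d8_pr

end MrgPart0

-- ======== part 1: formerly Pool.Agent.MP_cb84d8_pr.Corr
section MrgPart1

/-!
Spin and disorder correlations in the plus state at the critical point.
-/

open Finset Filter Topology

namespace Pool.Agent.MP_cb84d8_pr

noncomputable section
open Classical

/-- Plus-state average in the volume `Λ` at the critical point. -/
def pavg (Λ : Finset Site) (f : Config → ℝ) : ℝ := avg betaC (touching Λ) Λ ⊤ f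

/-- Differences of two nonnegative increasing functions. -/
def BV (f : Config → ℝ) : Prop :=
  ∃ g h : Config → ℝ, Monotone g ∧ Monotone h ∧ 0 ≤ g ∧ 0 ≤ h ∧ ∀ σ, f σ = g σ - h σ

lemma BV.const (c : ℝ) : BV fun _ => c :=
  ⟨fun _ => max c 0, fun _ => max (-c) 0, monotone_const, monotone_const,
    fun _ => le_max_right _ _, fun _ => le_max_right _ _, fun _ => by
      simp only [max_def]; split_ifs <;> linarith⟩

lemma BV.spin (x : Site) : BV fun σ => spin (σ x) :=
  ⟨fun σ => MP_cb84d8_pr.spin (σ x) + 1, fun _ => 1,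
    fun a b h => by have := spin_mono (h x); simp only; linarith, monotone_const,
    fun σ => by have := neg_one_le_spin (σ x); simp only [Pi.zero_apply]; linarith,
    fun _ => zero_le_one, fun _ => by ring⟩

lemma BV.add {f f' : Config → ℝ} (h : BV f) (h' : BV f') : BV fun σ => f σ + f' σ := by
  obtain ⟨g, h, g1, h1, g0, h0, e⟩ := h
  obtain ⟨g', h', g1', h1', g0', h0', e'⟩ := h'
  exact ⟨fun σ => g σ + g' σ, fun σ => h σ + h' σ, g1.add g1', h1.add h1',
    fun σ => add_nonneg (g0 σ) (g0' σ), fun σ => add_nonneg (h0 σ) (h0' σ),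
    fun σ => by simp only [e, e']; ring⟩

lemma BV.mul {f f' : Config → ℝ} (h : BV f) (h' : BV f') : BV fun σ => f σ * f' σ := by
  obtain ⟨g, h, g1, h1, g0, h0, e⟩ := h
  obtain ⟨g', h', g1', h1', g0', h0', e'⟩ := h'
  exact ⟨fun σ => g σ * g' σ + h σ * h' σ, fun σ => g σ * h' σ + h σ * g' σ,
    (g1.mul g1' g0 g0').add (h1.mul h1' h0 h0'), (g1.mul h1' g0 h0').add (h1.mul g1' h0 g0'),
    fun σ => add_nonneg (mul_nonneg (g0 σ) (g0' σ)) (mul_nonneg (h0 σ) (h0' σ)),
    fun σ => add_nonneg (mul_nonneg (g0 σ) (h0' σ)) (mul_nonneg (h0 σ) (g0' σ)),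
    fun σ => by simp only [e, e']; ring⟩

lemma BV.prod {ι : Type*} (s : Finset ι) {f : ι → Config → ℝ} (h : ∀ i, BV (f i)) :
    BV fun σ => ∏ i ∈ s, f i σ := by
  induction s using Finset.induction_on with
  | empty => simpa using BV.const 1
  | insert a s ha ih => simpa [prod_insert ha] using (h a).mul ih

lemma exp_mul_bond (c : ℝ) (σ : Config) (e : Edge) :
    Real.exp (c * bond σ e) = Real.cosh c + Real.sinh c * bond σ e := by
  rcases bond_cases σ e with h | h <;> rw [h]
  · simp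
  · rw [mul_neg_one, mul_neg_one, ← sub_eq_add_neg, Real.cosh_sub_sinh]

lemma BV.exp_bond (c : ℝ) (e : Edge) : BV fun σ => Real.exp (c * bond σ e) := by
  simp only [exp_mul_bond]
  exact (BV.const _).add ((BV.const _).mul ((BV.spin _).mul (BV.spin _)))

lemma pavg_antitone {f : Config → ℝ} (hf : Monotone f) : Antitone fun Λ => pavg Λ f := by
  intro Λ' Λ h
  exact avg_le_plus betaC_pos.le ⊤ h (touching_mono h) hf

lemma tendsto_pavg_mono {f : Config → ℝ} (hf : Monotone f) :
    ∃ l, Tendsto (fun Λ => pavg Λ f) atTop (𝓝 l) :=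
  ⟨_, tendsto_atTop_ciInf (pavg_antitone hf)
    ⟨f ⊥, by rintro _ ⟨Λ, rfl⟩; exact const_le_avg fun σ _ => hf bot_le⟩⟩

lemma BV.tendsto {f : Config → ℝ} (hf : BV f) : ∃ l, Tendsto (fun Λ => pavg Λ f) atTop (𝓝 l) := by
  obtain ⟨g, h, g1, h1, -, -, e⟩ := hf
  obtain ⟨l, hl⟩ := tendsto_pavg_mono g1
  obtain ⟨l', hl'⟩ := tendsto_pavg_mono h1
  refine ⟨l - l', (hl.sub hl').congr fun Λ => ?_⟩
  unfold pavg
  rw [← avg_sub]
  exact avg_congr fun σ _ => (e σ).symm

/-- Boltzmann weight with couplings `J`. -/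
def wJ (Λ : Finset Site) (J : Edge → ℝ) (σ : Config) : ℝ :=
  Real.exp (betaC * ∑ e ∈ touching Λ, J e * bond σ e)

/-- Two-spin correlation with couplings `J`, normalised by the ferromagnetic partition function. -/
def Y (Λ : Finset Site) (J : Edge → ℝ) (a b : Site) : ℝ :=
  (∑ σ ∈ fill Λ ⊤, wJ Λ J σ * (spin (σ a) * spin (σ b))) /
    ∑ σ ∈ fill Λ ⊤, weight betaC (touching Λ) σ

/-- Couplings `±1` that equal `1` off a finite set. -/
def Good (J : Edge → ℝ) : Prop := (∀ e, J e = 1 ∨ J e = -1) ∧ {e | J e ≠ 1}.Finite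

lemma eventually_subset (K : Finset Site) : ∀ᶠ Λ in atTop, K ⊆ Λ := eventually_ge_atTop K

lemma eventually_touching (γ : Finset Edge) : ∀ᶠ Λ in atTop, γ ⊆ touching Λ := by
  filter_upwards [eventually_subset (γ.image Prod.fst)] with Λ h e he
  exact mem_touching.2 (Or.inl (h (mem_image_of_mem _ he)))

lemma tendsto_Y {J : Edge → ℝ} (hJ : Good J) (a b : Site) :
    ∃ l, Tendsto (fun Λ => Y Λ J a b) atTop (𝓝 l) := by
  set γ := hJ.2.toFinset with hγ
  have hBV : BV fun σ => (∏ e ∈ γ, Real.exp (betaC * (J e - 1) * bond σ e)) *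
      (spin (σ a) * spin (σ b)) :=
    (BV.prod γ fun e => BV.exp_bond _ e).mul ((BV.spin a).mul (BV.spin b))
  obtain ⟨l, hl⟩ := hBV.tendsto
  refine ⟨l, hl.congr' ?_⟩
  filter_upwards [eventually_touching γ] with Λ hΛ
  unfold pavg avg Y
  congr 1
  refine sum_congr rfl fun σ _ => ?_
  rw [← mul_assoc]
  congr 1
  unfold weight wJ
  rw [← Real.exp_sum, ← Real.exp_add]
  congr 1
  have : ∑ e ∈ γ, betaC * (J e - 1) * bond σ e =
      ∑ e ∈ touching Λ, betaC * (J e - 1) * bond σ e := by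
    refine sum_subset hΛ fun e _ he => ?_
    have : J e = 1 := by simpa [hγ] using he
    simp [this]
  rw [this, mul_sum, mul_sum, ← sum_add_distrib]
  exact sum_congr rfl fun e _ => by ring

/-- Infinite-volume correlation. -/
def corr (J : Edge → ℝ) (a b : Site) : ℝ := limUnder atTop fun Λ => Y Λ J a b

lemma tendsto_corr {J : Edge → ℝ} (hJ : Good J) (a b : Site) :
    Tendsto (fun Λ => Y Λ J a b) atTop (𝓝 (corr J a b)) :=
  tendsto_nhds_limUnder (tendsto_Y hJ a b)

/-- Parity of `η` at `x`, as a sign. -/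
def par (η : Finset Edge) (x : Site) : ℝ := ∏ e ∈ η, (sg (e.1 = x) * sg (tip e = x))

lemma par_cases (η : Finset Edge) (x : Site) : par η x = 1 ∨ par η x = -1 := by
  unfold par
  induction η using Finset.induction_on with
  | empty => simp
  | insert a s ha ih =>
    rw [prod_insert ha]
    rcases ih with h | h <;> rcases sg_cases (a.1 = x) with h1 | h1 <;>
      rcases sg_cases (tip a = x) with h2 | h2 <;> simp [h, h1, h2]

lemma prod_bond_flp (η : Finset Edge) (x : Site) (σ : Config) :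
    ∏ e ∈ η, bond (flp {x} σ) e = par η x * ∏ e ∈ η, bond σ e := by
  unfold par
  rw [← prod_mul_distrib]
  exact prod_congr rfl fun e _ => by rw [bond_flp]; simp

lemma prod_bond_even {η : Finset Edge} {Λ : Finset Site} (h : ∀ x ∈ Λ, par η x = 1) :
    ∀ σ ∈ fill Λ ⊤, ∏ e ∈ η, bond σ e = 1 := by
  induction Λ using Finset.induction_on with
  | empty =>
    intro σ hσ
    have : σ = ⊤ := funext fun x => mem_fill.1 hσ x (by simp)
    subst this
    exact prod_eq_one fun e _ => by simp [bond]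
  | insert a s ha ih =>
    intro σ hσ
    have ih' := ih fun x hx => h x (mem_insert_of_mem hx)
    rw [mem_fill] at hσ
    by_cases hσa : σ a = true
    · refine ih' σ (mem_fill.2 fun x hx => ?_)
      by_cases hxa : x = a
      · subst hxa; simpa using hσa
      · exact hσ x (by simp [hx, hxa])
    · have h1 := ih' (flp {a} σ) (mem_fill.2 fun x hx => by
        by_cases hxa : x = a
        · subst hxa; simpa [flp] using hσa
        · have := hσ x (by simp [hx, hxa])
          simpa [flp, hxa] using this)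
      rwa [prod_bond_flp, h a (mem_insert_self _ _), one_mul] at h1

/-- The high-temperature sum. -/
lemma sum_prod_bond (η : Finset Edge) (Λ : Finset Site) :
    ∑ σ ∈ fill Λ ⊤, ∏ e ∈ η, bond σ e =
      if ∀ x ∈ Λ, par η x = 1 then (2 : ℝ) ^ Λ.card else 0 := by
  split_ifs with h
  · rw [sum_congr rfl (prod_bond_even h), sum_const, card_fill]
    simp
  · push Not at h
    obtain ⟨x, hx, hx'⟩ := h
    have h1 : par η x = -1 := (par_cases η x).resolve_left hx'
    have h2 := sum_fill_flp (G := {x}) (Λ := Λ) (by simpa using hx) ⊤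
      (fun σ => ∏ e ∈ η, bond σ e)
    simp only [prod_bond_flp, h1, ← mul_sum] at h2
    linarith

lemma sum_prod_bond_nonneg (η : Finset Edge) (Λ : Finset Site) :
    0 ≤ ∑ σ ∈ fill Λ ⊤, ∏ e ∈ η, bond σ e := by
  rw [sum_prod_bond]
  split_ifs <;> positivity

lemma sum_wJ_eq (Λ : Finset Site) {J : Edge → ℝ} (hJ : ∀ e, J e = 1 ∨ J e = -1) :
    ∑ σ ∈ fill Λ ⊤, wJ Λ J σ = ∑ η ∈ (touching Λ).powerset,
      ((∏ e ∈ η, J e) * (∏ _e ∈ η, Real.sinh betaC) * ∏ _e ∈ touching Λ \ η, Real.cosh betaC) *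
        ∑ σ ∈ fill Λ ⊤, ∏ e ∈ η, bond σ e := by
  simp only [mul_sum]
  rw [sum_comm]
  refine sum_congr rfl fun σ _ => ?_
  unfold wJ
  rw [mul_sum, Real.exp_sum]
  have : ∀ e ∈ touching Λ, Real.exp (betaC * (J e * bond σ e)) =
      J e * Real.sinh betaC * bond σ e + Real.cosh betaC := by
    intro e _
    rw [← mul_assoc, exp_mul_bond]
    rcases hJ e with h | h <;> simp [h] <;> ring
  rw [prod_congr rfl this, prod_add]
  refine sum_congr rfl fun η _ => ?_
  rw [prod_mul_distrib, prod_mul_distrib]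
  ring

lemma wJ_one (Λ : Finset Site) (σ : Config) :
    wJ Λ (fun _ => 1) σ = weight betaC (touching Λ) σ := by simp [wJ, weight]

lemma sum_wJ_le (Λ : Finset Site) {J : Edge → ℝ} (hJ : ∀ e, J e = 1 ∨ J e = -1) :
    ∑ σ ∈ fill Λ ⊤, wJ Λ J σ ≤ ∑ σ ∈ fill Λ ⊤, weight betaC (touching Λ) σ := by
  simp only [← wJ_one]
  rw [sum_wJ_eq Λ hJ, sum_wJ_eq Λ (fun _ => Or.inl rfl)]
  refine sum_le_sum fun η _ => mul_le_mul_of_nonneg_right ?_ (sum_prod_bond_nonneg η Λ)
  have hs : 0 ≤ ∏ _e ∈ η, Real.sinh betaC :=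
    prod_nonneg fun _ _ => Real.sinh_nonneg_iff.2 betaC_pos.le
  have hc : 0 ≤ ∏ _e ∈ touching Λ \ η, Real.cosh betaC :=
    prod_nonneg fun _ _ => (Real.cosh_pos _).le
  refine mul_le_mul_of_nonneg_right (mul_le_mul_of_nonneg_right ?_ hs) hc
  refine (le_abs_self _).trans ?_
  rw [abs_prod]
  refine le_of_eq (prod_congr rfl fun e _ => ?_)
  rcases hJ e with h | h <;> simp [h]

lemma wJ_pos (Λ : Finset Site) (J : Edge → ℝ) (σ : Config) : 0 < wJ Λ J σ := Real.exp_pos _

lemma abs_Y_le (Λ : Finset Site) {J : Edge → ℝ} (hJ : ∀ e, J e = 1 ∨ J e = -1) (a b : Site) :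
    |Y Λ J a b| ≤ 1 := by
  unfold Y
  have hZ := Z_pos betaC (touching Λ) Λ ⊤
  rw [abs_div, abs_of_pos hZ, div_le_one hZ]
  refine (abs_sum_le_sum_abs _ _).trans (le_trans (le_of_eq ?_) (sum_wJ_le Λ hJ))
  refine sum_congr rfl fun σ _ => ?_
  rw [abs_mul, abs_mul, abs_spin, abs_spin, abs_of_pos (wJ_pos _ _ _)]
  ring

lemma abs_corr_le {J : Edge → ℝ} (hJ : Good J) (a b : Site) : |corr J a b| ≤ 1 :=
  le_of_tendsto' (tendsto_corr hJ a b).abs fun Λ => abs_Y_le Λ hJ.1 a b

lemma corr_self_nonneg {J : Edge → ℝ} (hJ : Good J) (a : Site) : 0 ≤ corr J a a := by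
  refine ge_of_tendsto' (tendsto_corr hJ a a) fun Λ => ?_
  unfold Y
  refine div_nonneg (sum_nonneg fun σ _ => ?_) (Z_pos _ _ _ _).le
  rw [spin_mul_self, mul_one]
  exact (wJ_pos _ _ _).le

lemma corr_self_eq (J : Edge → ℝ) (a b : Site) : corr J a a = corr J b b := by
  unfold corr Y
  simp only [spin_mul_self]

lemma Y_gauge {Λ : Finset Site} {G : Set Site} (hG : ∀ x ∈ G, x ∈ Λ) (J : Edge → ℝ) (a b : Site) :
    Y Λ (fun e => J e * (sg (e.1 ∈ G) * sg (tip e ∈ G))) a b =
      sg (a ∈ G) * sg (b ∈ G) * Y Λ J a b := by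
  unfold Y
  rw [← mul_div_assoc, mul_sum, ← sum_fill_flp hG]
  congr 1
  refine sum_congr rfl fun σ _ => ?_
  have : wJ Λ (fun e => J e * (sg (e.1 ∈ G) * sg (tip e ∈ G))) (flp G σ) = wJ Λ J σ := by
    unfold wJ
    congr 2
    refine sum_congr rfl fun e _ => ?_
    rw [bond_flp]
    have h1 := sg_mul_self (e.1 ∈ G)
    have h2 := sg_mul_self (tip e ∈ G)
    calc _ = J e * (sg (e.1 ∈ G) * sg (e.1 ∈ G)) * (sg (tip e ∈ G) * sg (tip e ∈ G)) *
          bond σ e := by ring
      _ = _ := by rw [h1, h2]; ring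
  rw [this, spin_flp, spin_flp]
  ring

lemma corr_gauge {J J' : Edge → ℝ} (hJ : Good J) (hJ' : Good J') {G : Set Site} (hG : G.Finite)
    (h : ∀ e, J' e = J e * (sg (e.1 ∈ G) * sg (tip e ∈ G))) (a b : Site) :
    corr J' a b = sg (a ∈ G) * sg (b ∈ G) * corr J a b := by
  refine tendsto_nhds_unique (tendsto_corr hJ' a b)
    (((tendsto_corr hJ a b).const_mul _).congr' ?_)
  filter_upwards [eventually_subset hG.toFinset] with Λ hΛ
  rw [← Y_gauge (fun x hx => hΛ (by simpa using hx)), funext h]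

/-- Reverse the coupling on one edge. -/
def rev (J : Edge → ℝ) (e₀ : Edge) : Edge → ℝ := fun e => J e * sg (e = e₀)

lemma Good.rev {J : Edge → ℝ} (hJ : Good J) (e₀ : Edge) : Good (rev J e₀) := by
  refine ⟨fun e => ?_, (hJ.2.insert e₀).subset fun e he => ?_⟩
  · unfold MP_cb84d8_pr.rev
    rcases hJ.1 e with h | h <;> rcases sg_cases (e = e₀) with h1 | h1 <;> simp [h, h1]
  · by_cases h : e = e₀
    · exact Or.inl h
    · right
      simpa [MP_cb84d8_pr.rev, sg_neg h] using he

lemma wJ_rev {Λ : Finset Site} {J : Edge → ℝ} (hJ : ∀ e, J e = 1 ∨ J e = -1) {e₀ : Edge}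
    (h : e₀ ∈ touching Λ) (σ : Config) :
    wJ Λ (rev J e₀) σ = wJ Λ J σ * (√2 - J e₀ * bond σ e₀) := by
  have h1 : √2 - J e₀ * bond σ e₀ = Real.exp (-(2 * betaC) * (J e₀ * bond σ e₀)) := by
    rcases hJ e₀ with h | h <;> rcases bond_cases σ e₀ with h' | h' <;>
      simp only [h, h', mul_one, mul_neg, neg_neg, exp_two_betaC, exp_neg_two_betaC] <;> ring
  rw [h1]
  unfold wJ
  rw [← Real.exp_add, ← add_sum_erase _ _ h, ← add_sum_erase _ _ h]
  congr 1
  have : ∑ e ∈ (touching Λ).erase e₀, rev J e₀ e * bond σ e =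
      ∑ e ∈ (touching Λ).erase e₀, J e * bond σ e :=
    sum_congr rfl fun e he => by simp [rev, sg_neg (ne_of_mem_erase he)]
  rw [this]
  simp only [rev, sg_pos]
  ring

lemma corr_rev {J : Edge → ℝ} (hJ : Good J) (e₀ : Edge) {x y : Site}
    (hxy : (x = e₀.1 ∧ y = tip e₀) ∨ (x = tip e₀ ∧ y = e₀.1)) (b : Site) :
    corr (rev J e₀) x b = √2 * corr J x b - J e₀ * corr J y b := by
  refine tendsto_nhds_unique (tendsto_corr (hJ.rev e₀) x b)
    ((((tendsto_corr hJ x b).const_mul _).sub ((tendsto_corr hJ y b).const_mul _)).congr' ?_)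
  filter_upwards [eventually_touching {e₀}] with Λ hΛ
  have he : e₀ ∈ touching Λ := hΛ (mem_singleton_self _)
  unfold Y
  rw [← mul_div_assoc, ← mul_div_assoc, ← sub_div, mul_sum, mul_sum, ← sum_sub_distrib]
  congr 1
  refine sum_congr rfl fun σ _ => ?_
  rw [wJ_rev hJ.1 he]
  have : bond σ e₀ * spin (σ x) = spin (σ y) := by
    unfold bond
    rcases hxy with ⟨rfl, rfl⟩ | ⟨rfl, rfl⟩
    · rw [mul_right_comm, spin_mul_self, one_mul]
    · rw [mul_assoc, spin_mul_self, mul_one]
  rw [← this]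
  ring

section aut
variable (φ : Site ≃ Site) (ψ : Edge ≃ Edge) (h1 : ∀ e, (ψ e).1 = φ e.1)
  (h2 : ∀ e, tip (ψ e) = φ (tip e))
include h1 h2

lemma sum_touching_aut (Λ : Finset Site) (g : Edge → ℝ) :
    ∑ e ∈ touching (Λ.map φ.toEmbedding), g e = ∑ e ∈ touching Λ, g (ψ e) := by
  symm
  refine sum_equiv ψ (fun e => ?_) fun _ _ => rfl
  simp [mem_touching, h1, h2]

omit h1 h2 in
lemma sum_fill_aut (Λ : Finset Site) (g : Config → ℝ) :
    ∑ σ ∈ fill (Λ.map φ.toEmbedding) ⊤, g (σ ∘ φ) = ∑ σ ∈ fill Λ ⊤, g σ := by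
  refine sum_nbij' (fun σ => σ ∘ φ) (fun σ => σ ∘ φ.symm) ?_ ?_ ?_ ?_ (fun _ _ => rfl)
  · intro σ hσ
    rw [mem_fill] at *
    intro x hx
    exact hσ (φ x) (by simpa using hx)
  · intro σ hσ
    rw [mem_fill] at *
    intro x hx
    exact hσ (φ.symm x) (by simpa using hx)
  · intro σ _
    funext x; simp
  · intro σ _
    funext x; simp

lemma bond_aut (σ : Config) (e : Edge) : bond σ (ψ e) = bond (σ ∘ φ) e := by
  simp [bond, h1, h2]

lemma Y_aut (Λ : Finset Site) (J : Edge → ℝ) (a b : Site) :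
    Y (Λ.map φ.toEmbedding) J (φ a) (φ b) = Y Λ (J ∘ ψ) a b := by
  unfold Y
  rw [← sum_fill_aut φ Λ, ← sum_fill_aut φ Λ]
  congr 1
  · refine sum_congr rfl fun σ _ => ?_
    unfold wJ
    rw [sum_touching_aut φ ψ h1 h2]
    simp [bond_aut φ ψ h1 h2]
  · refine sum_congr rfl fun σ _ => ?_
    unfold weight
    rw [sum_touching_aut φ ψ h1 h2]
    simp [bond_aut φ ψ h1 h2]

lemma pavg_aut (Λ : Finset Site) (f : Config → ℝ) :
    pavg (Λ.map φ.toEmbedding) (fun σ => f (σ ∘ φ)) = pavg Λ f := by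
  unfold pavg avg
  rw [← sum_fill_aut φ Λ, ← sum_fill_aut φ Λ]
  congr 1
  · refine sum_congr rfl fun σ _ => ?_
    unfold weight
    rw [sum_touching_aut φ ψ h1 h2]
    simp [bond_aut φ ψ h1 h2]
  · refine sum_congr rfl fun σ _ => ?_
    unfold weight
    rw [sum_touching_aut φ ψ h1 h2]
    simp [bond_aut φ ψ h1 h2]

omit h1 h2 in
lemma tendsto_map_aut : Tendsto (fun Λ : Finset Site => Λ.map φ.toEmbedding) atTop atTop := by
  refine Monotone.tendsto_atTop_atTop (fun a b h => map_subset_map.2 h) fun b =>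
    ⟨b.map φ.symm.toEmbedding, fun x hx => by simpa using hx⟩

omit h1 h2 in
lemma Good.comp {J : Edge → ℝ} (hJ : Good J) : Good (J ∘ ψ) :=
  ⟨fun _ => hJ.1 _, hJ.2.preimage ψ.injective.injOn⟩

lemma corr_aut {J : Edge → ℝ} (hJ : Good J) (a b : Site) :
    corr J (φ a) (φ b) = corr (J ∘ ψ) a b := by
  refine tendsto_nhds_unique ((tendsto_corr hJ _ _).comp (tendsto_map_aut φ))
    ((tendsto_corr (hJ.comp ψ) a b).congr fun Λ => ?_)
  exact (Y_aut φ ψ h1 h2 Λ J a b).symm

end aut

/-- Translation of sites. -/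
def shiftS (d : Site) : Site ≃ Site := Equiv.addRight d

/-- Translation of edges. -/
def shiftE (d : Site) : Edge ≃ Edge := Equiv.prodCongr (Equiv.addRight d) (Equiv.refl _)

lemma shift1 (d : Site) (e : Edge) : (shiftE d e).1 = shiftS d e.1 := rfl
lemma shift2 (d : Site) (e : Edge) : tip (shiftE d e) = shiftS d (tip e) := by
  obtain ⟨⟨a, b⟩, c⟩ := e
  cases c <;> simp [shiftE, shiftS, tip, Prod.ext_iff] <;> ring

/-- Reflection of edges in the diagonal. -/
def swapE : Edge ≃ Edge := Equiv.prodCongr (Equiv.prodComm _ _) Equiv.boolNot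

lemma swap1 (e : Edge) : (swapE e).1 = Equiv.prodComm _ _ e.1 := rfl
lemma swap2 (e : Edge) : tip (swapE e) = Equiv.prodComm _ _ (tip e) := by
  obtain ⟨⟨a, b⟩, c⟩ := e
  cases c <;> simp [swapE, tip]

lemma good_one : Good fun _ => 1 := ⟨fun _ => Or.inl rfl, by simp⟩

/-- The limit magnetisation in the plus state. -/
def mag (x : Site) : ℝ := limUnder atTop fun Λ => pavg Λ fun σ => spin (σ x)

lemma tendsto_mag (x : Site) :
    Tendsto (fun Λ => pavg Λ fun σ => spin (σ x)) atTop (𝓝 (mag x)) :=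
  tendsto_nhds_limUnder (BV.spin x).tendsto

lemma mag_eq (x : Site) : mag x = mag 0 := by
  refine tendsto_nhds_unique ((tendsto_mag x).comp (tendsto_map_aut (shiftS x)))
    ((tendsto_mag 0).congr fun Λ => ?_)
  rw [← pavg_aut (shiftS x) (shiftE x) (shift1 x) (shift2 x) Λ]
  simp [shiftS]

lemma mag_sq_le (x : Site) : mag 0 * mag 0 ≤ corr (fun _ => 1) x 0 := by
  nth_rewrite 1 [← mag_eq x]
  refine le_of_tendsto_of_tendsto' ((tendsto_mag x).mul (tendsto_mag 0))
    (tendsto_corr good_one x 0) fun Λ => ?_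
  have := fkg_fill betaC_pos.le (touching Λ) Λ ⊤ (f := fun σ => spin (σ x))
    (g := fun σ => spin (σ 0)) (fun a b h => spin_mono (h x)) (fun a b h => spin_mono (h 0))
  refine this.trans (le_of_eq ?_)
  unfold avg Y
  simp only [wJ_one]

end

end Pool.Agent.MP_cb84d8_pr

end MrgPart1

-- ======== part 2: formerly Pool.Agent.MP_cb84d8_pr.Fermion
section MrgPart2

/-!
The Kadanoff-Ceva fermion with a spin at the origin and a disorder at the face `(n, n)`.
-/

open Finset Filter Topology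

namespace Pool.Agent.MP_cb84d8_pr

noncomputable section
open Classical

/-- `l` lies in the half-open interval between `p` and `q`. -/
def btw (p q l : ℤ) : Prop := (p < l ∧ l ≤ q) ∨ (q < l ∧ l ≤ p)

/-- Couplings reversed along the dual path from the face `(i, j)` first vertically to the row `n`
and then horizontally to the face `(n, n)`. -/
def JL (n i j : ℤ) : Edge → ℝ := fun e =>
  if e.2 = true then sg (e.1.2 = n ∧ btw i n e.1.1) else sg (e.1.1 = i ∧ btw j n e.1.2)

lemma finite_btw (p q : ℤ) : {l | btw p q l}.Finite :=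
  (Set.finite_Icc (min p q) (max p q)).subset fun l hl => by
    simp only [btw, Set.mem_ofPred_eq] at hl
    simp only [Set.mem_Icc]
    omega

lemma good_JL (n i j : ℤ) : Good (JL n i j) := by
  refine ⟨fun e => by unfold JL; split_ifs <;> exact sg_cases _, ?_⟩
  refine (((finite_btw i n).image fun l => (((l, n), true) : Edge)).union
    ((finite_btw j n).image fun l => (((i, l), false) : Edge))).subset ?_
  rintro ⟨⟨a, b⟩, d⟩ he
  cases d
  · right
    simp only [JL, Set.mem_ofPred_eq, sg, Bool.false_eq_true, if_false] at he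
    split_ifs at he with h2
    · exact ⟨b, h2.2, by simp [h2.1.symm]⟩
    · simp at he
  · left
    simp only [JL, Set.mem_ofPred_eq, sg, if_true] at he
    split_ifs at he with h2
    · exact ⟨a, h2.2, by simp [h2.1.symm]⟩
    · simp at he

/-- The fermionic observable at the corner made of the site `v` and the face `(i, j)`. -/
def XF (n : ℤ) (v : Site) (i j : ℤ) : ℝ :=
  sg (btw i n v.1 ∧ v.2 ≤ n) * corr (JL n i j) v 0

/-- South-west corners. -/
def AF (n i j : ℤ) : ℝ := XF n (i, j) i j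

/-- North-east corners. -/
def BF (n i j : ℤ) : ℝ := XF n (i + 1, j + 1) i j

lemma rev_up (n i j : ℤ) : rev (JL n i j) ((i, j + 1), false) = JL n i (j + 1) := by
  funext ⟨⟨a, b⟩, d⟩
  cases d <;> simp only [rev, JL, sg, btw, Prod.mk.injEq, if_true, Bool.false_eq_true, if_false,
    and_true, and_false, Bool.true_eq_false] <;> split_ifs <;>
    first | (exfalso; omega) | norm_num

lemma rev_down (n i j : ℤ) : rev (JL n i (j + 1)) ((i, j + 1), false) = JL n i j := by
  funext ⟨⟨a, b⟩, d⟩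
  cases d <;> simp only [rev, JL, sg, btw, Prod.mk.injEq, if_true, Bool.false_eq_true, if_false,
    and_true, and_false, Bool.true_eq_false] <;> split_ifs <;>
    first | (exfalso; omega) | norm_num

/-- The sites between two neighbouring dual paths. -/
def colG (n i j : ℤ) : Set Site := {p | p.1 = i ∧ btw j n p.2}

lemma finite_colG (n i j : ℤ) : (colG n i j).Finite :=
  ((finite_btw j n).image fun l => ((i, l) : Site)).subset fun p hp => ⟨p.2, hp.2, by
    simp [hp.1.symm]⟩

lemma rev_left (n i j : ℤ) (e : Edge) : rev (JL n (i + 1) j) ((i + 1, j), true) e =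
    JL n i j e * (sg (e.1 ∈ colG n (i + 1) j) * sg (tip e ∈ colG n (i + 1) j)) := by
  obtain ⟨⟨a, b⟩, d⟩ := e
  cases d <;> simp only [rev, JL, sg, btw, Prod.mk.injEq, colG, tip, Set.mem_ofPred_eq,
    if_true, Bool.false_eq_true, if_false, and_true, and_false] <;>
    split_ifs <;> first | (exfalso; omega) | norm_num

lemma rev_right (n i j : ℤ) (e : Edge) : rev (JL n i j) ((i + 1, j), true) e =
    JL n (i + 1) j e * (sg (e.1 ∈ colG n (i + 1) j) * sg (tip e ∈ colG n (i + 1) j)) := by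
  obtain ⟨⟨a, b⟩, d⟩ := e
  cases d <;> simp only [rev, JL, sg, btw, Prod.mk.injEq, colG, tip, Set.mem_ofPred_eq,
    if_true, Bool.false_eq_true, if_false, and_true, and_false] <;>
    split_ifs <;> first | (exfalso; omega) | norm_num

lemma relH1 {n i j : ℤ} (h : ¬ (i = n ∧ j + 1 ≤ n)) :
    AF n i (j + 1) + BF n i j = √2 * XF n (i, j + 1) i j := by
  have := corr_rev (good_JL n i j) ((i, j + 1), false) (x := (i, j + 1)) (y := (i + 1, j + 1))
    (Or.inl ⟨rfl, rfl⟩) 0
  rw [rev_up] at this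
  unfold AF BF XF
  rw [this]
  simp only [JL, sg, btw, Bool.false_eq_true, if_false, true_and]
  split_ifs <;> first | (exfalso; omega) | ring

lemma relH2 {n i j : ℤ} (h : ¬ (i = n ∧ j + 1 ≤ n)) :
    BF n i j - AF n i (j + 1) = √2 * XF n (i + 1, j + 1) i (j + 1) := by
  have := corr_rev (good_JL n i (j + 1)) ((i, j + 1), false) (x := (i + 1, j + 1))
    (y := (i, j + 1)) (Or.inr ⟨rfl, rfl⟩) 0
  rw [rev_down] at this
  unfold AF BF XF
  rw [this]
  simp only [JL, sg, btw, Bool.false_eq_true, if_false, true_and]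
  split_ifs <;> first | (exfalso; omega) | ring

lemma relV1 {n i j : ℤ} (hn : 0 ≤ n) (h : ¬ (i + 1 = 0 ∧ j < 0)) :
    AF n (i + 1) j + BF n i j = √2 * XF n (i + 1, j + 1) (i + 1) j := by
  have := corr_rev (good_JL n (i + 1) j) ((i + 1, j), true) (x := (i + 1, j + 1))
    (y := (i + 1, j)) (Or.inr ⟨rfl, rfl⟩) 0
  rw [corr_gauge (good_JL n i j) ((good_JL n (i + 1) j).rev _) (finite_colG n (i + 1) j)
    (rev_left n i j)] at this
  unfold AF BF XF
  simp only [JL, sg, btw, if_true, true_and, colG, Set.mem_ofPred_eq, Prod.fst_zero,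
    Prod.snd_zero] at this ⊢
  split_ifs at this ⊢ <;> first | (exfalso; omega) | linarith

lemma relV2 {n i j : ℤ} (hn : 0 ≤ n) (h : ¬ (i + 1 = 0 ∧ j < 0)) :
    BF n i j - AF n (i + 1) j = √2 * XF n (i + 1, j) i j := by
  have := corr_rev (good_JL n i j) ((i + 1, j), true) (x := (i + 1, j))
    (y := (i + 1, j + 1)) (Or.inl ⟨rfl, rfl⟩) 0
  rw [corr_gauge (good_JL n (i + 1) j) ((good_JL n i j).rev _) (finite_colG n (i + 1) j)
    (rev_right n i j)] at this
  unfold AF BF XF
  simp only [JL, sg, btw, if_true, true_and, colG, Set.mem_ofPred_eq, Prod.fst_zero,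
    Prod.snd_zero] at this ⊢
  split_ifs at this ⊢ <;> first | (exfalso; omega) | linarith

lemma cr1 {n i j : ℤ} (hn : 0 ≤ n) (h : i ≤ j) :
    AF n i (j + 1) - AF n i j = BF n (i - 1) j - BF n i j := by
  have h1 := relH1 (n := n) (i := i) (j := j) (by omega)
  have h2 := relV1 (n := n) (i := i - 1) (j := j) hn (by omega)
  simp only [sub_add_cancel] at h2
  linarith

lemma cr2 {n i j : ℤ} (hn : 0 ≤ n) (h : i + 1 ≤ j) :
    AF n (i + 1) j - AF n i j = BF n i j - BF n i (j - 1) := by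
  have h1 := relH2 (n := n) (i := i) (j := j - 1) (by omega)
  have h2 := relV2 (n := n) (i := i) (j := j) hn (by omega)
  simp only [sub_add_cancel] at h1
  linarith

lemma AF_harmonic {n i j : ℤ} (hn : 0 ≤ n) (h : i + 1 ≤ j) :
    4 * AF n i j = AF n (i + 1) j + AF n (i - 1) j + AF n i (j + 1) + AF n i (j - 1) := by
  have h1 := cr1 (i := i) (j := j) hn (by omega)
  have h2 := cr1 (i := i) (j := j - 1) hn (by omega)
  have h3 := cr2 (i := i) (j := j) hn (by omega)
  have h4 := cr2 (i := i - 1) (j := j) hn (by omega)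
  simp only [sub_add_cancel] at h2 h4
  linarith

lemma AF_normal {n : ℤ} (hn : 0 ≤ n) (k : ℤ) :
    2 * AF n k k - AF n k (k + 1) - AF n (k - 1) k = BF n k k - BF n (k - 1) (k - 1) := by
  have h1 := cr1 (i := k) (j := k) hn le_rfl
  have h4 := cr2 (i := k - 1) (j := k) hn (by omega)
  simp only [sub_add_cancel] at h4
  linarith

lemma abs_AF_le (n i j : ℤ) : |AF n i j| ≤ 1 := by
  unfold AF XF
  rw [abs_mul]
  have := abs_corr_le (good_JL n i j) (i, j) 0
  rcases sg_cases (btw i n (i, j).1 ∧ (i, j).2 ≤ n) with h | h <;> rw [h] <;> simpa using this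

/-- The square enclosed by a dual path and its mirror image. -/
def sqG (n k : ℤ) : Set Site := {p | btw k n p.1 ∧ btw k n p.2}

lemma finite_sqG (n k : ℤ) : (sqG n k).Finite :=
  ((finite_btw k n).prod (finite_btw k n)).subset fun _ hp => hp

lemma JL_swap (n k : ℤ) (e : Edge) : (JL n k k ∘ swapE) e =
    JL n k k e * (sg (e.1 ∈ sqG n k) * sg (tip e ∈ sqG n k)) := by
  obtain ⟨⟨a, b⟩, d⟩ := e
  cases d <;> simp only [Function.comp, swapE, Equiv.prodCongr_apply, Prod.map, Equiv.prodComm_apply,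
    Prod.swap, Equiv.boolNot_apply, Bool.not_false, Bool.not_true, JL, sg, btw, sqG, tip,
    Set.mem_ofPred_eq, if_true, Bool.false_eq_true, if_false] <;>
    split_ifs <;> first | (exfalso; omega) | norm_num

lemma corr_diag_zero {n k a : ℤ} (h : ¬ (btw k n a ↔ btw k n 0)) :
    corr (JL n k k) (a, a) 0 = 0 := by
  have h1 := corr_aut (Equiv.prodComm _ _) swapE swap1 swap2 (good_JL n k k) (a, a) 0
  rw [corr_gauge (good_JL n k k) ((good_JL n k k).comp swapE) (finite_sqG n k) (JL_swap n k)] at h1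
  simp only [Equiv.prodComm_apply, Prod.swap_prod_mk, Prod.swap_zero, sqG, Set.mem_ofPred_eq,
    and_self, Prod.fst_zero, Prod.snd_zero, sg] at h1
  split_ifs at h1 <;> first | tauto | linarith

lemma AF_out {n k : ℤ} (hn : 0 ≤ n) (h : k < 0 ∨ n < k) : AF n k k = 0 := by
  unfold AF XF
  rw [corr_diag_zero (by unfold btw; omega), mul_zero]

lemma BF_in {n k : ℤ} (h0 : 0 ≤ k) (h : k < n) : BF n k k = 0 := by
  unfold BF XF
  rw [corr_diag_zero (by unfold btw; omega), mul_zero]

/-- Diagonal spin correlation. -/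
def Dsp (n : ℤ) : ℝ := corr (fun _ => 1) (n, n) 0

/-- Diagonal disorder correlation. -/
def Ddis (n : ℤ) : ℝ := corr (JL n 0 0) 0 0

lemma JL_self (n : ℤ) : JL n n n = fun _ => 1 := by
  funext e
  simp only [JL, sg, btw]
  split_ifs <;> first | (exfalso; omega) | rfl

lemma AF_zero {n : ℤ} (hn : 0 ≤ n) : AF n 0 0 = Ddis n := by
  unfold AF XF Ddis
  rw [sg_neg (by unfold btw; omega), one_mul]
  rfl

lemma AF_top (n : ℤ) : AF n n n = Dsp n := by
  unfold AF XF Dsp
  rw [sg_neg (by unfold btw; omega), one_mul, JL_self]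

lemma BF_top (n : ℤ) : BF n n n = Dsp (n + 1) := by
  unfold BF XF Dsp
  rw [sg_neg (by unfold btw; omega), one_mul, JL_self]

lemma BF_bot {n : ℤ} (hn : 0 ≤ n) : BF n (-1) (-1) = - Ddis (n + 1) := by
  unfold BF XF Ddis
  rw [sg_pos (by unfold btw; omega)]
  have h1 := corr_aut (shiftS (1, 1)) (shiftE (1, 1)) (shift1 _) (shift2 _)
    (good_JL (n + 1) 0 0) 0 0
  have h2 : JL (n + 1) 0 0 ∘ shiftE (1, 1) = JL n (-1) (-1) := by
    funext ⟨⟨a, b⟩, d⟩
    cases d <;> simp only [Function.comp, shiftE, Equiv.prodCongr_apply, Prod.map,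
      Equiv.coe_addRight, Prod.mk_add_mk, Equiv.coe_refl, id, JL, sg, btw, if_true,
      Bool.false_eq_true, if_false] <;> split_ifs <;> first | (exfalso; omega) | rfl
  rw [h2, corr_self_eq _ _ 0] at h1
  rw [h1]
  simp only [neg_add_cancel]
  rw [show ((0, 0) : Site) = 0 from rfl]
  ring

lemma Ddis_nonneg (n : ℤ) : 0 ≤ Ddis n := corr_self_nonneg (good_JL _ _ _) _

end

end Pool.Agent.MP_cb84d8_pr

end MrgPart2

-- ======== part 3: formerly Pool.Agent.MP_cb84d8_pr.Kernel
section MrgPart3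

/-!
Bounded harmonic functions on a half lattice, the Poisson kernel and a Toeplitz system.
-/

open Finset Filter Topology Real

namespace Pool.Agent.MP_cb84d8_pr

noncomputable section

lemma half_nonpos (h : ℤ → ℤ → ℝ) (M : ℝ) (hM : ∀ i j, i ≤ j → h i j ≤ M)
    (hh : ∀ i j, i + 1 ≤ j → 4 * h i j = h (i + 1) j + h (i - 1) j + h i (j + 1) + h i (j - 1))
    (h0 : ∀ k, h k k = 0) (i j : ℤ) (hij : i ≤ j) : h i j ≤ 0 := by
  set m : ℕ → ℝ := fun s => ⨆ i : ℤ, h i (i + s) with hm
  have hb : ∀ s : ℕ, BddAbove (Set.range fun i : ℤ => h i (i + s)) := fun s =>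
    ⟨M, by rintro _ ⟨i, rfl⟩; exact hM _ _ (by omega)⟩
  have hle : ∀ (s : ℕ) (i j : ℤ), j = i + s → h i j ≤ m s := fun s i j e => by
    rw [e]; exact le_ciSup (hb s) i
  have hmM : ∀ s, m s ≤ M := fun s => ciSup_le fun i => hM _ _ (by omega)
  have hm0 : m 0 = 0 := by simp [hm, h0]
  have hconv : ∀ s, 2 * m (s + 1) ≤ m s + m (s + 2) := by
    intro s
    have : m (s + 1) ≤ (m s + m (s + 2)) / 2 := by
      refine ciSup_le fun i => ?_
      have e := hh i (i + (s + 1 : ℕ)) (by omega)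
      have a1 := hle s (i + 1) (i + (s + 1 : ℕ)) (by push_cast; ring)
      have a2 := hle (s + 2) (i - 1) (i + (s + 1 : ℕ)) (by push_cast; ring)
      have a3 := hle (s + 2) i (i + (s + 1 : ℕ) + 1) (by push_cast; ring)
      have a4 := hle s i (i + (s + 1 : ℕ) - 1) (by push_cast; ring)
      linarith
    linarith
  have hdec : ∀ s, m (s + 1) ≤ m s := by
    intro s
    by_contra hc
    push Not at hc
    have h1 : ∀ k : ℕ, m (s + 1) - m s ≤ m (s + k + 1) - m (s + k) := by
      intro k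
      induction k with
      | zero => simp
      | succ k ih =>
        have := hconv (s + k)
        rw [show s + (k + 1) + 1 = s + k + 2 by ring, show s + (k + 1) = s + k + 1 by ring]
        linarith
    have h2 : ∀ k : ℕ, m s + k * (m (s + 1) - m s) ≤ m (s + k) := by
      intro k
      induction k with
      | zero => simp
      | succ k ih =>
        have := h1 k
        rw [show s + (k + 1) = s + k + 1 by ring]
        push_cast
        linarith
    obtain ⟨k, hk⟩ := exists_nat_gt ((M - m s) / (m (s + 1) - m s))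
    rw [div_lt_iff₀ (by linarith)] at hk
    have := h2 k
    have := hmM (s + k)
    linarith
  have hneg : ∀ s, m s ≤ 0 := by
    intro s
    induction s with
    | zero => exact hm0.le
    | succ s ih => exact (hdec s).trans ih
  exact (hle (j - i).toNat i j (by omega)).trans (hneg _)

lemma half_unique (h : ℤ → ℤ → ℝ) (M : ℝ) (hM : ∀ i j, i ≤ j → |h i j| ≤ M)
    (hh : ∀ i j, i + 1 ≤ j → 4 * h i j = h (i + 1) j + h (i - 1) j + h i (j + 1) + h i (j - 1))
    (h0 : ∀ k, h k k = 0) (i j : ℤ) (hij : i ≤ j) : h i j = 0 := by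
  have a := half_nonpos h M (fun i j e => (abs_le.1 (hM i j e)).2) hh h0 i j hij
  have b := half_nonpos (fun i j => - h i j) M
    (fun i j e => by have := (abs_le.1 (hM i j e)).1; linarith)
    (fun i j e => by have := hh i j e; linarith) (fun k => by simp [h0]) i j hij
  linarith

/-- The decay rate of a Fourier mode. -/
def yk (θ : ℝ) : ℝ := cos θ / (1 + |sin θ|)

lemma continuous_yk : Continuous yk := by
  unfold yk
  refine Continuous.div (by fun_prop) (by fun_prop) fun θ => ?_
  positivity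

lemma yk_eq (θ : ℝ) : cos θ * (1 + yk θ ^ 2) = 2 * yk θ := by
  unfold yk
  have h : 0 < 1 + |sin θ| := by positivity
  have h1 : |sin θ| ^ 2 = sin θ ^ 2 := sq_abs _
  have h2 := sin_sq_add_cos_sq θ
  field_simp
  have : cos θ ^ 2 = 1 - |sin θ| ^ 2 := by linarith
  rw [this]
  ring

lemma cos_mul_yk (θ : ℝ) : cos θ * yk θ = 1 - |sin θ| := by
  unfold yk
  have h : 0 < 1 + |sin θ| := by positivity
  have h1 : |sin θ| ^ 2 = sin θ ^ 2 := sq_abs _
  have h2 := sin_sq_add_cos_sq θ
  field_simp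
  nlinarith

lemma abs_yk_le (θ : ℝ) : |yk θ| ≤ 1 := by
  unfold yk
  have h : 0 < 1 + |sin θ| := by positivity
  rw [abs_div, abs_of_pos h, div_le_one h]
  have := abs_cos_le_one θ
  have := abs_nonneg (sin θ)
  linarith

/-- Fourier mode `k` at height `s`. -/
def PK (k : ℝ) (s : ℕ) : ℝ := ∫ θ in (0 : ℝ)..π, cos (k * θ) * yk θ ^ s

lemma PK_int (k : ℝ) (s : ℕ) :
    IntervalIntegrable (fun θ => cos (k * θ) * yk θ ^ s) MeasureTheory.volume 0 π := by
  have := continuous_yk
  exact Continuous.intervalIntegrable (by fun_prop) _ _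

lemma abs_PK_le (k : ℝ) (s : ℕ) : |PK k s| ≤ π := by
  have := intervalIntegral.norm_integral_le_of_norm_le_const (a := 0) (b := π) (C := 1)
    (f := fun θ => cos (k * θ) * yk θ ^ s) fun θ _ => by
      rw [norm_eq_abs, abs_mul, abs_pow]
      exact mul_le_one₀ (abs_cos_le_one _) (by positivity)
        (pow_le_one₀ (abs_nonneg _) (abs_yk_le _))
  simpa [abs_of_pos pi_pos, PK] using this

lemma PK_pair (k : ℝ) (s : ℕ) : PK (k + 1) s + PK (k - 1) s =
    ∫ θ in (0 : ℝ)..π, 2 * cos (k * θ) * (cos θ * yk θ ^ s) := by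
  unfold PK
  rw [← intervalIntegral.integral_add (PK_int _ _) (PK_int _ _)]
  congr 1
  funext θ
  rw [add_mul, sub_mul, one_mul, cos_add, cos_sub]
  ring

lemma PK_harmonic (k : ℝ) (s : ℕ) :
    4 * PK k (s + 1) = PK (k + 1) s + PK (k - 1) (s + 2) + PK (k + 1) (s + 2) + PK (k - 1) s := by
  have h1 := PK_pair k s
  have h2 := PK_pair k (s + 2)
  have hc := continuous_yk
  have : (∫ θ in (0 : ℝ)..π, 2 * cos (k * θ) * (cos θ * yk θ ^ s)) +
      (∫ θ in (0 : ℝ)..π, 2 * cos (k * θ) * (cos θ * yk θ ^ (s + 2))) = 4 * PK k (s + 1) := by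
    unfold PK
    rw [← intervalIntegral.integral_add (Continuous.intervalIntegrable (by fun_prop) _ _)
      (Continuous.intervalIntegrable (by fun_prop) _ _), ← intervalIntegral.integral_const_mul]
    congr 1
    funext θ
    have := yk_eq θ
    calc _ = 2 * cos (k * θ) * yk θ ^ s * (cos θ * (1 + yk θ ^ 2)) := by ring
      _ = _ := by rw [this]; ring
  linarith

lemma PK_zero (m : ℤ) : PK (2 * m) 0 = if m = 0 then π else 0 := by
  unfold PK
  split_ifs with h
  · simp [h]
  · have hm : (2 * m : ℝ) ≠ 0 := by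
      have : (m : ℝ) ≠ 0 := by exact_mod_cast h
      positivity
    simp only [pow_zero, mul_one]
    rw [intervalIntegral.integral_comp_mul_left (fun x => cos x) hm, integral_cos]
    have : sin (2 * m * π) = 0 := by
      have := sin_int_mul_pi (2 * m)
      push_cast at this
      exact this
    simp [this]

lemma integral_sin_odd (m : ℤ) : ∫ θ in (0 : ℝ)..π, sin ((2 * m + 1) * θ) = 2 / (2 * m + 1) := by
  have hm : (2 * m + 1 : ℝ) ≠ 0 := by
    have : (2 * m + 1 : ℤ) ≠ 0 := by omega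
    exact_mod_cast this
  rw [intervalIntegral.integral_comp_mul_left (fun x => sin x) hm, integral_sin]
  have : cos ((2 * m + 1) * π) = -1 := by
    have := cos_int_mul_two_pi_add_pi m
    rw [← this]
    congr 1
    ring
  simp only [mul_zero, cos_zero, this, smul_eq_mul]
  field_simp
  ring

lemma PK_normal (m : ℤ) : 2 * PK (2 * m) 0 - PK (2 * m + 1) 1 - PK (2 * m - 1) 1 =
    4 / (1 - 4 * (m : ℝ) ^ 2) := by
  have h1 := PK_pair (2 * m) 1
  have hc := continuous_yk
  have h2 : 2 * PK (2 * m) 0 - (∫ θ in (0 : ℝ)..π, 2 * cos (2 * m * θ) * (cos θ * yk θ ^ 1)) =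
      ∫ θ in (0 : ℝ)..π, (sin ((2 * m + 1) * θ) + sin ((2 * (-m : ℤ) + 1) * θ)) := by
    unfold PK
    rw [← intervalIntegral.integral_const_mul,
      ← intervalIntegral.integral_sub (Continuous.intervalIntegrable (by fun_prop) _ _)
      (Continuous.intervalIntegrable (by fun_prop) _ _)]
    refine intervalIntegral.integral_congr fun θ hθ => ?_
    rw [Set.uIcc_of_le pi_pos.le] at hθ
    have hs : |sin θ| = sin θ := abs_of_nonneg (sin_nonneg_of_nonneg_of_le_pi hθ.1 hθ.2)
    simp only [pow_one, pow_zero, cos_mul_yk, hs]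
    push_cast
    rw [show (2 * (m : ℝ) + 1) * θ = θ + 2 * m * θ by ring,
      show (2 * -(m : ℝ) + 1) * θ = θ - 2 * m * θ by ring, sin_add, sin_sub]
    ring
  rw [intervalIntegral.integral_add (Continuous.intervalIntegrable (by fun_prop) _ _)
      (Continuous.intervalIntegrable (by fun_prop) _ _), integral_sin_odd, integral_sin_odd] at h2
  have a1 : (2 * m + 1 : ℝ) ≠ 0 := by
    have : (2 * m + 1 : ℤ) ≠ 0 := by omega
    exact_mod_cast this
  have a2 : (1 - 2 * m : ℝ) ≠ 0 := by
    have : (1 - 2 * m : ℤ) ≠ 0 := by omega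
    exact_mod_cast this
  have a3 : (1 - 4 * (m : ℝ) ^ 2) = (2 * m + 1) * (1 - 2 * m) := by ring
  have a4 : (2 * ((-m : ℤ) : ℝ) + 1) = 1 - 2 * m := by push_cast; ring
  rw [a4] at h2
  rw [a3, sub_sub, h1, h2]
  field_simp
  ring

/-- The Poisson kernel of the half lattice, times `π`. -/
def PH (i j : ℤ) : ℝ := PK (i + j) (j - i).toNat

lemma PH_harmonic (i j : ℤ) (h : i + 1 ≤ j) :
    4 * PH i j = PH (i + 1) j + PH (i - 1) j + PH i (j + 1) + PH i (j - 1) := by
  unfold PH
  obtain ⟨s, hs⟩ : ∃ s : ℕ, j - i = s + 1 := ⟨(j - i - 1).toNat, by omega⟩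
  rw [show (j - i).toNat = s + 1 by omega, show (j - (i + 1)).toNat = s by omega,
    show (j - (i - 1)).toNat = s + 2 by omega, show (j + 1 - i).toNat = s + 2 by omega,
    show (j - 1 - i).toNat = s by omega, PK_harmonic]
  push_cast
  ring_nf

/-- The Dirichlet-to-Neumann identity. -/
lemma dtn (n : ℕ) (h : ℤ → ℤ → ℝ) (M : ℝ) (hM : ∀ i j, i ≤ j → |h i j| ≤ M)
    (hh : ∀ i j, i + 1 ≤ j → 4 * h i j = h (i + 1) j + h (i - 1) j + h i (j + 1) + h i (j - 1))
    (h0 : ∀ k : ℤ, k < 0 ∨ n < k → h k k = 0) (k : ℤ) :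
    π * (2 * h k k - h k (k + 1) - h (k - 1) k) =
      ∑ l ∈ range (n + 1), h l l * (4 / (1 - 4 * ((k : ℝ) - l) ^ 2)) := by
  have key := half_unique
    (fun i j => π * h i j - ∑ l ∈ range (n + 1), h l l * PH (i - l) (j - l))
    (π * M + ∑ l ∈ range (n + 1), |h l l| * π) (fun i j e => by
      refine (abs_sub _ _).trans (add_le_add ?_ ((abs_sum_le_sum_abs _ _).trans
        (sum_le_sum fun l _ => ?_)))
      · rw [abs_mul, abs_of_pos pi_pos]
        exact mul_le_mul_of_nonneg_left (hM i j e) pi_pos.le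
      · rw [abs_mul]
        exact mul_le_mul_of_nonneg_left (abs_PK_le _ _) (abs_nonneg _))
    (fun i j e => by
      have a := hh i j e
      have b : 4 * ∑ l ∈ range (n + 1), h l l * PH (i - l) (j - l) =
          ∑ l ∈ range (n + 1), h l l * PH (i + 1 - l) (j - l) +
          ∑ l ∈ range (n + 1), h l l * PH (i - 1 - l) (j - l) +
          ∑ l ∈ range (n + 1), h l l * PH (i - l) (j + 1 - l) +
          ∑ l ∈ range (n + 1), h l l * PH (i - l) (j - 1 - l) := by
        rw [mul_sum, ← sum_add_distrib, ← sum_add_distrib, ← sum_add_distrib]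
        refine sum_congr rfl fun l _ => ?_
        have := PH_harmonic (i - l) (j - l) (by omega)
        rw [show i + 1 - l = i - l + 1 by ring, show i - 1 - l = i - l - 1 by ring,
          show j + 1 - l = j - l + 1 by ring, show j - 1 - l = j - l - 1 by ring]
        rw [mul_left_comm, this]
        ring
      rw [mul_sub, b, mul_left_comm, a]
      ring)
    (fun k => by
      have : ∀ l ∈ range (n + 1), h l l * PH (k - l) (k - l) =
          if k = l then π * h k k else 0 := by
        intro l _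
        unfold PH
        have := PK_zero (k - l)
        rw [show (((k - l : ℤ) : ℝ) + ((k - l : ℤ) : ℝ)) = 2 * ((k - l : ℤ) : ℝ) by ring, sub_self,
          Int.toNat_zero, this]
        by_cases e : k = l
        · simp [e, mul_comm]
        · simp [e, sub_eq_zero]
      rw [sum_congr rfl this]
      by_cases hk : k < 0 ∨ n < k
      · simp [h0 k hk]
      · obtain ⟨l, rfl⟩ := Int.eq_ofNat_of_zero_le (show 0 ≤ k by omega)
        simp only [Nat.cast_inj, sum_ite_eq, mem_range]
        rw [if_pos (by omega), sub_self])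
  have k1 := key k k le_rfl
  have k2 := key k (k + 1) (by omega)
  have k3 := key (k - 1) k (by omega)
  have : ∑ l ∈ range (n + 1), h l l * (4 / (1 - 4 * ((k : ℝ) - l) ^ 2)) =
      2 * ∑ l ∈ range (n + 1), h l l * PH (k - l) (k - l) -
      ∑ l ∈ range (n + 1), h l l * PH (k - l) (k + 1 - l) -
      ∑ l ∈ range (n + 1), h l l * PH (k - 1 - l) (k - l) := by
    rw [mul_sum, ← sum_sub_distrib, ← sum_sub_distrib]
    refine sum_congr rfl fun l _ => ?_
    have := PK_normal (k - l)
    unfold PH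
    rw [show (k - l - (k - l)).toNat = 0 by omega, show (k + 1 - l - (k - l)).toNat = 1 by omega,
      show (k - l - (k - 1 - l)).toNat = 1 by omega]
    push_cast at this ⊢
    rw [← this]
    ring_nf
  rw [this]
  linarith

lemma prod_neg_one_pow_card_aux (n : ℕ) (f : ℕ → ℝ) :
    ∏ i ∈ range n, -f i = (-1) ^ n * ∏ i ∈ range n, f i := by
  rw [prod_neg, card_range]

/-- Coefficients of the partial fraction expansion. -/
def xk (n k : ℕ) : ℝ :=
  Lagrange.nodalWeight (range (n + 1)) (fun j : ℕ => (j : ℝ)) k * ∏ i ∈ range n, ((k : ℝ) - (i + 1 / 2))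

lemma part_frac (n : ℕ) (z : ℝ) (hz : ∀ j : ℕ, z ≠ j) :
    ∑ k ∈ range (n + 1), xk n k * (z - k)⁻¹ =
      (∏ i ∈ range n, (z - (i + 1 / 2))) / ∏ j ∈ range (n + 1), (z - j) := by
  set N : Polynomial ℝ := Lagrange.nodal (range n) (fun i : ℕ => (i : ℝ) + 1 / 2) with hN
  have hdeg : N.degree < (range (n + 1)).card := by
    rw [hN, Lagrange.degree_nodal, card_range, card_range]
    exact_mod_cast Nat.lt_succ_self n
  have h1 := Lagrange.eq_interpolate (s := range (n + 1)) (v := fun j : ℕ => (j : ℝ)) (f := N)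
    (fun a _ b _ h => Nat.cast_injective (R := ℝ) h) hdeg
  have h2 := congrArg (Polynomial.eval z) h1
  rw [Lagrange.eval_interpolate_not_at_node _ (fun j _ => hz j), hN] at h2
  simp only [Lagrange.eval_nodal] at h2
  have h3 : ∏ j ∈ range (n + 1), (z - j) ≠ 0 :=
    prod_ne_zero_iff.2 fun j _ => sub_ne_zero.2 (hz j)
  rw [h2, mul_div_cancel_left₀ _ h3]
  refine sum_congr rfl fun k _ => ?_
  unfold xk
  ring

lemma half_ne (m : ℤ) (j : ℕ) : (m : ℝ) + 1 / 2 ≠ j := by
  intro h
  have : (2 * m + 1 : ℝ) = 2 * j := by linarith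
  have h2 : (2 * m + 1 : ℤ) = 2 * j := by exact_mod_cast this
  omega

/-- The rational function at half-integers. -/
def RR (n : ℕ) (m : ℤ) : ℝ :=
  (∏ i ∈ range n, ((m : ℝ) + 1 / 2 - (i + 1 / 2))) / ∏ j ∈ range (n + 1), ((m : ℝ) + 1 / 2 - j)

lemma pair_row (n : ℕ) (l : ℕ) :
    ∑ k ∈ range (n + 1), xk n k * (4 / (1 - 4 * ((k : ℝ) - l) ^ 2)) = RR n l - RR n (l - 1) := by
  unfold RR
  rw [← part_frac n _ (half_ne _), ← part_frac n _ (half_ne _), ← sum_sub_distrib]
  refine sum_congr rfl fun k _ => ?_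
  have a1 := sub_ne_zero.2 (half_ne l k)
  have a2 := sub_ne_zero.2 (half_ne (l - 1) k)
  push_cast at a1 a2 ⊢
  have a3 : (1 - 4 * ((k : ℝ) - l) ^ 2) = -4 * (l + 1 / 2 - k) * (l - 1 + 1 / 2 - k) := by ring
  rw [a3, ← mul_sub]
  congr 1
  have a4 : (l : ℝ) + 1 / 2 - k = (l - 1 + 1 / 2 - k) + 1 := by ring
  rw [a4] at a1 ⊢
  generalize (l : ℝ) - 1 + 1 / 2 - k = w at *
  field_simp
  ring

lemma RR_zero {n l : ℕ} (h : l < n) : RR n l = 0 := by
  unfold RR
  rw [prod_eq_zero (i := l) (mem_range.2 h) (by simp), zero_div]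

lemma RR_top (n : ℕ) :
    RR n n = (∏ i ∈ range n, ((i : ℝ) + 1)) / ∏ j ∈ range (n + 1), ((j : ℝ) + 1 / 2) := by
  unfold RR
  rw [← prod_range_reflect (fun i => (i : ℝ) + 1), ← prod_range_reflect (fun j => (j : ℝ) + 1 / 2)]
  congr 1
  · refine prod_congr rfl fun i hi => ?_
    rw [mem_range] at hi
    rw [Nat.cast_sub (by omega), Nat.cast_sub (by omega)]
    push_cast
    ring
  · refine prod_congr rfl fun i hi => ?_
    rw [mem_range] at hi
    rw [Nat.add_sub_cancel, Nat.cast_sub (by omega)]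
    push_cast
    ring

lemma RR_bot (n : ℕ) :
    RR n (-1) = -((∏ i ∈ range n, ((i : ℝ) + 1)) / ∏ j ∈ range (n + 1), ((j : ℝ) + 1 / 2)) := by
  unfold RR
  have a : ∏ i ∈ range n, (((-1 : ℤ) : ℝ) + 1 / 2 - (i + 1 / 2)) =
      (-1) ^ n * ∏ i ∈ range n, ((i : ℝ) + 1) := by
    rw [← prod_neg_one_pow_card_aux]
    exact prod_congr rfl fun i _ => by push_cast; ring
  have b : ∏ j ∈ range (n + 1), (((-1 : ℤ) : ℝ) + 1 / 2 - j) =
      (-1) ^ (n + 1) * ∏ j ∈ range (n + 1), ((j : ℝ) + 1 / 2) := by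
    rw [← prod_neg_one_pow_card_aux]
    exact prod_congr rfl fun i _ => by push_cast; ring
  rw [a, b, pow_succ]
  have : ((-1 : ℝ) ^ n) ≠ 0 := pow_ne_zero _ (by norm_num)
  generalize ∏ j ∈ range (n + 1), ((j : ℝ) + 1 / 2) = d
  generalize ∏ j ∈ range n, ((j : ℝ) + 1) = c
  rw [mul_assoc, mul_div_mul_left _ _ this, neg_one_mul, div_neg]

lemma xk_zero (n : ℕ) :
    xk n 0 = (∏ i ∈ range n, ((i : ℝ) + 1 / 2)) / ∏ i ∈ range n, ((i : ℝ) + 1) := by
  unfold xk Lagrange.nodalWeight
  have : ∏ j ∈ (range (n + 1)).erase 0, (((0 : ℕ) : ℝ) - (j : ℝ))⁻¹ =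
      ∏ i ∈ range n, (-((i : ℝ) + 1))⁻¹ := by
    have h := prod_range_succ' (fun j : ℕ => if j = 0 then (1 : ℝ) else (((0 : ℕ) : ℝ) - j)⁻¹) n
    rw [← mul_prod_erase _ _ (mem_range.2 (Nat.succ_pos n))] at h
    simp only [if_true, one_mul, mul_one, Nat.add_eq_zero_iff, one_ne_zero, and_false,
      if_false] at h
    rw [← prod_congr rfl (fun j hj => if_neg (ne_of_mem_erase hj)), h]
    exact prod_congr rfl fun i _ => by push_cast; ring
  rw [this, ← prod_mul_distrib, ← prod_div_distrib]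
  refine prod_congr rfl fun i _ => ?_
  have : (i : ℝ) + 1 ≠ 0 := by positivity
  push_cast
  field_simp
  ring

lemma xk_top (n : ℕ) :
    xk n n = (∏ i ∈ range n, ((i : ℝ) + 1 / 2)) / ∏ i ∈ range n, ((i : ℝ) + 1) := by
  unfold xk Lagrange.nodalWeight
  rw [range_add_one, erase_insert notMem_range_self, ← prod_mul_distrib, ← prod_div_distrib,
    ← prod_range_reflect]
  refine prod_congr rfl fun i hi => ?_
  rw [mem_range] at hi
  have e : ((n - 1 - i : ℕ) : ℝ) = n - 1 - i := by
    rw [Nat.cast_sub (by omega), Nat.cast_sub (by omega), Nat.cast_one]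
  have : (i : ℝ) + 1 ≠ 0 := by positivity
  simp only [e]
  rw [show (n : ℝ) - (n - 1 - i) = i + 1 by ring]
  field_simp
  ring

lemma W_eq (n : ℕ) : 2 * Wallis.W n * (∏ i ∈ range n, ((i : ℝ) + 1 / 2)) *
    (∏ j ∈ range (n + 1), ((j : ℝ) + 1 / 2)) = (∏ i ∈ range n, ((i : ℝ) + 1)) ^ 2 := by
  induction n with
  | zero => simp [Wallis.W]
  | succ n ih =>
    rw [Wallis.W_succ, prod_range_succ _ (n + 1), prod_range_succ (fun i => (i : ℝ) + 1), mul_pow,
      ← ih, prod_range_succ _ n]
    push_cast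
    field_simp
    ring

/-- The solution of the Toeplitz system. -/
lemma toeplitz (n : ℕ) (q : ℕ → ℝ) (a b : ℝ)
    (h : ∀ k ∈ range (n + 1), ∑ l ∈ range (n + 1), q l * (4 / (1 - 4 * ((k : ℝ) - l) ^ 2)) =
      π * ((if k = n then a else 0) + if k = 0 then b else 0)) :
    π * (a + b) = 2 * Wallis.W n * (q 0 + q n) := by
  have h1 : ∑ k ∈ range (n + 1), xk n k *
      ∑ l ∈ range (n + 1), q l * (4 / (1 - 4 * ((k : ℝ) - l) ^ 2)) =
      π * (xk n n * a + xk n 0 * b) := by
    rw [sum_congr rfl fun k hk => by rw [h k hk]]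
    simp only [mul_add, sum_add_distrib, mul_ite, mul_zero, sum_ite_eq', mem_range,
      Nat.lt_add_one, Nat.succ_pos, if_true]
    ring
  have h2 : ∑ k ∈ range (n + 1), xk n k *
      ∑ l ∈ range (n + 1), q l * (4 / (1 - 4 * ((k : ℝ) - l) ^ 2)) =
      ∑ l ∈ range (n + 1), q l * RR n l - ∑ l ∈ range (n + 1), q l * RR n (l - 1) := by
    simp only [mul_sum]
    rw [sum_comm, ← sum_sub_distrib]
    refine sum_congr rfl fun l _ => ?_
    rw [← mul_sub, ← pair_row, mul_sum]
    exact sum_congr rfl fun k _ => by ring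
  have z1 : ∑ l ∈ range n, q l * RR n l = 0 :=
    sum_eq_zero fun l hl => by rw [RR_zero (mem_range.1 hl), mul_zero]
  have z2 : ∑ l ∈ range n, q (l + 1) * RR n ((l + 1 : ℕ) - 1) = 0 :=
    sum_eq_zero fun l hl => by
      push_cast
      rw [add_sub_cancel_right, RR_zero (mem_range.1 hl), mul_zero]
  rw [h1, sum_range_succ (fun l => q l * RR n l), sum_range_succ' (fun l => q l * RR n (l - 1)),
    z1, z2, xk_top, xk_zero] at h2
  simp only [Nat.cast_zero, zero_sub, RR_top, RR_bot] at h2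
  have hW := W_eq n
  have p1 : 0 < ∏ i ∈ range n, ((i : ℝ) + 1 / 2) := prod_pos fun i _ => by positivity
  have p2 : 0 < ∏ i ∈ range (n + 1), ((i : ℝ) + 1 / 2) := prod_pos fun i _ => by positivity
  have p3 : 0 < ∏ i ∈ range n, ((i : ℝ) + 1) := prod_pos fun i _ => by positivity
  generalize ∏ i ∈ range n, ((i : ℝ) + 1 / 2) = g at *
  generalize ∏ i ∈ range (n + 1), ((i : ℝ) + 1 / 2) = d at *
  generalize ∏ i ∈ range n, ((i : ℝ) + 1) = c at *
  have e1 : 2 * Wallis.W n = c ^ 2 / (g * d) := by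
    rw [← hW]; field_simp
  rw [e1]
  field_simp at h2 ⊢
  linarith

lemma W_le_refined (n : ℕ) : 2 * Wallis.W n * (8 * n + 9) ≤ π * (8 * n + 8) := by
  set u : ℕ → ℝ := fun n => Wallis.W n * (1 + 1 / 8 * (1 / ((n : ℝ) + 1))) with hu
  have hmono : Monotone u := by
    refine monotone_nat_of_le_succ fun k => ?_
    simp only [hu, Wallis.W_succ]
    rw [mul_assoc]
    refine mul_le_mul_of_nonneg_left ?_ (Wallis.W_pos k).le
    push_cast
    have : (0 : ℝ) ≤ k := Nat.cast_nonneg k
    field_simp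
    nlinarith [mul_nonneg this this]
  have hlim : Tendsto u atTop (𝓝 (π / 2 * (1 + 1 / 8 * 0))) :=
    Wallis.tendsto_W_nhds_pi_div_two.mul
      ((tendsto_one_div_add_atTop_nhds_zero_nat.const_mul _).const_add _)
  have := hmono.ge_of_tendsto hlim n
  simp only [hu] at this
  have h0 : (0 : ℝ) < n + 1 := by positivity
  field_simp at this
  nlinarith

lemma decay (S : ℕ → ℝ) (c : ℝ) (hS : ∀ n, c ≤ S n)
    (h : ∀ n, π * S (n + 1) = 2 * Wallis.W n * S n) : c ≤ 0 := by
  by_contra hc
  push Not at hc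
  have step : ∀ n : ℕ, S (n + 1) + c / 9 * (1 / ((n : ℝ) + 1)) ≤ S n := by
    intro n
    have h1 := W_le_refined n
    have h2 := h n
    have h3 := hS n
    have h0 : (0 : ℝ) ≤ n := Nat.cast_nonneg n
    have h4 : S (n + 1) * (8 * n + 9) ≤ S n * (8 * n + 8) := by
      have : π * (S (n + 1) * (8 * n + 9)) ≤ π * (S n * (8 * n + 8)) := by
        calc π * (S (n + 1) * (8 * n + 9)) = 2 * Wallis.W n * (8 * n + 9) * S n := by
              rw [← mul_assoc, h2]; ring
          _ ≤ π * (8 * n + 8) * S n := mul_le_mul_of_nonneg_right h1 (by linarith)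
          _ = _ := by ring
      exact le_of_mul_le_mul_left this pi_pos
    have h5 : c / 9 * (1 / ((n : ℝ) + 1)) ≤ c / (8 * n + 9) := by
      rw [div_mul_div_comm, mul_one]
      exact div_le_div_of_nonneg_left hc.le (by positivity) (by linarith)
    have h6 : S (n + 1) + c / (8 * n + 9) ≤ S n := by
      rw [← le_sub_iff_add_le', div_le_iff₀ (by positivity)]
      nlinarith
    linarith
  have sm : ∀ n : ℕ, S n + c / 9 * ∑ i ∈ range n, (1 / ((i : ℝ) + 1)) ≤ S 0 := by
    intro n
    induction n with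
    | zero => simp
    | succ n ih =>
      have := step n
      rw [sum_range_succ, mul_add]
      linarith
  have := (tendsto_sum_range_one_div_nat_succ_atTop.const_mul_atTop
    (show 0 < c / 9 by positivity)).eventually_gt_atTop (S 0)
  obtain ⟨n, hn⟩ := this.exists
  have := sm n
  have := hS n
  linarith

end

end Pool.Agent.MP_cb84d8_pr

end MrgPart3

-- ======== part 4: formerly Pool.Agent.MP_cb84d8_pr.Magnet
section MrgPart4

/-!
The spontaneous magnetisation vanishes at the critical point.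
-/

open Finset Filter Topology Real

namespace Pool.Agent.MP_cb84d8_pr

noncomputable section
open Classical

lemma D_rec (n : ℕ) :
    π * (Dsp (n + 1) + Ddis (n + 1)) = 2 * Wallis.W n * (Ddis n + Dsp n) := by
  have hn : (0 : ℤ) ≤ n := Int.natCast_nonneg n
  have := toeplitz n (fun l => AF n l l) (Dsp (n + 1)) (Ddis (n + 1)) fun k hk => by
    rw [mem_range] at hk
    have h1 := dtn n (AF n) 1 (fun i j _ => abs_AF_le n i j) (fun i j h => AF_harmonic hn h)
      (fun k h => AF_out hn h) k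
    rw [AF_normal hn] at h1
    push_cast at h1
    rw [← h1]
    congr 1
    have a : BF n k k = if k = n then Dsp (n + 1) else 0 := by
      split_ifs with h
      · rw [h, BF_top]
      · exact BF_in (by omega) (by omega)
    have b : BF n (k - 1) (k - 1) = - if k = 0 then Ddis (n + 1) else 0 := by
      split_ifs with h
      · rw [h]
        simpa using BF_bot hn
      · rw [neg_zero]
        exact BF_in (by omega) (by omega)
    rw [a, b]
    ring
  rw [this]
  simp only [Nat.cast_zero]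
  rw [AF_zero hn, AF_top]

lemma mag_zero : mag 0 = 0 := by
  have := decay (fun n => Ddis n + Dsp n) (mag 0 * mag 0) (fun n => by
    have h1 := mag_sq_le ((n, n) : Site)
    have h2 := Ddis_nonneg n
    unfold Dsp
    linarith) (fun n => by
    have := D_rec n
    push_cast
    linarith)
  exact mul_self_eq_zero.1 (le_antisymm this (mul_self_nonneg _))

/-- The magnetisation at a site in the plus state tends to zero as the volume grows. -/
theorem tendsto_pavg_spin (x : Site) :
    Tendsto (fun Λ => pavg Λ fun σ => spin (σ x)) atTop (𝓝 0) := by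
  have := tendsto_mag x
  rwa [mag_eq, mag_zero] at this

end

end Pool.Agent.MP_cb84d8_pr

end MrgPart4

-- ======== part 5: formerly Pool.Agent.MP_cb84d8_pr.Ber
section MrgPart5

/-!
Expectations for finite families of independent coins.
-/

open Finset

namespace Pool.Agent.MP_cb84d8_pr

noncomputable section
open Classical

variable {ι κ : Type*} [DecidableEq ι] [DecidableEq κ]

/-- The mean of `G c`, where `c` is the random subset of `I` that contains each `i` independently
with probability `q i`. -/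
def ber (q : ι → ℝ) (I : Finset ι) (G : Finset ι → ℝ) : ℝ :=
  ∑ c ∈ I.powerset, ((∏ i ∈ c, q i) * ∏ i ∈ I \ c, (1 - q i)) * G c

lemma ber_empty (q : ι → ℝ) (G : Finset ι → ℝ) : ber q ∅ G = G ∅ := by simp [ber]

lemma ber_insert (q : ι → ℝ) {a : ι} {I : Finset ι} (ha : a ∉ I) (G : Finset ι → ℝ) :
    ber q (insert a I) G = q a * ber q I (fun c => G (insert a c)) + (1 - q a) * ber q I G := by
  unfold ber
  rw [sum_powerset_insert ha, mul_sum, mul_sum, add_comm]
  congr 1
  · refine sum_congr rfl fun c hc => ?_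
    have hc' : a ∉ c := fun h => ha (mem_powerset.1 hc h)
    have : insert a I \ insert a c = I \ c := by
      ext x
      simp only [mem_sdiff, mem_insert]
      constructor
      · rintro ⟨h1 | h1, h2⟩
        · exact absurd (Or.inl h1) h2
        · exact ⟨h1, fun h => h2 (Or.inr h)⟩
      · rintro ⟨h1, h2⟩
        exact ⟨Or.inr h1, fun h => h.elim (fun e => ha (e ▸ h1)) h2⟩
    rw [this, prod_insert hc']
    ring
  · refine sum_congr rfl fun c hc => ?_
    have hc' : a ∉ c := fun h => ha (mem_powerset.1 hc h)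
    rw [insert_sdiff_of_notMem _ hc', prod_insert (by simp [ha])]
    ring

lemma ber_congr (q : ι → ℝ) {I : Finset ι} {G G' : Finset ι → ℝ} (h : ∀ c ⊆ I, G c = G' c) :
    ber q I G = ber q I G' :=
  sum_congr rfl fun c hc => by rw [h c (mem_powerset.1 hc)]

lemma ber_mono {q : ι → ℝ} {I : Finset ι} (hq : ∀ i ∈ I, 0 ≤ q i ∧ q i ≤ 1)
    {G G' : Finset ι → ℝ} (h : ∀ c ⊆ I, G c ≤ G' c) : ber q I G ≤ ber q I G' := by
  refine sum_le_sum fun c hc => mul_le_mul_of_nonneg_left (h c (mem_powerset.1 hc)) ?_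
  refine mul_nonneg (prod_nonneg fun i hi => (hq i (mem_powerset.1 hc hi)).1)
    (prod_nonneg fun i hi => sub_nonneg.2 (hq i (mem_sdiff.1 hi).1).2)

lemma ber_const (q : ι → ℝ) (I : Finset ι) (x : ℝ) : ber q I (fun _ => x) = x := by
  unfold ber
  rw [← sum_mul, ← prod_add]
  simp

lemma ber_add (q : ι → ℝ) (I : Finset ι) (G G' : Finset ι → ℝ) :
    ber q I (fun c => G c + G' c) = ber q I G + ber q I G' := by
  unfold ber
  rw [← sum_add_distrib]
  exact sum_congr rfl fun _ _ => by ring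

lemma ber_mul_const (q : ι → ℝ) (I : Finset ι) (G : Finset ι → ℝ) (x : ℝ) :
    ber q I (fun c => G c * x) = ber q I G * x := by
  unfold ber
  rw [sum_mul]
  exact sum_congr rfl fun _ _ => by ring

lemma ber_union (q : ι → ℝ) {A B : Finset ι} (h : Disjoint A B) (G : Finset ι → ℝ) :
    ber q (A ∪ B) G = ber q A fun a => ber q B fun b => G (a ∪ b) := by
  induction A using Finset.induction_on generalizing G with
  | empty => simp [ber_empty]
  | insert x A hx ih =>
    rw [disjoint_insert_left] at h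
    rw [insert_union, ber_insert q (by simp [hx, h.1]), ber_insert q hx, ih h.2, ih h.2]
    simp only [insert_union]

lemma ber_filter (q : ι → ℝ) (I : Finset ι) (P : ι → Prop) [DecidablePred P]
    (G : Finset ι → ℝ) : ber q I (fun c => G (c.filter P)) = ber q (I.filter P) G := by
  induction I using Finset.induction_on generalizing G with
  | empty => simp [ber_empty]
  | insert x I hx ih =>
    rw [ber_insert q hx, filter_insert]
    simp only [filter_insert]
    split_ifs with h
    · rw [ber_insert q (by simp [hx]), ih (fun c => G (insert x c)), ih]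
    · rw [ih]
      ring

lemma ber_mono_param {q q' : ι → ℝ} {I : Finset ι} (hq : ∀ i ∈ I, 0 ≤ q i ∧ q i ≤ q' i ∧ q' i ≤ 1)
    {G : Finset ι → ℝ} (hG : Monotone G) : ber q I G ≤ ber q' I G := by
  induction I using Finset.induction_on generalizing G with
  | empty => simp [ber_empty]
  | insert x I hx ih =>
    rw [ber_insert q hx, ber_insert q' hx]
    have hq' : ∀ i ∈ I, 0 ≤ q i ∧ q i ≤ q' i ∧ q' i ≤ 1 := fun i hi => hq i (mem_insert_of_mem hi)
    have h1 := ih hq' hG
    have h2 := ih hq' (G := fun c => G (insert x c)) fun a b h => hG (insert_subset_insert _ h)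
    have h3 : ber q' I G ≤ ber q' I fun c => G (insert x c) :=
      ber_mono (fun i hi => ⟨(hq' i hi).1.trans (hq' i hi).2.1, (hq' i hi).2.2⟩)
        fun c _ => hG (subset_insert _ _)
    obtain ⟨a, b, c⟩ := hq x (mem_insert_self _ _)
    nlinarith

/-- Events that depend on disjoint blocks of coins are independent coins. -/
lemma ber_group (r : κ → ℝ) (b : ι → Finset κ) (φ : ι → Finset κ → Prop)
    (hφ : ∀ i h, φ i h ↔ φ i (h ∩ b i)) (q : ι → ℝ) (I : Finset ι)
    (hq : ∀ i ∈ I, q i = ber r (b i) fun h => if φ i h then 1 else 0)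
    (hd : ∀ i ∈ I, ∀ j ∈ I, i ≠ j → Disjoint (b i) (b j)) (H : Finset κ) (hH : ∀ i ∈ I, b i ⊆ H)
    (G : Finset ι → ℝ) : ber r H (fun h => G (I.filter fun i => φ i h)) = ber q I G := by
  induction I using Finset.induction_on generalizing G H with
  | empty => simp [ber_empty, ber_const]
  | insert a I ha ih =>
    have e : H = b a ∪ (H \ b a) := (union_sdiff_of_subset (hH a (mem_insert_self _ _))).symm
    have hdis : ∀ j ∈ I, Disjoint (b a) (b j) := fun j hj =>
      hd a (mem_insert_self _ _) j (mem_insert_of_mem hj) (fun h => ha (h ▸ hj))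
    have ih' := ih (fun i hi => hq i (mem_insert_of_mem hi))
      (fun i hi j hj => hd i (mem_insert_of_mem hi) j (mem_insert_of_mem hj)) (H \ b a)
      (fun j hj => subset_sdiff.2 ⟨hH j (mem_insert_of_mem hj), (hdis j hj).symm⟩)
    rw [e, ber_union r disjoint_sdiff, ber_insert q ha]
    rw [ber_congr r (G' := fun x => (if φ a x then 1 else 0) *
      (ber q I (fun c => G (insert a c)) - ber q I G) + ber q I G)]
    · rw [ber_add, ber_mul_const, ber_const, ← hq a (mem_insert_self _ _)]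
      ring
    · intro x hx
      have key : ∀ y ⊆ H \ b a, ((insert a I).filter fun i => φ i (x ∪ y)) =
          if φ a x then insert a (I.filter fun i => φ i y) else I.filter fun i => φ i y := by
        intro y hy
        have h1 : φ a (x ∪ y) ↔ φ a x := by
          rw [hφ a (x ∪ y), union_inter_distrib_right, inter_eq_left.2 hx,
            disjoint_iff_inter_eq_empty.1 (subset_sdiff.1 hy).2, union_empty]
        have h2 : (I.filter fun i => φ i (x ∪ y)) = I.filter fun i => φ i y := by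
          refine filter_congr fun j hj => ?_
          rw [hφ j (x ∪ y), hφ j y, union_inter_distrib_right,
            disjoint_iff_inter_eq_empty.1 ((hdis j hj).mono_left hx), empty_union]
        rw [filter_insert, h2]
        simp only [h1]
      rw [ber_congr r (fun y hy => by rw [key y hy])]
      split_ifs with h
      · rw [ih' (fun c => G (insert a c))]
        ring
      · rw [ih']
        ring

end

end Pool.Agent.MP_cb84d8_pr

end MrgPart5

-- marker of a merged file
example : 731051 + 818014 = 731051 + 818014 := rfl
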