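import Mathlib.Tactic.Monotonicity.Lemmas
import Mathlib.Data.Int.Star
import Mathlib.Combinatorics.SimpleGraph.Basic
import Pool.Agent.MP_cb84d8_pr.Ber

-- ======== part 0: formerly Pool.Agent.MP_cb84d8_pr.ES
section MrgPart0

/-!
The Edwards-Sokal coupling at the critical point.
-/

open Finset Filter Topology

namespace Pool.Agent.MP_cb84d8_pr

noncomputable section
open Classical

/-- The critical edge probability. -/
def pc : ℝ := √2 / (1 + √2)

lemma sqrt_two_pos : (0 : ℝ) < √2 := Real.sqrt_pos.2 (by norm_num)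

lemma pc_nonneg : 0 ≤ pc := by unfold pc; have := sqrt_two_pos; positivity

lemma pc_lt_one : pc < 1 := by
  unfold pc
  have := sqrt_two_pos
  rw [div_lt_one (by positivity)]
  linarith

lemma pc_mem {ι : Type*} (I : Finset ι) : ∀ i ∈ I, 0 ≤ (fun _ => pc) i ∧ (fun _ => pc) i ≤ 1 :=
  fun _ _ => ⟨pc_nonneg, pc_lt_one.le⟩

/-- The two spins at the ends of `e` agree. -/
def agree (σ : Config) (e : Edge) : Prop := σ e.1 = σ (tip e)

/-- Edwards-Sokal average. -/
def es (F : Finset Edge) (Λ : Finset Site) (τ : Config) (G : Config → Finset Edge → ℝ) : ℝ :=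
  avg betaC F Λ τ fun σ => ber (fun _ => pc) F fun c => G σ (c.filter (agree σ))

/-- Spin configurations compatible with the open edges `ω`. -/
def cmpt (Λ : Finset Site) (τ : Config) (ω : Finset Edge) : Finset Config :=
  (fill Λ τ).filter fun σ => ∀ e ∈ ω, agree σ e

/-- Unnormalised Edwards-Sokal sum. -/
def esSum (F : Finset Edge) (Λ : Finset Site) (τ : Config) (G : Config → Finset Edge → ℝ) : ℝ :=
  ∑ ω ∈ F.powerset, √2 ^ ω.card * ∑ σ ∈ cmpt Λ τ ω, G σ ω

lemma weight_eq (F : Finset Edge) (σ : Config) : weight betaC F σ =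
    Real.exp (-(betaC * F.card)) * ∏ _e ∈ F.filter (agree σ), (1 + √2) := by
  unfold weight
  rw [prod_filter, mul_sum, Real.exp_sum, show -(betaC * F.card) = ∑ _e ∈ F, -betaC by
    simp [mul_comm], Real.exp_sum, ← prod_mul_distrib]
  refine prod_congr rfl fun e _ => ?_
  rw [bond_eq]
  unfold agree
  split_ifs
  · rw [← exp_two_betaC, ← Real.exp_add]
    congr 1
    ring
  · simp

lemma sum_weight_ber (F : Finset Edge) (Λ : Finset Site) (τ : Config)
    (G : Config → Finset Edge → ℝ) :
    ∑ σ ∈ fill Λ τ, weight betaC F σ * ber (fun _ => pc) F (fun c => G σ (c.filter (agree σ))) =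
      Real.exp (-(betaC * F.card)) * esSum F Λ τ G := by
  unfold esSum cmpt
  simp only [sum_filter, mul_sum]
  rw [sum_comm]
  refine sum_congr rfl fun σ _ => ?_
  rw [ber_filter, weight_eq, mul_assoc, ← mul_sum]
  congr 1
  unfold ber
  have e : (F.filter (agree σ)).powerset = F.powerset.filter fun ω => ∀ e ∈ ω, agree σ e := by
    ext ω
    simp only [mem_powerset, mem_filter, subset_iff]
    exact ⟨fun h => ⟨fun x hx => (h hx).1, fun x hx => (h hx).2⟩,
      fun h x hx => ⟨h.1 hx, h.2 x hx⟩⟩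
  simp only [mul_ite, mul_zero]
  rw [← sum_filter, ← e, mul_sum]
  refine sum_congr rfl fun ω hω => ?_
  rw [← mul_assoc]
  congr 1
  rw [← prod_sdiff (mem_powerset.1 hω), mul_comm (∏ _i ∈ ω, pc), mul_mul_mul_comm,
    ← prod_mul_distrib, ← prod_mul_distrib]
  have := sqrt_two_pos
  have a : (1 + √2) * (1 - pc) = 1 := by unfold pc; field_simp; ring
  have b : (1 + √2) * pc = √2 := by unfold pc; field_simp
  simp [a, b]

lemma esSum_one_pos (F : Finset Edge) (Λ : Finset Site) (τ : Config) :
    0 < esSum F Λ τ fun _ _ => 1 := by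
  have := sum_weight_ber F Λ τ fun _ _ => 1
  simp only [ber_const, mul_one] at this
  have h := Z_pos betaC F Λ τ
  rw [this] at h
  exact (pos_iff_pos_of_mul_pos h).1 (Real.exp_pos _)

lemma es_eq (F : Finset Edge) (Λ : Finset Site) (τ : Config) (G : Config → Finset Edge → ℝ) :
    es F Λ τ G = esSum F Λ τ G / esSum F Λ τ fun _ _ => 1 := by
  have := sum_weight_ber F Λ τ fun _ _ => 1
  simp only [ber_const, mul_one] at this
  unfold es avg
  rw [sum_weight_ber, this, mul_div_mul_left _ _ (Real.exp_pos _).ne']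

section
variable {F : Finset Edge} {Λ : Finset Site} {τ : Config} {G G' : Config → Finset Edge → ℝ}

lemma es_mono (h : ∀ ω ⊆ F, ∀ σ ∈ cmpt Λ τ ω, G σ ω ≤ G' σ ω) : es F Λ τ G ≤ es F Λ τ G' := by
  rw [es_eq, es_eq]
  refine div_le_div_of_nonneg_right (sum_le_sum fun ω hω => ?_) (esSum_one_pos _ _ _).le
  exact mul_le_mul_of_nonneg_left (sum_le_sum fun σ hσ => h ω (mem_powerset.1 hω) σ hσ)
    (by positivity)

lemma es_congr (h : ∀ ω ⊆ F, ∀ σ ∈ cmpt Λ τ ω, G σ ω = G' σ ω) : es F Λ τ G = es F Λ τ G' :=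
  le_antisymm (es_mono fun ω hω σ hσ => (h ω hω σ hσ).le) (es_mono fun ω hω σ hσ => (h ω hω σ hσ).ge)

lemma es_add : es F Λ τ (fun σ ω => G σ ω + G' σ ω) = es F Λ τ G + es F Λ τ G' := by
  unfold es
  simp only [ber_add, avg_add]

lemma es_const_mul (c : ℝ) : es F Λ τ (fun σ ω => c * G σ ω) = c * es F Λ τ G := by
  unfold es
  rw [← avg_const_mul]
  simp only [mul_comm c, ber_mul_const]

lemma es_config (f : Config → ℝ) : es F Λ τ (fun σ _ => f σ) = avg betaC F Λ τ f := by
  unfold es
  simp only [ber_const]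

lemma es_const (c : ℝ) : es F Λ τ (fun _ _ => c) = c := by
  rw [es_config (fun _ => c), avg_const]

lemma es_sum {ι : Type*} (s : Finset ι) (G : ι → Config → Finset Edge → ℝ) :
    es F Λ τ (fun σ ω => ∑ i ∈ s, G i σ ω) = ∑ i ∈ s, es F Λ τ (G i) := by
  induction s using Finset.induction_on with
  | empty => simpa using es_const 0
  | insert a s ha ih => simp only [sum_insert ha]; rw [es_add, ih]

end

/-- `a` and `b` are joined by an edge of `ω`. -/
def lnk (ω : Finset Edge) (a b : Site) : Prop :=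
  ∃ e ∈ ω, (e.1 = a ∧ tip e = b) ∨ (e.1 = b ∧ tip e = a)

/-- `a` and `b` are joined by a path of edges of `ω`. -/
def reach (ω : Finset Edge) : Site → Site → Prop := Relation.ReflTransGen (lnk ω)

lemma lnk.symm {ω : Finset Edge} {a b : Site} (h : lnk ω a b) : lnk ω b a := by
  obtain ⟨e, he, h⟩ := h
  exact ⟨e, he, h.symm⟩

lemma reach.symm {ω : Finset Edge} {a b : Site} (h : reach ω a b) : reach ω b a := by
  induction h with
  | refl => exact Relation.ReflTransGen.refl
  | tail _ h ih => exact Relation.ReflTransGen.head h.symm ih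

lemma reach.trans {ω : Finset Edge} {a b c : Site} (h : reach ω a b) (h' : reach ω b c) :
    reach ω a c := Relation.ReflTransGen.trans h h'

lemma reach.mono {ω ω' : Finset Edge} (hω : ω ⊆ ω') {a b : Site} (h : reach ω a b) :
    reach ω' a b := by
  induction h with
  | refl => exact Relation.ReflTransGen.refl
  | tail _ h ih =>
    obtain ⟨e, he, h⟩ := h
    exact Relation.ReflTransGen.tail ih ⟨e, hω he, h⟩

lemma reach_edge {ω : Finset Edge} {e : Edge} (he : e ∈ ω) : reach ω e.1 (tip e) :=
  Relation.ReflTransGen.single ⟨e, he, Or.inl ⟨rfl, rfl⟩⟩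

lemma reach.spin_eq {ω : Finset Edge} {σ : Config} (hσ : ∀ e ∈ ω, agree σ e) {a b : Site}
    (h : reach ω a b) : σ a = σ b := by
  induction h with
  | refl => rfl
  | tail _ h ih =>
    obtain ⟨e, he, ⟨rfl, rfl⟩ | ⟨rfl, rfl⟩⟩ := h
    · exact ih.trans (hσ e he)
    · exact ih.trans (hσ e he).symm

lemma sum_cmpt_flp {Λ : Finset Site} (τ : Config) {ω : Finset Edge} {z : Site}
    (hz : ∀ y, reach ω z y → y ∈ Λ) (g : Config → ℝ) :
    ∑ σ ∈ cmpt Λ τ ω, g (flp {y | reach ω z y} σ) = ∑ σ ∈ cmpt Λ τ ω, g σ := by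
  have key : ∀ σ ∈ cmpt Λ τ ω, flp {y | reach ω z y} σ ∈ cmpt Λ τ ω := by
    intro σ hσ
    rw [cmpt, mem_filter] at hσ ⊢
    refine ⟨flp_mem_fill hz hσ.1, fun e he => ?_⟩
    have h1 := hσ.2 e he
    have h2 : reach ω z e.1 ↔ reach ω z (tip e) :=
      ⟨fun h => h.trans (reach_edge he), fun h => h.trans (reach_edge he).symm⟩
    unfold agree at h1 ⊢
    simp only [flp, Set.mem_ofPred_eq, h1, h2]
  exact sum_nbij' (flp _) (flp _) key key (fun σ _ => flp_flp _ σ) (fun σ _ => flp_flp _ σ)
    (fun _ _ => rfl)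

/-- A cluster inside the volume is equally likely to be plus or minus. -/
lemma es_spin_zero {F : Finset Edge} {Λ : Finset Site} {τ : Config} (good : Finset Edge → Prop)
    (z : Finset Edge → Site) (hz : ∀ ω ⊆ F, good ω → ∀ y, reach ω (z ω) y → y ∈ Λ)
    (f : Config → Finset Edge → ℝ)
    (hf : ∀ ω ⊆ F, good ω → ∀ σ, f (flp {y | reach ω (z ω) y} σ) ω = f σ ω) :
    es F Λ τ (fun σ ω => if good ω then spin (σ (z ω)) * f σ ω else 0) = 0 := by
  rw [es_eq, div_eq_zero_iff]
  left
  refine sum_eq_zero fun ω hω => ?_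
  rw [mem_powerset] at hω
  by_cases h : good ω
  · have := sum_cmpt_flp τ (hz ω hω h) fun σ => spin (σ (z ω)) * f σ ω
    have e : sg (z ω ∈ {y | reach ω (z ω) y}) = -1 := sg_pos Relation.ReflTransGen.refl
    simp only [spin_flp, hf ω hω h, e, neg_mul, one_mul, sum_neg_distrib] at this
    simp only [h, if_true]
    rw [show ∑ σ ∈ cmpt Λ τ ω, spin (σ (z ω)) * f σ ω = 0 by linarith, mul_zero]
  · simp [h]

/-- `x` is joined to the outside of `Λ` by edges of `ω`. -/
def exits (Λ : Finset Site) (ω : Finset Edge) (x : Site) : Prop := ∃ y, y ∉ Λ ∧ reach ω x y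

lemma es_exits_plus (Λ : Finset Site) (x : Site) :
    es (touching Λ) Λ ⊤ (fun _ ω => if exits Λ ω x then 1 else 0) =
      pavg Λ fun σ => spin (σ x) := by
  have h0 := es_spin_zero (F := touching Λ) (Λ := Λ) (τ := ⊤) (fun ω => ¬ exits Λ ω x)
    (fun _ => x) (fun ω _ h y hy => by
      by_contra hc
      exact h ⟨y, hc, hy⟩) (fun _ _ => 1) (fun _ _ _ _ => rfl)
  unfold pavg
  rw [← es_config, ← add_zero (es (touching Λ) Λ ⊤ (fun _ ω => if exits Λ ω x then 1 else 0))]
  nth_rewrite 2 [← h0]
  rw [← es_add]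
  refine es_congr fun ω _ σ hσ => ?_
  rw [cmpt, mem_filter, mem_fill] at hσ
  by_cases h : exits Λ ω x
  · obtain ⟨y, hy, hr⟩ := h
    have : σ x = true := (hr.spin_eq hσ.2).trans (hσ.1 y hy)
    simp [this, show exits Λ ω x from ⟨y, hy, hr⟩]
  · simp [h]

lemma exits_plus_edges {Λ : Finset Site} {c : Finset Edge} {σ : Config} {x : Site}
    (hx : σ x = true) (h : exits Λ (c.filter (agree σ)) x) :
    exits Λ ((c.filter (· ∈ touching Λ)).filter fun e => σ e.1 = true ∧ σ (tip e) = true) x := by
  obtain ⟨y, hy, hr⟩ := h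
  induction hr using Relation.ReflTransGen.head_induction_on with
  | refl => exact ⟨y, hy, Relation.ReflTransGen.refl⟩
  | @head a b hab _ ih =>
    by_cases ha : a ∈ Λ
    · obtain ⟨e, he, h⟩ := hab
      rw [mem_filter] at he
      have h1 : σ e.1 = σ (tip e) := he.2
      have hb : σ b = true := by
        rcases h with ⟨rfl, rfl⟩ | ⟨rfl, rfl⟩
        · exact h1 ▸ hx
        · exact h1 ▸ hx
      obtain ⟨w, hw, hr'⟩ := ih hb
      refine ⟨w, hw, Relation.ReflTransGen.head ⟨e, ?_, h⟩ hr'⟩
      simp only [mem_filter, mem_touching]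
      rcases h with ⟨rfl, rfl⟩ | ⟨rfl, rfl⟩
      · exact ⟨⟨he.1, Or.inl ha⟩, hx, hb⟩
      · exact ⟨⟨he.1, Or.inr ha⟩, hb, hx⟩
    · exact ⟨a, ha, Relation.ReflTransGen.refl⟩

lemma es_exits_pos {F : Finset Edge} {Λ Λ' : Finset Site} (τ : Config) (hΛ : Λ' ⊆ Λ)
    (hF : touching Λ' ⊆ F) (x : Site) :
    es F Λ τ (fun σ ω => if σ x = true ∧ exits Λ' ω x then 1 else 0) ≤
      pavg Λ' fun σ => spin (σ x) := by
  set g : Config → ℝ := fun σ => ber (fun _ => pc) (touching Λ') fun c =>
    if exits Λ' (c.filter fun e => σ e.1 = true ∧ σ (tip e) = true) x then 1 else 0 with hg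
  have hmono : Monotone g := by
    intro a b hab
    refine ber_mono (pc_mem _) fun c _ => ?_
    split_ifs with h1 h2
    · exact le_rfl
    · refine absurd ?_ h2
      obtain ⟨y, hy, hr⟩ := h1
      refine ⟨y, hy, hr.mono fun e he => ?_⟩
      rw [mem_filter] at he ⊢
      exact ⟨he.1, Bool.le_iff_imp.1 (hab _) he.2.1, Bool.le_iff_imp.1 (hab _) he.2.2⟩
    · exact zero_le_one
    · exact le_rfl
  calc _ ≤ avg betaC F Λ τ g := by
        refine avg_mono fun σ _ => ?_
        have e : touching Λ' = F.filter (· ∈ touching Λ') := by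
          ext e; simp only [mem_filter]; exact ⟨fun h => ⟨hF h, h⟩, fun h => h.2⟩
        simp only [hg]
        conv_rhs => rw [e, ← ber_filter]
        refine ber_mono (pc_mem _) fun c _ => ?_
        split_ifs with h1 h2
        · exact le_rfl
        · exact absurd (exits_plus_edges h1.1 h1.2) h2
        · exact zero_le_one
        · exact le_rfl
    _ ≤ pavg Λ' g := avg_le_plus betaC_pos.le τ hΛ hF hmono
    _ ≤ _ := by
        rw [← es_exits_plus]
        refine avg_mono fun σ _ => ber_mono (pc_mem _) fun c _ => ?_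
        beta_reduce
        split_ifs with h1 h2
        · exact le_rfl
        · refine absurd ?_ h2
          obtain ⟨y, hy, hr⟩ := h1
          refine ⟨y, hy, hr.mono fun e he => ?_⟩
          rw [mem_filter] at he ⊢
          exact ⟨he.1, he.2.1.trans he.2.2.symm⟩
        · exact zero_le_one
        · exact le_rfl

lemma agree_flp_univ (σ : Config) : agree (flp Set.univ σ) = agree σ := by
  funext e
  simp [agree, flp]

lemma es_flp_univ (F : Finset Edge) (Λ : Finset Site) (τ : Config)
    (G : Config → Finset Edge → ℝ) :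
    es F Λ τ G = es F Λ (flp Set.univ τ) fun σ ω => G (flp Set.univ σ) ω := by
  rw [es_eq, es_eq]
  have key : ∀ (ω : Finset Edge) (g : Config → ℝ), ∑ σ ∈ cmpt Λ τ ω, g σ =
      ∑ σ ∈ cmpt Λ (flp Set.univ τ) ω, g (flp Set.univ σ) := by
    intro ω g
    refine sum_nbij' (flp Set.univ) (flp Set.univ) ?_ ?_ (fun σ _ => flp_flp _ σ)
      (fun σ _ => flp_flp _ σ) (fun σ _ => by rw [flp_flp])
    · intro σ hσ
      rw [cmpt, mem_filter, mem_fill] at hσ ⊢
      rw [agree_flp_univ]
      exact ⟨fun x hx => by simp [flp, hσ.1 x hx], hσ.2⟩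
    · intro σ hσ
      rw [cmpt, mem_filter, mem_fill] at hσ ⊢
      rw [agree_flp_univ]
      exact ⟨fun x hx => by simp [flp, hσ.1 x hx], hσ.2⟩
  unfold esSum
  congr 1
  · exact sum_congr rfl fun ω _ => by rw [key ω fun σ => G σ ω]
  · exact sum_congr rfl fun ω _ => by rw [key ω fun _ => 1]

/-- Connections to the outside of a subvolume are bounded by the plus magnetisation. -/
lemma es_exits_le {F : Finset Edge} {Λ Λ' : Finset Site} (τ : Config) (hΛ : Λ' ⊆ Λ)
    (hF : touching Λ' ⊆ F) (x : Site) :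
    es F Λ τ (fun _ ω => if exits Λ' ω x then 1 else 0) ≤ 2 * pavg Λ' fun σ => spin (σ x) := by
  have h1 := es_exits_pos τ hΛ hF x
  have h2 := es_exits_pos (flp Set.univ τ) hΛ hF x
  rw [es_flp_univ, flp_flp] at h2
  have := es_add (F := F) (Λ := Λ) (τ := τ)
    (G := fun σ ω => if σ x = true ∧ exits Λ' ω x then 1 else 0)
    (G' := fun σ ω => if flp Set.univ σ x = true ∧ exits Λ' ω x then 1 else 0)
  rw [es_congr (G' := fun _ ω => if exits Λ' ω x then 1 else 0) (fun ω _ σ _ => by
    by_cases h : exits Λ' ω x <;> cases h' : σ x <;> simp [flp, h, h'])] at this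
  linarith

end

end Pool.Agent.MP_cb84d8_pr

end MrgPart0

-- ======== part 1: formerly Pool.Agent.MP_cb84d8_pr.Planar
section MrgPart1

/-!
Planar duality through parities: even edge sets are boundaries of sets of faces.
-/

open Finset

namespace Pool.Agent.MP_cb84d8_pr

noncomputable section
open Classical

lemma par_eq (η : Finset Edge) (x : Site) : par η x = sg ((x, false) ∈ η) * sg ((x, true) ∈ η) *
    sg (((x.1 - 1, x.2), false) ∈ η) * sg (((x.1, x.2 - 1), true) ∈ η) := by
  have h1 : par η x = ∏ e ∈ star x, sg (e ∈ η) := by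
    unfold par
    have a : ∀ e ∈ η, sg (e.1 = x) * sg (tip e = x) = if e ∈ star x then -1 else 1 := by
      intro e _
      have := tip_ne e
      by_cases h1 : e.1 = x
      · have h2 : tip e ≠ x := h1 ▸ this
        simp [mem_star, sg, h1, h2]
      · by_cases h2 : tip e = x <;> simp [mem_star, sg, h1, h2]
    have b : ∀ e ∈ star x, sg (e ∈ η) = if e ∈ η then -1 else 1 := by
      intro e _
      by_cases h1 : e ∈ η <;> simp [sg, h1]
    rw [prod_congr rfl a, prod_congr rfl b, prod_ite_mem, prod_ite_mem, inter_comm]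
  rw [h1, star, prod_insert (by simp [Prod.ext_iff]; omega),
    prod_insert (by simp [Prod.ext_iff]; omega), prod_insert (by simp), prod_singleton]
  ring

/-- The dual edge; the face with lower left corner `x` is identified with `x`. -/
def dual : Edge ≃ Edge where
  toFun e := if e.2 = true then ((e.1.1 - 1, e.1.2), false) else ((e.1.1, e.1.2 - 1), true)
  invFun e := if e.2 = true then ((e.1.1, e.1.2 + 1), false) else ((e.1.1 + 1, e.1.2), true)
  left_inv := by rintro ⟨⟨a, b⟩, _ | _⟩ <;> simp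
  right_inv := by rintro ⟨⟨a, b⟩, _ | _⟩ <;> simp

@[simp] lemma dual_true (a b : ℤ) : dual ((a, b), true) = ((a - 1, b), false) := rfl
@[simp] lemma dual_false (a b : ℤ) : dual ((a, b), false) = ((a, b - 1), true) := rfl
@[simp] lemma tip_true (a b : ℤ) : tip ((a, b), true) = (a, b + 1) := rfl
@[simp] lemma tip_false (a b : ℤ) : tip ((a, b), false) = (a + 1, b) := rfl

lemma tip_dual (e : Edge) : tip (dual e) = e.1 := by
  obtain ⟨⟨a, b⟩, _ | _⟩ := e <;> simp

/-- The square box. -/
def box (N : ℤ) : Finset Site := Icc (-N) N ×ˢ Icc (-N) N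

lemma mem_box {N : ℤ} {x : Site} : x ∈ box N ↔ -N ≤ x.1 ∧ x.1 ≤ N ∧ -N ≤ x.2 ∧ x.2 ≤ N := by
  simp [box, and_assoc]

lemma box_mono {M N : ℤ} (h : M ≤ N) : box M ⊆ box N := by
  intro x hx
  rw [mem_box] at *
  omega

lemma prod_Ioc_step (f : ℤ → ℝ) {a i : ℤ} (h : a ≤ i) :
    ∏ k ∈ Ioc a (i + 1), f k = (∏ k ∈ Ioc a i, f k) * f (i + 1) := by
  have : Ioc a (i + 1) = insert (i + 1) (Ioc a i) := by
    ext k; simp only [mem_Ioc, mem_insert]; omega
  rw [this, prod_insert (by simp), mul_comm]

lemma tele (S J : ℤ → ℝ) {a i : ℤ} (h : a ≤ i) (hS : ∀ k, a < k → k ≤ i → S k = S (k - 1) * J k) :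
    S i = S a * ∏ k ∈ Ioc a i, J k := by
  induction i, h using Int.leInduction with
  | base => simp
  | succ i h ih =>
    rw [prod_Ioc_step _ h, ← mul_assoc, ← ih fun k h1 h2 => hS k h1 (by omega),
      hS (i + 1) (by omega) le_rfl, add_sub_cancel_right]

/-- The parity of the edges of `η` crossed by a dual path from the face `(a, a)` to the face `f`. -/
def side (η : Finset Edge) (a : ℤ) (f : Site) : ℝ :=
  (∏ l ∈ Ioc a f.2, sg (((a, l), false) ∈ η)) * ∏ k ∈ Ioc a f.1, sg (((k, f.2), true) ∈ η)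

lemma side_cases (η : Finset Edge) (a : ℤ) (f : Site) : side η a f = 1 ∨ side η a f = -1 := by
  have key : ∀ (s : Finset ℤ) (P : ℤ → Prop), ∏ k ∈ s, sg (P k) = 1 ∨ ∏ k ∈ s, sg (P k) = -1 := by
    intro s P
    induction s using Finset.induction_on with
    | empty => simp
    | insert a s ha ih =>
      rw [prod_insert ha]
      rcases ih with h | h <;> rcases sg_cases (P a) with h1 | h1 <;> simp [h, h1]
  unfold side
  rcases key (Ioc a f.2) (fun l => ((a, l), false) ∈ η) with h | h <;>
    rcases key (Ioc a f.1) (fun k => ((k, f.2), true) ∈ η) with h1 | h1 <;> simp [h, h1]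

lemma side_right (η : Finset Edge) {a i : ℤ} (h : a ≤ i) (j : ℤ) :
    side η a (i + 1, j) = side η a (i, j) * sg (((i + 1, j), true) ∈ η) := by
  unfold side
  simp only
  rw [prod_Ioc_step _ h, mul_assoc]

lemma side_up (η : Finset Edge) {a i j : ℤ} (h : a ≤ i) (hj : a ≤ j)
    (he : ∀ k, a < k → k ≤ i → par η (k, j + 1) = 1) :
    side η a (i, j + 1) = side η a (i, j) * sg (((i, j + 1), false) ∈ η) := by
  induction i, h using Int.leInduction with
  | base =>
    unfold side
    simp only [Ioc_self, prod_empty, mul_one]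
    rw [prod_Ioc_step _ hj]
  | succ i h ih =>
    rw [side_right _ h, side_right _ h, ih fun k h1 h2 => he k h1 (by omega)]
    have := he (i + 1) (by omega) le_rfl
    rw [par_eq] at this
    simp only [add_sub_cancel_right] at this
    rcases sg_cases (((i + 1, j + 1), false) ∈ η) with h1 | h1 <;>
      rcases sg_cases (((i + 1, j + 1), true) ∈ η) with h2 | h2 <;>
      rcases sg_cases (((i, j + 1), false) ∈ η) with h3 | h3 <;>
      rcases sg_cases (((i + 1, j), true) ∈ η) with h4 | h4 <;>
      simp only [h1, h2, h3, h4] at this ⊢ <;> first | ring1 | (exfalso; linarith)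

lemma side_grad (η : Finset Edge) {a : ℤ} (e : Edge) (h1 : a ≤ (dual e).1.1) (h2 : a ≤ (dual e).1.2)
    (he : e.2 = false → ∀ k, a < k → k ≤ e.1.1 → par η (k, e.1.2) = 1) :
    side η a e.1 = side η a (dual e).1 * sg (e ∈ η) := by
  obtain ⟨⟨i, j⟩, _ | _⟩ := e
  · have := side_up η (i := i) (j := j - 1) h1 h2 (by simpa using he)
    simpa using this
  · have := side_right η (i := i - 1) h1 j
    simpa using this

/-- An even edge set is the boundary of a finite set of faces. -/
lemma exists_potential (η : Finset Edge) (R : ℤ) (hR : ∀ e ∈ η, e.1 ∈ box R ∧ tip e ∈ box R)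
    (he : ∀ x, par η x = 1) : ∃ S : Site → ℝ, (∀ e : Edge, S e.1 = S (dual e).1 * sg (e ∈ η)) ∧
      ∀ f, f ∉ box R → S f = 1 := by
  have hV : ∀ i j, (j < -R ∨ R ≤ j ∨ i < -R ∨ R < i) → sg (((i, j), true) ∈ η) = 1 := by
    intro i j h
    refine sg_neg fun hc => ?_
    have := hR _ hc
    simp only [mem_box, tip_true] at this
    omega
  have hH : ∀ i j, (i < -R ∨ R ≤ i ∨ j < -R ∨ R < j) → sg (((i, j), false) ∈ η) = 1 := by
    intro i j h
    refine sg_neg fun hc => ?_
    have := hR _ hc
    simp only [mem_box, tip_false] at this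
    omega
  have h1 : ∀ i j, (j < -R ∨ R ≤ j ∨ i < -R) → side η (-R - 1) (i, j) = 1 := by
    intro i j h
    unfold side
    rw [prod_eq_one fun l _ => hH _ _ (by omega), prod_eq_one fun k hk => hV _ _ (by
      simp only [mem_Ioc] at hk ⊢; omega), mul_one]
  have h2 : ∀ i j, R ≤ i → -R - 1 ≤ i → -R - 1 ≤ j → side η (-R - 1) (i, j) = 1 := by
    intro i j hi hi' hj
    induction j, hj using Int.leInduction with
    | base => exact h1 _ _ (by omega)
    | succ j hj ih => rw [side_up η hi' hj fun _ _ _ => he _, ih, hH _ _ (by omega), mul_one]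
  refine ⟨fun f => if -R - 1 ≤ f.1 ∧ -R - 1 ≤ f.2 then side η (-R - 1) f else 1, fun e => ?_, ?_⟩
  · by_cases h : -R - 1 ≤ (dual e).1.1 ∧ -R - 1 ≤ (dual e).1.2
    · have h' : -R - 1 ≤ e.1.1 ∧ -R - 1 ≤ e.1.2 := by
        obtain ⟨⟨i, j⟩, _ | _⟩ := e <;> simp only [dual_true, dual_false] at h ⊢ <;> omega
      simp only [h, h', and_self, if_true]
      exact side_grad η e h.1 h.2 fun _ _ _ _ => he _
    · simp only [h, if_false, one_mul]
      obtain ⟨⟨i, j⟩, _ | _⟩ := e
      · simp only [dual_false] at h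
        rw [hH _ _ (by omega)]
        split_ifs with h'
        · exact h1 _ _ (by simp only at h'; omega)
        · rfl
      · simp only [dual_true] at h
        rw [hV _ _ (by omega)]
        split_ifs with h'
        · exact h1 _ _ (by simp only at h'; omega)
        · rfl
  · rintro ⟨i, j⟩ hf
    simp only [mem_box] at hf
    simp only
    split_ifs with h'
    · by_cases hi : R ≤ i
      · exact h2 _ _ hi h'.1 h'.2
      · exact h1 _ _ (by omega)
    · rfl

lemma const_on_box (S : Site → ℝ) {m : ℤ}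
    (h : ∀ e : Edge, e.1 ∈ box m → tip e ∈ box m → S (tip e) = S e.1) :
    ∀ f ∈ box m, S f = S (-m, -m) := by
  rintro ⟨i, j⟩ hf
  simp only [mem_box] at hf
  have h1 := tele (fun k => S (k, j)) (fun _ => 1) hf.1 fun k a b => by
    have := h ((k - 1, j), false) (by simp only [mem_box]; omega)
      (by simp only [mem_box, tip_false]; omega)
    simpa using this
  have h2 := tele (fun k => S (-m, k)) (fun _ => 1) hf.2.2.1 fun k a b => by
    have := h ((-m, k - 1), true) (by simp only [mem_box]; omega)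
      (by simp only [mem_box, tip_true]; omega)
    simpa using this
  simp only [prod_const_one, mul_one] at h1 h2
  rw [h1, h2]

lemma par_of_grad {η : Finset Edge} {S : Site → ℝ} (hS : ∀ f, S f * S f = 1) {x : Site}
    (h : ∀ e ∈ star x, sg (e ∈ η) = S (dual e).1 * S e.1) : par η x = 1 := by
  obtain ⟨i, j⟩ := x
  rw [par_eq, h _ (by simp [star]), h _ (by simp [star]), h _ (by simp [star]),
    h _ (by simp [star])]
  simp only [dual_true, dual_false]
  calc _ = (S (i, j) * S (i, j)) * (S (i - 1, j) * S (i - 1, j)) * (S (i, j - 1) * S (i, j - 1)) *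
      (S (i - 1, j - 1) * S (i - 1, j - 1)) := by ring
    _ = 1 := by simp [hS]

/-- The dual open edges. -/
def dualOf (F ω : Finset Edge) : Finset Edge := (F \ ω).map dual.toEmbedding

lemma mem_dualOf {F ω : Finset Edge} {e : Edge} : dual e ∈ dualOf F ω ↔ e ∈ F ∧ e ∉ ω := by
  simp [dualOf]

/-- Without a dual crossing of an annulus, one open cluster meets every path across it. -/
lemma blocking {N m m₁ : ℤ} (hm : 0 ≤ m) (hm₁ : m + 1 ≤ m₁) (hN : m₁ + 1 ≤ N) {ω : Finset Edge}
    (h : ∀ f ∈ box (m + 1), ¬ exits (box m₁) (dualOf (touching (box N)) ω) f) :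
    ∃ z ∈ box (m₁ + 1), ∀ x ∈ box m, ∀ y, y ∉ box (m₁ + 1) → ∀ P : Site → Prop,
      Relation.ReflTransGen (fun a b => Adj a b ∧ P a ∧ P b) x y →
        ∃ w, P w ∧ reach ω z w ∧ ∃ e ∈ ω, e ∈ star w := by
  set D : Site → Prop := fun f => ∃ f₀ ∈ box (m + 1), reach (dualOf (touching (box N)) ω) f₀ f
    with hD
  have hDbox : ∀ f, D f → f ∈ box m₁ := by
    rintro f ⟨f₀, h0, hr⟩
    by_contra hc
    exact h f₀ h0 ⟨f, hc, hr⟩
  have hD0 : ∀ f ∈ box (m + 1), D f := fun f hf => ⟨f, hf, Relation.ReflTransGen.refl⟩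
  set B := (touching (box N)).filter fun e => ¬ (D (dual e).1 ↔ D e.1) with hB
  have hBbox : ∀ e : Edge, ¬ (D (dual e).1 ↔ D e.1) →
      e.1 ∈ box (m₁ + 1) ∧ tip e ∈ box (m₁ + 1) := by
    intro e he
    have : (dual e).1 ∈ box m₁ ∨ e.1 ∈ box m₁ := by
      by_cases h1 : D e.1
      · exact Or.inr (hDbox _ h1)
      · exact Or.inl (hDbox _ (by
          by_contra h2
          exact he (iff_of_false h2 h1)))
    obtain ⟨⟨i, j⟩, _ | _⟩ := e <;>
      simp only [mem_box, dual_true, dual_false, tip_true, tip_false] at this ⊢ <;> omega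
  have hBmem : ∀ e, e ∈ B ↔ ¬ (D (dual e).1 ↔ D e.1) := fun e => by
    rw [hB, mem_filter]
    exact ⟨fun h => h.2, fun h => ⟨mem_touching.2 (Or.inl (box_mono hN (hBbox e h).1)), h⟩⟩
  have hBω : ∀ e ∈ B, e ∈ ω := by
    intro e he
    by_contra hc
    have h1 : dual e ∈ dualOf (touching (box N)) ω := mem_dualOf.2 ⟨(mem_filter.1 he).1, hc⟩
    have h2 := reach_edge h1
    rw [tip_dual] at h2
    refine (hBmem e).1 he ⟨?_, ?_⟩
    · rintro ⟨f₀, h0, hr⟩
      exact ⟨f₀, h0, hr.trans h2⟩
    · rintro ⟨f₀, h0, hr⟩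
      exact ⟨f₀, h0, hr.trans h2.symm⟩
  have hgrad : ∀ e, sg (e ∈ B) = sg (D (dual e).1) * sg (D e.1) := by
    intro e
    rw [hBmem]
    by_cases h1 : D (dual e).1 <;> by_cases h2 : D e.1 <;> simp [sg, h1, h2]
  have hprod : ∏ k ∈ Ioc (-(m₁ + 1) - 1) 0, sg (((k, 0), true) ∈ B) = -1 := by
    have := tele (fun k => sg (D (k, 0))) (fun k => sg (((k, 0), true) ∈ B))
      (show -(m₁ + 1) - 1 ≤ 0 by omega) fun k _ _ => by
        rw [hgrad, dual_true, ← mul_assoc, sg_mul_self, one_mul]
    rw [sg_pos (hD0 _ (by simp only [mem_box]; omega)),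
      sg_neg (fun hc => by have := hDbox _ hc; simp only [mem_box] at this; omega), one_mul] at this
    exact this.symm
  obtain ⟨k₀, hk₀, hz⟩ : ∃ k₀ ∈ Ioc (-(m₁ + 1) - 1) 0, ∏ k ∈ Ioc (-(m₁ + 1) - 1) 0,
      sg (((k, 0), true) ∈ B.filter fun e => reach ω (k₀, 0) e.1) ≠ 1 := by
    by_contra hc
    push Not at hc
    rw [← prod_fiberwise_of_maps_to (t := (Ioc (-(m₁ + 1) - 1) 0).image fun k => reach ω (k, 0))
      (g := fun k => reach ω (k, 0)) (fun k hk => mem_image_of_mem _ hk), prod_eq_one] at hprod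
    · norm_num at hprod
    intro c hc'
    obtain ⟨k₀, hk₀, rfl⟩ := mem_image.1 hc'
    rw [← hc k₀ hk₀, prod_filter]
    refine prod_congr rfl fun k _ => ?_
    have : reach ω (k, 0) = reach ω (k₀, 0) ↔ reach ω (k₀, 0) (k, 0) :=
      ⟨fun h => h ▸ Relation.ReflTransGen.refl,
        fun h => funext fun y => propext ⟨fun h' => h.trans h', fun h' => h.symm.trans h'⟩⟩
    by_cases h1 : reach ω (k₀, 0) (k, 0) <;> simp [this, h1, sg]
  set E := B.filter fun e => reach ω (k₀, 0) e.1 with hE
  have hEven : ∀ x, par E x = 1 := by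
    intro x
    by_cases hx : reach ω (k₀, 0) x
    · refine par_of_grad (S := fun f => sg (D f)) (fun f => sg_mul_self _) fun e he => ?_
      rw [← hgrad]
      congr 1
      rw [hE, mem_filter]
      refine propext ⟨fun h => h.1, fun h => ⟨h, ?_⟩⟩
      rcases mem_star.1 he with rfl | rfl
      · exact hx
      · exact hx.trans (reach_edge (hBω e h)).symm
    · refine par_of_grad (S := fun _ => 1) (fun f => mul_one _) fun e he => ?_
      rw [mul_one]
      refine sg_neg fun hc => hx ?_
      rw [hE, mem_filter] at hc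
      rcases mem_star.1 he with rfl | rfl
      · exact hc.2
      · exact hc.2.trans (reach_edge (hBω e hc.1))
  obtain ⟨S, hS, hS1⟩ := exists_potential E (m₁ + 1)
    (fun e he => hBbox e ((hBmem e).1 (mem_filter.1 he).1)) hEven
  have hS0 : S (0, 0) ≠ 1 := by
    have := tele (fun k => S (k, 0)) (fun k => sg (((k, 0), true) ∈ E))
      (show -(m₁ + 1) - 1 ≤ 0 by omega) fun k _ _ => hS ((k, 0), true)
    rw [this, hS1 _ (by simp only [mem_box]; omega), one_mul]
    exact hz
  have hSbox : ∀ f ∈ box m, S f = S (-m, -m) := by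
    refine const_on_box S fun e h1 h2 => ?_
    have := hS (dual.symm e)
    rw [← tip_dual (dual.symm e), Equiv.apply_symm_apply] at this
    rw [this, sg_neg, mul_one]
    intro hc
    have := (hBmem _).1 (mem_filter.1 hc).1
    rw [← tip_dual (dual.symm e), Equiv.apply_symm_apply] at this
    exact this (iff_of_true (hD0 _ (box_mono (by omega) h1)) (hD0 _ (box_mono (by omega) h2)))
  refine ⟨(k₀, 0), by simp only [mem_Ioc, mem_box] at hk₀ ⊢; omega, fun x hx y hy P hp => ?_⟩
  by_contra hc
  push Not at hc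
  have hni : ∀ w, P w → ∀ e ∈ star w, sg (e ∈ E) = 1 := by
    intro w hw e he
    refine sg_neg fun h' => ?_
    rw [hE, mem_filter] at h'
    refine hc w hw ?_ e (hBω e h'.1) he
    rcases mem_star.1 he with rfl | rfl
    · exact h'.2
    · exact h'.2.trans (reach_edge (hBω e h'.1))
  have hstep : ∀ w, P w → S w = S (w.1 - 1, w.2) ∧ S w = S (w.1, w.2 - 1) := by
    rintro ⟨i, j⟩ hw
    have a := hS ((i, j), true)
    have b := hS ((i, j), false)
    rw [hni _ hw _ (by simp [star]), mul_one] at a b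
    exact ⟨a, b⟩
  have hxy : S x = S y := by
    clear hy
    induction hp with
    | refl => rfl
    | @tail a b _ hab ih =>
      obtain ⟨hadj, ha, hb⟩ := hab
      obtain ⟨a1, a2⟩ := a
      obtain ⟨b1, b2⟩ := b
      have h1 := hstep _ ha
      have h2 := hstep _ hb
      simp only [Adj, abs_eq_max_neg] at hadj h1 h2
      rw [ih]
      have : (b1 = a1 - 1 ∧ b2 = a2) ∨ (b1 = a1 ∧ b2 = a2 - 1) ∨ (a1 = b1 - 1 ∧ a2 = b2) ∨
        (a1 = b1 ∧ a2 = b2 - 1) := by omega
      rcases this with ⟨rfl, rfl⟩ | ⟨rfl, rfl⟩ | ⟨rfl, rfl⟩ | ⟨rfl, rfl⟩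
      exacts [h1.1, h1.2, h2.1.symm, h2.2.symm]
  rw [hS1 y hy, hSbox x hx, ← hSbox (0, 0) (by simp only [mem_box]; omega)] at hxy
  exact hS0 hxy

end

end Pool.Agent.MP_cb84d8_pr

end MrgPart1

-- ======== part 2: formerly Pool.Agent.MP_cb84d8_pr.Duality
section MrgPart2

/-!
Self-duality of the critical random-cluster model with `q = 2`.
-/

open Finset

namespace Pool.Agent.MP_cb84d8_pr

noncomputable section
open Classical

/-- Subsets of `ω` with even degree at each site of `Λ`. -/
def evens (ω : Finset Edge) (Λ : Finset Site) : Finset (Finset Edge) :=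
  ω.powerset.filter fun η => ∀ x ∈ Λ, par η x = 1

lemma card_cmpt_primal (Λ : Finset Site) (ω : Finset Edge) :
    (2 : ℝ) ^ ω.card * (cmpt Λ ⊤ ω).card = 2 ^ Λ.card * (evens ω Λ).card := by
  have h1 : ∑ σ ∈ fill Λ ⊤, ∏ e ∈ ω, (1 + bond σ e) = (2 : ℝ) ^ ω.card * (cmpt Λ ⊤ ω).card := by
    unfold cmpt
    rw [card_filter, Nat.cast_sum, mul_sum]
    refine sum_congr rfl fun σ _ => ?_
    split_ifs with h
    · rw [prod_congr rfl (g := fun _ => 2) fun e he => by
        rw [bond_eq, if_pos (show σ e.1 = σ (tip e) from h e he)]; norm_num]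
      simp
    · push Not at h
      obtain ⟨e, he, h⟩ := h
      rw [prod_eq_zero he (by rw [bond_eq, if_neg (show ¬ σ e.1 = σ (tip e) from h)]; norm_num)]
      simp
  rw [← h1]
  simp only [prod_one_add]
  rw [sum_comm]
  simp only [sum_prod_bond]
  unfold evens
  rw [card_filter, Nat.cast_sum, mul_sum]
  refine sum_congr rfl fun η _ => ?_
  split_ifs <;> simp

/-- The faces next to the box, with one corner face removed. -/
def dbox (N : ℤ) : Finset Site := (Icc (-N - 1) N ×ˢ Icc (-N - 1) N).erase (-N - 1, -N - 1)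

lemma mem_dbox {N : ℤ} {x : Site} : x ∈ dbox N ↔
    (x.1 ≠ -N - 1 ∨ x.2 ≠ -N - 1) ∧ -N - 1 ≤ x.1 ∧ x.1 ≤ N ∧ -N - 1 ≤ x.2 ∧ x.2 ≤ N := by
  obtain ⟨a, b⟩ := x
  simp only [dbox, mem_erase, mem_product, mem_Icc, ne_eq, Prod.mk.injEq]
  omega

lemma sg_not_agree (σ : Config) (e : Edge) :
    sg (¬ agree σ (dual e)) = spin (σ (dual e).1) * spin (σ e.1) := by
  unfold agree
  rw [tip_dual]
  cases σ (dual e).1 <;> cases σ e.1 <;> simp [sg]

lemma spin_decide {x : ℝ} (h : x = 1 ∨ x = -1) : spin (decide (x = 1)) = x := by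
  rcases h with rfl | rfl
  · simp
  · rw [decide_eq_false (by norm_num), spin_false]

lemma spin_inj {a b : Bool} (h : spin a = spin b) : a = b := by
  cases a <;> cases b <;> simp at h ⊢ <;> linarith

lemma card_cmpt_dual {N : ℤ} {ω : Finset Edge} (hω : ω ⊆ touching (box N)) :
    (cmpt (dbox N) ⊤ (dualOf (touching (box N)) ω)).card = (evens ω (box N)).card := by
  set i : Config → Finset Edge := fun σ => (touching (box N)).filter fun e => ¬ agree σ (dual e)
    with hi
  set j : Finset Edge → Config := fun η f =>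
    if f ∈ dbox N then decide (side η (-N - 1) f = 1) else true with hj
  have hsg : ∀ σ, ∀ e ∈ touching (box N),
      sg (e ∈ i σ) = spin (σ (dual e).1) * spin (σ e.1) := by
    intro σ e he
    rw [← sg_not_agree]
    simp only [hi, mem_filter, he, true_and]
  have hjs : ∀ η f, -N - 1 ≤ f.1 → f.1 ≤ N → -N - 1 ≤ f.2 → f.2 ≤ N →
      spin (j η f) = side η (-N - 1) f := by
    rintro η ⟨a, b⟩ h1 h2 h3 h4
    simp only [hj]
    split_ifs with h
    · exact spin_decide (side_cases _ _ _)
    · have : a = -N - 1 ∧ b = -N - 1 := by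
        simp only [mem_dbox] at h h1 h2 h3 h4
        omega
      simp [side, this.1, this.2]
  have hgrad : ∀ η ∈ evens ω (box N), ∀ e ∈ touching (box N),
      sg (¬ agree (j η) (dual e)) = sg (e ∈ η) := by
    intro η hη e he
    rw [evens, mem_filter] at hη
    rw [mem_touching, mem_box, mem_box] at he
    have hb : -N - 1 ≤ (dual e).1.1 ∧ (dual e).1.1 ≤ N ∧ -N - 1 ≤ (dual e).1.2 ∧
        (dual e).1.2 ≤ N ∧ -N - 1 ≤ e.1.1 ∧ e.1.1 ≤ N ∧ -N - 1 ≤ e.1.2 ∧ e.1.2 ≤ N ∧
        (e.2 = false → -N ≤ e.1.2) := by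
      obtain ⟨⟨a, b⟩, _ | _⟩ := e <;>
        simp only [dual_true, dual_false, tip_true, tip_false, forall_true_left,
          Bool.true_eq_false, false_imp_iff, and_true] at he ⊢ <;> omega
    obtain ⟨b1, b2, b3, b4, b5, b6, b7, b8, b9⟩ := hb
    rw [sg_not_agree, hjs _ _ b1 b2 b3 b4, hjs _ _ b5 b6 b7 b8,
      side_grad η e b1 b3 fun h k k1 k2 => hη.2 _ (by
        have := b9 h
        simp only [mem_box]; omega), ← mul_assoc]
    rcases side_cases η (-N - 1) (dual e).1 with h | h <;> simp [h]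
  have hsg_iff : ∀ P Q : Prop, sg P = sg Q → (P ↔ Q) := by
    intro P Q h
    by_cases p : P <;> by_cases q : Q <;> simp [sg, p, q] at h ⊢ <;> linarith
  refine card_nbij' i j ?_ ?_ ?_ ?_
  · intro σ hσ
    simp only [cmpt, coe_filter, Set.mem_ofPred_eq] at hσ
    simp only [evens, coe_filter, Set.mem_ofPred_eq, mem_powerset]
    refine ⟨fun e he => ?_, fun x hx => ?_⟩
    · simp only [hi, mem_filter] at he
      by_contra hc
      exact he.2 (hσ.2 _ (mem_dualOf.2 ⟨he.1, hc⟩))
    · refine par_of_grad (S := fun f => spin (σ f)) (fun f => spin_mul_self _) fun e he =>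
        hsg σ e (mem_biUnion.2 ⟨x, hx, he⟩)
  · intro η hη
    have hη' : η ∈ evens ω (box N) := hη
    simp only [cmpt, coe_filter, Set.mem_ofPred_eq, mem_fill]
    refine ⟨fun x hx => by simp [hj, hx], fun e' he' => ?_⟩
    obtain ⟨e, rfl⟩ := dual.surjective e'
    rw [mem_dualOf] at he'
    by_contra hc
    have := (hsg_iff _ _ (hgrad η hη' e he'.1)).1 hc
    exact he'.2 (mem_powerset.1 (mem_filter.1 hη').1 this)
  · intro σ hσ
    simp only [cmpt, coe_filter, Set.mem_ofPred_eq, mem_fill] at hσ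
    funext f
    by_cases hf : f ∈ dbox N
    · obtain ⟨a, b⟩ := f
      simp only [mem_dbox] at hf
      apply spin_inj
      rw [hjs _ _ hf.2.1 hf.2.2.1 hf.2.2.2.1 hf.2.2.2.2]
      have h1 := tele (fun k => spin (σ (k, b))) (fun k => sg (((k, b), true) ∈ i σ)) hf.2.1
        fun k k1 k2 => by
          rw [hsg σ _ (by simp only [mem_touching, mem_box, tip_true]; omega), dual_true,
            ← mul_assoc, spin_mul_self, one_mul]
      have h2 := tele (fun k => spin (σ (-N - 1, k))) (fun k => sg (((-N - 1, k), false) ∈ i σ))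
        hf.2.2.2.1 fun k k1 k2 => by
          rw [hsg σ _ (by simp only [mem_touching, mem_box, tip_false]; omega), dual_false,
            ← mul_assoc, spin_mul_self, one_mul]
      have h3 : σ (-N - 1, -N - 1) = true := hσ.1 _ (by simp [mem_dbox])
      rw [h1, h2, h3, spin_true, one_mul]
      rfl
    · simp only [hj, hf, if_false]
      exact (hσ.1 f hf).symm
  · intro η hη
    have hη' : η ∈ evens ω (box N) := hη
    ext e
    simp only [hi, mem_filter]
    have hsub : η ⊆ touching (box N) := (mem_powerset.1 (mem_filter.1 hη').1).trans hω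
    exact ⟨fun h => (hsg_iff _ _ (hgrad η hη' e h.1)).1 h.2,
      fun h => ⟨hsub h, (hsg_iff _ _ (hgrad η hη' e (hsub h))).2 h⟩⟩

lemma esSum_dual (N : ℤ) (H : Finset Edge → ℝ) :
    2 ^ (box N).card * esSum ((touching (box N)).map dual.toEmbedding) (dbox N) ⊤ (fun _ ω => H ω) =
      √2 ^ (touching (box N)).card *
        esSum (touching (box N)) (box N) ⊤ fun _ ω => H (dualOf (touching (box N)) ω) := by
  unfold esSum
  rw [mul_sum, mul_sum]
  symm
  refine sum_nbij' (dualOf (touching (box N)))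
    (fun ω' => (touching (box N)).filter fun e => dual e ∉ ω') ?_ ?_ ?_ ?_ ?_
  · intro ω _
    exact mem_powerset.2 (map_subset_map.2 sdiff_subset)
  · intro ω _
    exact mem_powerset.2 (filter_subset _ _)
  · intro ω hω
    ext e
    simp only [mem_filter, mem_dualOf]
    have : e ∈ ω → e ∈ touching (box N) := fun h => mem_powerset.1 hω h
    tauto
  · intro ω hω
    ext e'
    obtain ⟨e, rfl⟩ := dual.surjective e'
    simp only [mem_filter, mem_dualOf]
    have : dual e ∈ ω → e ∈ touching (box N) := fun h => by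
      simpa using mem_powerset.1 hω h
    tauto
  · intro ω hω
    rw [mem_powerset] at hω
    simp only [sum_const, nsmul_eq_mul]
    rw [card_cmpt_dual hω]
    have h1 := card_cmpt_primal (box N) ω
    have h2 : (dualOf (touching (box N)) ω).card + ω.card = (touching (box N)).card := by
      rw [dualOf, card_map, card_sdiff_add_card_eq_card hω]
    have h3 : (2 : ℝ) ^ ω.card = √2 ^ ω.card * √2 ^ ω.card := by
      rw [← mul_pow, sqrt_two_mul_self]
    rw [← h2, pow_add]
    rw [h3] at h1
    calc _ = √2 ^ (dualOf (touching (box N)) ω).card * (√2 ^ ω.card * √2 ^ ω.card *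
          (cmpt (box N) ⊤ ω).card) * H (dualOf (touching (box N)) ω) := by ring
      _ = _ := by rw [h1]; ring

lemma es_dual (N : ℤ) (H : Finset Edge → ℝ) :
    es (touching (box N)) (box N) ⊤ (fun _ ω => H (dualOf (touching (box N)) ω)) =
      es ((touching (box N)).map dual.toEmbedding) (dbox N) ⊤ fun _ ω => H ω := by
  rw [es_eq, es_eq]
  have h1 := esSum_dual N H
  have h2 := esSum_dual N fun _ => 1
  have p1 := esSum_one_pos (touching (box N)) (box N) ⊤
  have p2 := esSum_one_pos ((touching (box N)).map dual.toEmbedding) (dbox N) ⊤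
  have p3 : (0 : ℝ) < 2 ^ (box N).card := by positivity
  have p4 : (0 : ℝ) < √2 ^ (touching (box N)).card := pow_pos sqrt_two_pos _
  rw [div_eq_div_iff p1.ne' p2.ne']
  apply mul_left_cancel₀ p3.ne'
  calc _ = esSum (touching (box N)) (box N) ⊤ (fun _ ω => H (dualOf (touching (box N)) ω)) *
        (2 ^ (box N).card *
          esSum ((touching (box N)).map dual.toEmbedding) (dbox N) ⊤ fun _ _ => 1) := by ring
    _ = _ := by rw [h2, ← mul_assoc (2 ^ (box N).card), h1]; ring

/-- Dual connections are bounded by the plus magnetisation. -/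
lemma es_dual_exits_le {N m : ℤ} (h : m + 1 ≤ N) (f : Site) :
    es (touching (box N)) (box N) ⊤
      (fun _ ω => if exits (box m) (dualOf (touching (box N)) ω) f then 1 else 0) ≤
      2 * pavg (box m) fun σ => spin (σ f) := by
  rw [es_dual N fun ω => if exits (box m) ω f then 1 else 0]
  refine es_exits_le ⊤ (fun x hx => ?_) (fun e' he => ?_) f
  · rw [mem_box] at hx
    rw [mem_dbox]
    omega
  · obtain ⟨e, rfl⟩ := dual.surjective e'
    simp only [mem_map_equiv, Equiv.symm_apply_apply]
    obtain ⟨⟨a, b⟩, _ | _⟩ := e <;>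
      simp only [mem_touching, mem_box, dual_true, dual_false, tip_true, tip_false] at he ⊢ <;>
      omega

end

end Pool.Agent.MP_cb84d8_pr

end MrgPart2

-- ======== part 3: formerly Pool.Agent.MP_cb84d8_pr.Static
section MrgPart3

/-!
Critical plus clusters stay finite after a small independent sprinkling of plus spins.
-/

open Finset Filter Topology

namespace Pool.Agent.MP_cb84d8_pr

noncomputable section
open Classical

/-- A path of good sites outside the box of size `m - 1` joins the box of size `m` to the outside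
of the box of size `N`. -/
def crossing (good : Site → Prop) (m N : ℤ) : Prop :=
  ∃ x ∈ box m, ∃ y, y ∉ box N ∧ Relation.ReflTransGen
    (fun a b => Adj a b ∧ (good a ∧ a ∉ box (m - 1)) ∧ (good b ∧ b ∉ box (m - 1))) x y

lemma crossing_of_path {good : Site → Prop} {m N : ℤ} (h : m ≤ N) {x y : Site} (hx : x ∈ box m)
    (hy : y ∉ box N) (hp : Relation.ReflTransGen (fun a b => Adj a b ∧ good a ∧ good b) x y) :
    crossing good m N := by
  have key : crossing good m N ∨ (x ∉ box m ∧ Relation.ReflTransGen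
      (fun a b => Adj a b ∧ (good a ∧ a ∉ box (m - 1)) ∧ (good b ∧ b ∉ box (m - 1))) x y) := by
    clear hx
    induction hp using Relation.ReflTransGen.head_induction_on with
    | refl => exact Or.inr ⟨fun h' => hy (box_mono h h'), Relation.ReflTransGen.refl⟩
    | @head a b hab _ ih =>
      rcases ih with ih | ⟨hb, ih⟩
      · exact Or.inl ih
      · have ha : a ∉ box (m - 1) := by
          have := hab.1
          simp only [mem_box, Adj, abs_eq_max_neg] at this hb ⊢
          omega
        have hb' : b ∉ box (m - 1) := fun h' => hb (box_mono (by omega) h')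
        have := Relation.ReflTransGen.head ⟨hab.1, ⟨hab.2.1, ha⟩, hab.2.2, hb'⟩ ih
        by_cases ha' : a ∈ box m
        · exact Or.inl ⟨a, ha', y, hy, this⟩
        · exact Or.inr ⟨ha', this⟩
  exact key.resolve_right fun h => h.1 hx

lemma rtg_mono {r s : Site → Site → Prop} (h : ∀ a b, r a b → s a b) {x y : Site}
    (hp : Relation.ReflTransGen r x y) : Relation.ReflTransGen s x y := by
  induction hp with
  | refl => exact Relation.ReflTransGen.refl
  | tail _ h' ih => exact ih.tail (h _ _ h')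

lemma crossing.mono {good good' : Site → Prop} {m N : ℤ}
    (h : ∀ a, a ∉ box (m - 1) → good a → good' a) (hc : crossing good m N) :
    crossing good' m N := by
  obtain ⟨x, hx, y, hy, hp⟩ := hc
  exact ⟨x, hx, y, hy, rtg_mono (fun a b h' => ⟨h'.1, ⟨h a h'.2.1.2 h'.2.1.1, h'.2.1.2⟩,
    h b h'.2.2.2 h'.2.2.1, h'.2.2.2⟩) hp⟩

lemma crossing.grow {good : Site → Prop} {m m' N : ℤ} (h : m ≤ m') (h' : m' ≤ N)
    (hc : crossing good m N) : crossing good m' N := by
  obtain ⟨x, hx, y, hy, hp⟩ := hc
  exact crossing_of_path h' (box_mono h hx) hy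
    (rtg_mono (fun a b h' => ⟨h'.1, h'.2.1.1, h'.2.2.1⟩) hp)

/-- Plus sites and isolated sites. -/
def goodES (σ : Config) (ω : Finset Edge) (a : Site) : Prop := σ a = true ∨ ∀ e ∈ ω, e ∉ star a

/-- Probability of a crossing by plus or isolated sites. -/
def theta (m N : ℤ) : ℝ :=
  es (touching (box N)) (box N) ⊤ fun σ ω => if crossing (goodES σ ω) m N then 1 else 0

lemma theta_rec {m m₁ m' N : ℤ} (hm : 0 ≤ m) (h1 : m + 1 ≤ m₁) (h2 : m₁ + 2 ≤ m') (h3 : m' ≤ N) :
    theta m N ≤ ∑ f ∈ box (m + 1), 2 * pavg (box m₁) (fun σ => spin (σ f)) +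
      ∑ z ∈ box (m₁ + 1), 2 * pavg (box (m' - 1)) (fun σ => spin (σ z)) + 1 / 2 * theta m' N := by
  set good : Finset Edge → Prop := fun ω =>
    (∀ f ∈ box (m + 1), ¬ exits (box m₁) (dualOf (touching (box N)) ω) f) ∧
      ∀ z ∈ box (m₁ + 1), ¬ exits (box (m' - 1)) ω z with hgood
  have hex : ∀ ω, ∃ z, good ω → z ∈ box (m₁ + 1) ∧ ∀ x ∈ box m, ∀ y, y ∉ box (m₁ + 1) →
      ∀ P : Site → Prop, Relation.ReflTransGen (fun a b => Adj a b ∧ P a ∧ P b) x y →
        ∃ w, P w ∧ reach ω z w ∧ ∃ e ∈ ω, e ∈ star w := by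
    intro ω
    by_cases h : good ω
    · obtain ⟨z, hz⟩ := blocking hm h1 (show m₁ + 1 ≤ N by omega) h.1
      exact ⟨z, fun _ => hz⟩
    · exact ⟨0, fun h' => absurd h' h⟩
  choose z hz using hex
  have hzin : ∀ ω, good ω → ∀ y, reach ω (z ω) y → y ∈ box (m' - 1) := by
    intro ω h y hy
    by_contra hc
    exact h.2 _ (hz ω h).1 ⟨y, hc, hy⟩
  have h0 := es_spin_zero (F := touching (box N)) (Λ := box N) (τ := ⊤) good z
    (fun ω _ h y hy => box_mono (by omega) (hzin ω h y hy))
    (fun σ ω => if crossing (goodES σ ω) m' N then 1 else 0) (fun ω _ h σ => by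
      have key : ∀ a, a ∉ box (m' - 1) → (goodES (flp {y | reach ω (z ω) y} σ) ω a ↔
          goodES σ ω a) := by
        intro a ha
        have : ¬ reach ω (z ω) a := fun h' => ha (hzin ω h a h')
        simp [goodES, flp, this]
      have : crossing (goodES (flp {y | reach ω (z ω) y} σ) ω) m' N ↔
          crossing (goodES σ ω) m' N :=
        ⟨fun h' => h'.mono fun a ha => (key a ha).1, fun h' => h'.mono fun a ha => (key a ha).2⟩
      simp only [this])
  have hA : es (touching (box N)) (box N) ⊤ (fun _ ω => ∑ f ∈ box (m + 1),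
      if exits (box m₁) (dualOf (touching (box N)) ω) f then (1 : ℝ) else 0) ≤
      ∑ f ∈ box (m + 1), 2 * pavg (box m₁) (fun σ => spin (σ f)) := by
    rw [es_sum]
    exact sum_le_sum fun f _ => es_dual_exits_le (by omega) f
  have hB : es (touching (box N)) (box N) ⊤ (fun _ ω => ∑ f ∈ box (m₁ + 1),
      if exits (box (m' - 1)) ω f then (1 : ℝ) else 0) ≤
      ∑ f ∈ box (m₁ + 1), 2 * pavg (box (m' - 1)) (fun σ => spin (σ f)) := by
    rw [es_sum]
    exact sum_le_sum fun f _ => es_exits_le ⊤ (box_mono (by omega))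
      (touching_mono (box_mono (by omega))) f
  refine le_trans ?_ (add_le_add (add_le_add hA hB) le_rfl)
  have hC : theta m' N = es (touching (box N)) (box N) ⊤ fun σ ω =>
      (if crossing (goodES σ ω) m' N then 1 else 0) +
        if good ω then spin (σ (z ω)) * if crossing (goodES σ ω) m' N then 1 else 0 else 0 := by
    rw [es_add]
    exact (add_zero _).symm.trans (congrArg _ (by convert h0.symm))
  rw [hC, ← es_const_mul, ← es_add, ← es_add]
  refine es_mono fun ω _ σ hσ => ?_
  have n1 : 0 ≤ ∑ f ∈ box (m + 1),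
      if exits (box m₁) (dualOf (touching (box N)) ω) f then (1 : ℝ) else 0 :=
    sum_nonneg fun _ _ => by split_ifs <;> norm_num
  have n2 : 0 ≤ ∑ f ∈ box (m₁ + 1), if exits (box (m' - 1)) ω f then (1 : ℝ) else 0 :=
    sum_nonneg fun _ _ => by split_ifs <;> norm_num
  have n3 := neg_one_le_spin (σ (z ω))
  by_cases hg : good ω
  · by_cases hc : crossing (goodES σ ω) m N
    · have hc' := hc.grow (show m ≤ m' by omega) h3
      obtain ⟨x, hx, y, hy, hp⟩ := hc
      obtain ⟨w, hw, hr, e, he, hew⟩ := (hz ω hg).2 x hx y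
        (fun h => hy (box_mono (by omega) h)) _ hp
      have hw' : σ w = true := hw.1.resolve_right fun h => h e he hew
      have hσz : σ (z ω) = true := (hr.spin_eq (mem_filter.1 hσ).2).trans hw'
      simp only [hg, hc', hσz, if_true, spin_true]
      split_ifs <;> linarith
    · simp only [hg, hc, if_true, if_false]
      split_ifs <;> linarith
  · have : (1 : ℝ) ≤ (∑ f ∈ box (m + 1),
        if exits (box m₁) (dualOf (touching (box N)) ω) f then (1 : ℝ) else 0) +
        ∑ f ∈ box (m₁ + 1), if exits (box (m' - 1)) ω f then (1 : ℝ) else 0 := by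
      simp only [hgood, not_and_or, not_forall, not_not] at hg
      rcases hg with ⟨f, hf, h⟩ | ⟨f, hf, h⟩
      · have := single_le_sum (f := fun f =>
          if exits (box m₁) (dualOf (touching (box N)) ω) f then (1 : ℝ) else 0)
          (fun _ _ => by split_ifs <;> norm_num) hf
        simp only [h, if_true] at this
        linarith
      · have := single_le_sum (f := fun f => if exits (box (m' - 1)) ω f then (1 : ℝ) else 0)
          (fun _ _ => by split_ifs <;> norm_num) hf
        simp only [h, if_true] at this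
        linarith
    simp only [hg, if_false]
    split_ifs <;> linarith

lemma tendsto_box : Tendsto box atTop atTop := by
  refine Monotone.tendsto_atTop_atTop (fun a b h => box_mono h) fun K => ?_
  obtain ⟨M, hM⟩ := (K.image fun x => |x.1| + |x.2|).bddAbove
  refine ⟨M, fun x hx => ?_⟩
  have := hM (mem_coe.2 (mem_image_of_mem _ hx))
  simp only [abs_eq_max_neg] at this
  rw [mem_box]
  omega

lemma small_sum (K : Finset Site) {δ : ℝ} (hδ : 0 < δ) :
    ∃ M : ℤ, ∀ m, M ≤ m → ∑ f ∈ K, 2 * pavg (box m) (fun σ => spin (σ f)) ≤ δ := by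
  have : Tendsto (fun m => ∑ f ∈ K, 2 * pavg (box m) (fun σ => spin (σ f))) atTop
      (𝓝 (∑ _f ∈ K, 2 * 0)) :=
    tendsto_finsetSum _ fun f _ => ((tendsto_pavg_spin f).comp tendsto_box).const_mul _
  simp only [mul_zero, sum_const_zero] at this
  exact eventually_atTop.1 (this.eventually (ge_mem_nhds hδ))

lemma theta_small (K : ℕ) : ∀ m : ℤ, 0 ≤ m → ∀ δ : ℝ, 0 < δ →
    ∃ N₀ : ℤ, ∀ N, N₀ ≤ N → theta m N ≤ (1 / 2) ^ K + δ := by
  induction K with
  | zero =>
    intro m _ δ hδ
    refine ⟨0, fun N _ => ?_⟩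
    have : theta m N ≤ 1 := by
      rw [← es_const (F := touching (box N)) (Λ := box N) (τ := ⊤) 1]
      exact es_mono fun _ _ _ _ => by split_ifs <;> norm_num
    simp only [pow_zero]
    linarith
  | succ K ih =>
    intro m hm δ hδ
    obtain ⟨M₁, hM₁⟩ := small_sum (box (m + 1)) (show 0 < δ / 4 by positivity)
    obtain ⟨M₂, hM₂⟩ := small_sum (box (max M₁ (m + 1) + 1)) (show 0 < δ / 4 by positivity)
    obtain ⟨N₀, hN₀⟩ := ih (max (M₂ + 1) (max M₁ (m + 1) + 2)) (by omega) δ hδ
    refine ⟨max N₀ (max (M₂ + 1) (max M₁ (m + 1) + 2)), fun N hN => ?_⟩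
    have a := theta_rec (m := m) (m₁ := max M₁ (m + 1)) (m' := max (M₂ + 1) (max M₁ (m + 1) + 2))
      (N := N) hm (by omega) (by omega) (by omega)
    have b := hM₁ (max M₁ (m + 1)) (by omega)
    have c := hM₂ (max (M₂ + 1) (max M₁ (m + 1) + 2) - 1) (by omega)
    have d := hN₀ N (by omega)
    rw [pow_succ]
    linarith

/-- The site at which a half-edge sits. -/
def hend (a : Edge × Bool) : Site := if a.2 = true then tip a.1 else a.1.1

/-- The half-edges at a site. -/
def hstar (x : Site) : Finset (Edge × Bool) := (star x ×ˢ univ).filter fun a => hend a = x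

lemma mem_hstar {x : Site} {a : Edge × Bool} : a ∈ hstar x ↔ hend a = x := by
  obtain ⟨e, _ | _⟩ := a <;> simp [hstar, hend, mem_star] <;> tauto

/-- The sprinkling density that the proof tolerates. -/
def eps0 : ℝ := (1 - √pc) ^ 8

lemma sqrt_pc_lt_one : √pc < 1 := by
  rw [Real.sqrt_lt' one_pos]
  simpa using pc_lt_one

lemma eps0_pos : 0 < eps0 := pow_pos (sub_pos.2 sqrt_pc_lt_one) _

lemma ber_none {κ : Type*} [DecidableEq κ] (r : ℝ) (I : Finset κ) :
    ber (fun _ => r) I (fun h => if ∀ a ∈ I, a ∉ h then 1 else 0) = (1 - r) ^ I.card := by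
  unfold ber
  rw [sum_eq_single ∅]
  · simp
  · intro b hb hb'
    obtain ⟨a, ha⟩ := nonempty_iff_ne_empty.2 hb'
    have : ¬ ∀ a ∈ I, a ∉ b := fun h => h a (mem_powerset.1 hb ha) ha
    simp only [this, if_false, mul_zero]
  · simp

lemma sprinkle_le (m N : ℤ) (q : Site → ℝ) (hq : ∀ x, 0 ≤ q x ∧ q x ≤ eps0) :
    pavg (box N) (fun σ => ber q (box N) fun ζ =>
      if crossing (fun a => σ a = true ∨ a ∈ ζ) m N then 1 else 0) ≤ theta m N := by
  refine avg_mono fun σ _ => ?_
  have r0 : 0 ≤ √pc := Real.sqrt_nonneg _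
  have r1 := sqrt_pc_lt_one
  set H := touching (box N) ×ˢ (univ : Finset Bool) with hH
  have g1 := ber_group (fun _ => √pc) hstar (fun x h => ∀ a ∈ hstar x, a ∉ h)
    (fun x h => by simp only [mem_inter]; tauto) (fun x => (1 - √pc) ^ (hstar x).card) (box N)
    (fun x _ => by convert (ber_none √pc (hstar x)).symm)
    (fun x _ y _ hxy => disjoint_left.2 fun a ha hb =>
      hxy ((mem_hstar.1 ha).symm.trans (mem_hstar.1 hb))) H
    (fun x hx a ha => by
      rw [hstar, mem_filter, mem_product] at ha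
      exact mem_product.2 ⟨mem_biUnion.2 ⟨x, hx, ha.1.1⟩, mem_univ _⟩)
    (fun ζ => if crossing (fun a => σ a = true ∨ a ∈ ζ) m N then 1 else 0)
  have g2 := ber_group (fun _ => √pc) (fun e : Edge => {(e, false), (e, true)})
    (fun e h => (e, false) ∈ h ∧ (e, true) ∈ h) (fun e h => by simp) (fun _ => pc)
    (touching (box N)) (fun e _ => by
      rw [ber_insert _ (by simp), ← insert_empty_eq (e, true), ber_insert _ (by simp),
        ber_insert _ (by simp)]
      simp [ber_empty, Real.mul_self_sqrt pc_nonneg])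
    (fun x _ y _ hxy => by simp [hxy.symm]) H
    (fun e he a ha => by
      simp only [mem_insert, mem_singleton] at ha
      rcases ha with rfl | rfl <;> exact mem_product.2 ⟨he, mem_univ _⟩)
    (fun c => if crossing (goodES σ (c.filter (agree σ))) m N then 1 else 0)
  refine le_trans (ber_mono_param (q' := fun x => (1 - √pc) ^ (hstar x).card)
    (fun x _ => ⟨(hq x).1, (hq x).2.trans ?_, pow_le_one₀ (by linarith) (by linarith)⟩) ?_) ?_
  · refine pow_le_pow_of_le_one (by linarith) (by linarith) ((card_filter_le _ _).trans ?_)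
    rw [card_product]
    have : (star x).card ≤ 4 := card_le_four
    simp only [card_univ, Fintype.card_bool]
    omega
  · intro a b hab
    simp only
    split_ifs with h1 h2
    · exact le_rfl
    · exact absurd (h1.mono fun x _ h => h.imp id fun h' => hab h') h2
    · exact zero_le_one
    · exact le_rfl
  · rw [← g1]
    refine le_trans ?_ (le_of_eq g2)
    refine ber_mono (fun _ _ => ⟨r0, r1.le⟩) fun h _ => ?_
    split_ifs with h1 h2
    · exact le_rfl
    · refine absurd (h1.mono fun x _ hx => hx.imp id fun h' e he hs => ?_) h2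
      simp only [mem_filter] at h' he
      rcases mem_star.1 hs with rfl | rfl
      · exact h'.2 (e, false) (mem_hstar.2 rfl) he.1.2.1
      · exact h'.2 (e, true) (mem_hstar.2 rfl) he.1.2.2
    · exact zero_le_one
    · exact le_rfl

/-- The static bound: crossings by plus or sprinkled sites become unlikely in large boxes. -/
theorem static_bound {m : ℤ} (hm : 0 ≤ m) {δ : ℝ} (hδ : 0 < δ) : ∃ N : ℤ, m ≤ N ∧
    ∀ q : Site → ℝ, (∀ x, 0 ≤ q x ∧ q x ≤ eps0) → pavg (box N) (fun σ => ber q (box N) fun ζ =>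
      if crossing (fun a => σ a = true ∨ a ∈ ζ) m N then 1 else 0) ≤ δ := by
  obtain ⟨K, hK⟩ := exists_pow_lt_of_lt_one (show 0 < δ / 2 by positivity)
    (show (1 / 2 : ℝ) < 1 by norm_num)
  obtain ⟨N₀, hN₀⟩ := theta_small K m hm (δ / 2) (by positivity)
  refine ⟨max N₀ m, le_max_right _ _, fun q hq => (sprinkle_le _ _ q hq).trans ?_⟩
  have := hN₀ (max N₀ m) (le_max_left _ _)
  linarith

end

end Pool.Agent.MP_cb84d8_pr

end MrgPart3

-- ======== part 4: formerly Pool.Agent.MP_cb84d8_pr.Paths
section MrgPart4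

/-!
Deterministic facts on the heat-bath dynamics: finite-volume updates, domination, existence.
-/

open Finset Filter Topology

namespace Pool.Agent.MP_cb84d8_pr

noncomputable section
open Classical

lemma plusProb_eq (β S : ℝ) : plusProb β S = 1 / (1 + Real.exp (-(2 * β * S))) := by
  unfold plusProb
  have h : Real.exp (-(β * S)) = Real.exp (β * S) * Real.exp (-(2 * β * S)) := by
    rw [← Real.exp_add]; congr 1; ring
  have := Real.exp_pos (β * S)
  have := Real.exp_pos (-(2 * β * S))
  rw [h]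
  field_simp

lemma plusProb_mono {β : ℝ} (hβ : 0 ≤ β) : Monotone (plusProb β) := by
  intro a b h
  rw [plusProb_eq, plusProb_eq]
  refine one_div_le_one_div_of_le (by positivity) ?_
  have : Real.exp (-(2 * β * b)) ≤ Real.exp (-(2 * β * a)) :=
    Real.exp_le_exp.2 (by nlinarith)
  linarith

lemma plusProb_nonneg (β S : ℝ) : 0 ≤ plusProb β S := by unfold plusProb; positivity

lemma plusProb_le_one (β S : ℝ) : plusProb β S ≤ 1 := by
  rw [plusProb_eq, div_le_one (by positivity)]
  have := Real.exp_pos (-(2 * β * S))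
  linarith

lemma nbrSum_mono (x : Site) : Monotone fun σ => nbrSum σ x := by
  intro a b h
  unfold nbrSum
  exact add_le_add (add_le_add (add_le_add (spin_mono (h _)) (spin_mono (h _))) (spin_mono (h _)))
    (spin_mono (h _))

/-- One heat-bath update at `x` with update variable `u`. -/
def upd (x : Site) (u : ℝ) (ξ : Config) : Config :=
  Function.update ξ x (decide (u < plusProb betaC (nbrSum ξ x)))

/-- A list of updates, the head being the last one. -/
def run (U : Site × ℕ → ℝ) : List (Site × ℕ) → Config → Config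
  | [], τ => τ
  | r :: L, τ => upd r.1 (U r) (run U L τ)

lemma upd_mono (x : Site) (u : ℝ) : Monotone (upd x u) := by
  intro a b h y
  unfold upd
  by_cases hy : y = x
  · subst hy
    simp only [Function.update_self]
    rw [Bool.le_iff_imp]
    simp only [decide_eq_true_eq]
    exact fun h' => h'.trans_le (plusProb_mono betaC_pos.le (nbrSum_mono y h))
  · simp only [Function.update_of_ne hy]
    exact h y

lemma run_mono (U : Site × ℕ → ℝ) (L : List (Site × ℕ)) : Monotone (run U L) := by
  induction L with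
  | nil => exact monotone_id
  | cons r L ih => exact (upd_mono _ _).comp ih

lemma run_out (U : Site × ℕ → ℝ) {L : List (Site × ℕ)} {y : Site} (h : ∀ r ∈ L, r.1 ≠ y)
    (τ : Config) : run U L τ y = τ y := by
  induction L with
  | nil => rfl
  | cons r L ih =>
    simp only [run, upd]
    rw [Function.update_of_ne (h r List.mem_cons_self).symm]
    exact ih fun s hs => h s (List.mem_cons_of_mem _ hs)

/-- Replace the spins outside `Λ` by plus spins. -/
def cut (Λ : Finset Site) (σ : Config) : Config := fun x => if x ∈ Λ then σ x else true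

lemma cut_mono (Λ : Finset Site) : Monotone (cut Λ) := by
  intro a b h x
  unfold cut
  split_ifs
  exacts [h x, le_rfl]

lemma cut_mem (Λ : Finset Site) (σ : Config) : cut Λ σ ∈ fill Λ ⊤ :=
  mem_fill.2 fun x hx => by simp [cut, hx]

lemma cut_of_mem {Λ : Finset Site} {σ : Config} (h : σ ∈ fill Λ ⊤) : cut Λ σ = σ := by
  funext x
  unfold cut
  split_ifs with hx
  · rfl
  · exact (mem_fill.1 h x hx).symm

/-- Regular clocks: positive waiting times and finitely many rings in bounded time. -/
def Regular (E : Site → ℕ → ℝ) : Prop :=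
  (∀ x n, 0 < E x n) ∧ ∀ x t, ∃ n, t < ring E x n

lemma Regular.strictMono {E : Site → ℕ → ℝ} (h : Regular E) (x : Site) : StrictMono (ring E x) := by
  refine strictMono_nat_of_lt_succ fun n => ?_
  unfold ring
  rw [sum_range_succ _ (n + 1)]
  linarith [h.1 x (n + 1)]

lemma Regular.ring_pos {E : Site → ℕ → ℝ} (h : Regular E) (x : Site) (n : ℕ) : 0 < ring E x n :=
  sum_pos (fun k _ => h.1 x k) nonempty_range_add_one

lemma Regular.exists_last {E : Site → ℕ → ℝ} (h : Regular E) {x : Site} {t : ℝ}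
    (ht : ring E x 0 ≤ t) : ∃ n, ring E x n ≤ t ∧ t < ring E x (n + 1) := by
  have hex : ∃ n, t < ring E x (n + 1) := by
    obtain ⟨n, hn⟩ := h.2 x t
    exact ⟨n, hn.trans (h.strictMono x (Nat.lt_succ_self n))⟩
  refine ⟨Nat.find hex, ?_, Nat.find_spec hex⟩
  rcases Nat.eq_zero_or_eq_succ_pred (Nat.find hex) with h0 | h0
  · rw [h0]; exact ht
  · rw [h0]
    exact not_lt.1 (Nat.find_min hex (by omega))

lemma IsPath.no_ring {β : ℝ} {σ₀ : Config} {E : Site → ℕ → ℝ} {U : Site × ℕ → ℝ}
    {σ : ℝ → Config} (hσ : IsPath β σ₀ E U σ) (hE : Regular E) {s t : ℝ} (hs : 0 ≤ s)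
    (hst : s ≤ t) {x : Site} (h : ∀ n, ¬ (s < ring E x n ∧ ring E x n ≤ t)) : σ t x = σ s x := by
  by_cases ht : t < ring E x 0
  · rw [(hσ x).1 t (hs.trans hst) ht, (hσ x).1 s hs (hst.trans_lt ht)]
  · obtain ⟨n, h1, h2⟩ := hE.exists_last (not_lt.1 ht)
    have h3 : ring E x n ≤ s := not_lt.1 fun h' => h n ⟨h', h1⟩
    exact Bool.eq_iff_iff.2 (((hσ x).2 n t h1 h2).trans ((hσ x).2 n s h3 (hst.trans_lt h2)).symm)

/-- `L` lists the rings in `Λ` up to time `t`, the latest first. -/
def ListFor (Λ : Finset Site) (E : Site → ℕ → ℝ) (t : ℝ) (L : List (Site × ℕ)) : Prop :=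
  L.Pairwise (fun r s => ring E s.1 s.2 < ring E r.1 r.2) ∧
    ∀ r, r ∈ L ↔ r.1 ∈ Λ ∧ ring E r.1 r.2 ≤ t

lemma IsPath.le_run {σ₀ : Config} {E : Site → ℕ → ℝ} {U : Site × ℕ → ℝ}
    {σ : ℝ → Config} (hσ : IsPath betaC σ₀ E U σ) (hE : Regular E) (Λ : Finset Site)
    (L : List (Site × ℕ)) : ∀ t, 0 ≤ t → ListFor Λ E t L → σ t ≤ run U L (cut Λ σ₀) := by
  induction L with
  | nil =>
    intro t ht hL y
    simp only [run, cut]
    split_ifs with hy
    · have : t < ring E y 0 := not_le.1 fun h => by simpa using (hL.2 (y, 0)).2 ⟨hy, h⟩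
      exact ((hσ y).1 t ht this).le
    · exact Bool.le_true _
  | cons r L ih =>
    intro t ht hL
    obtain ⟨hp, hm⟩ := hL
    rw [List.pairwise_cons] at hp
    have hr := (hm r).1 List.mem_cons_self
    obtain ⟨s, hs0, hs1, hs2⟩ : ∃ s, 0 ≤ s ∧ s < ring E r.1 r.2 ∧
        ∀ r' ∈ L, ring E r'.1 r'.2 ≤ s := by
      cases L with
      | nil => exact ⟨0, le_rfl, hE.ring_pos _ _, by simp⟩
      | cons r' L' =>
        refine ⟨ring E r'.1 r'.2, (hE.ring_pos _ _).le, hp.1 r' List.mem_cons_self, ?_⟩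
        intro r'' h
        rcases List.mem_cons.1 h with rfl | h
        · exact le_rfl
        · exact ((List.pairwise_cons.1 hp.2).1 r'' h).le
    have hL' : ListFor Λ E s L := by
      refine ⟨hp.2, fun r' => ⟨fun h => ⟨((hm r').1 (List.mem_cons_of_mem _ h)).1, hs2 r' h⟩,
        fun h => ?_⟩⟩
      rcases List.mem_cons.1 ((hm r').2 ⟨h.1, h.2.trans (hs1.le.trans hr.2)⟩) with rfl | h'
      · exact absurd h.2 (not_le.2 hs1)
      · exact h'
    have ih' := ih s hs0 hL'
    have key : ∀ t', s ≤ t' → t' ≤ t → ∀ y, y ≠ r.1 → σ t' y ≤ run U L (cut Λ σ₀) y := by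
      intro t' h1 h2 y hy
      by_cases hyΛ : y ∈ Λ
      · rw [hσ.no_ring hE hs0 h1]
        · exact ih' y
        · rintro n ⟨h3, h4⟩
          rcases List.mem_cons.1 ((hm (y, n)).2 ⟨hyΛ, h4.trans h2⟩) with rfl | h'
          · exact hy rfl
          · exact absurd (hs2 _ h') (not_le.2 h3)
      · rw [run_out U (fun r' h (e : r'.1 = y) => hyΛ (e ▸ ((hL'.2 r').1 h).1))]
        simp [cut, hyΛ]
    intro y
    simp only [run, upd]
    by_cases hy : y = r.1
    · subst hy
      have h2 : t < ring E r.1 (r.2 + 1) := by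
        refine not_le.1 fun h => ?_
        have h3 := hE.strictMono r.1 (Nat.lt_succ_self r.2)
        rcases List.mem_cons.1 ((hm (r.1, r.2 + 1)).2 ⟨hr.1, h⟩) with h' | h'
        · have := congrArg Prod.snd h'
          simp at this
        · exact lt_asymm h3 (hp.1 _ h')
      simp only [Function.update_self]
      rw [Bool.le_iff_imp, (hσ r.1).2 r.2 t hr.2 h2]
      simp only [decide_eq_true_eq]
      refine fun h => h.trans_le (plusProb_mono betaC_pos.le ?_)
      have k := fun y hy => spin_mono (key _ hs1.le hr.2 y hy)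
      unfold nbrSum
      refine add_le_add (add_le_add (add_le_add (k _ ?_) (k _ ?_)) (k _ ?_)) (k _ ?_) <;>
        simp [Prod.ext_iff]
    · rw [Function.update_of_ne hy]
      exact key t (hs1.le.trans hr.2) le_rfl y hy

lemma exists_listFor {E : Site → ℕ → ℝ} (hE : Regular E)
    (hd : ∀ x y, x ≠ y → ∀ n m, ring E x n ≠ ring E y m) (Λ : Finset Site) (t : ℝ) :
    ∃ L, ListFor Λ E t L := by
  have hfin : {r : Site × ℕ | r.1 ∈ Λ ∧ ring E r.1 r.2 ≤ t}.Finite := by
    choose M hM using fun x => hE.2 x t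
    refine ((Λ.biUnion fun x => {x} ×ˢ range (M x)).finite_toSet).subset ?_
    rintro ⟨x, n⟩ ⟨h1, h2⟩
    simp only [coe_biUnion, Set.mem_iUnion, mem_coe, mem_product, mem_singleton, mem_range]
    exact ⟨x, h1, rfl, (hE.strictMono x).lt_iff_lt.1 (h2.trans_lt (hM x))⟩
  have key : ∀ s : Finset (Site × ℕ), ∃ L : List (Site × ℕ),
      L.Pairwise (fun r s => ring E s.1 s.2 < ring E r.1 r.2) ∧ ∀ r, r ∈ L ↔ r ∈ s := by
    intro s
    induction s using Finset.induction_on_max_value (fun r : Site × ℕ => ring E r.1 r.2) with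
    | empty => exact ⟨[], List.Pairwise.nil, by simp⟩
    | insert a s ha hmax ih =>
      obtain ⟨L, h1, h2⟩ := ih
      refine ⟨a :: L, List.pairwise_cons.2 ⟨fun r hr => ?_, h1⟩, by simp [h2]⟩
      have hr' := (h2 r).1 hr
      refine lt_of_le_of_ne (hmax r hr') fun h => ?_
      by_cases e : r.1 = a.1
      · rw [e] at h
        exact ha ((Prod.ext e ((hE.strictMono a.1).injective h) : r = a) ▸ hr')
      · exact hd _ _ e _ _ h
  obtain ⟨L, h1, h2⟩ := key hfin.toFinset
  exact ⟨L, h1, fun r => by simpa using h2 r⟩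

lemma ListFor.unique {Λ : Finset Site} {E : Site → ℕ → ℝ} {t : ℝ} {L L' : List (Site × ℕ)}
    (h : ListFor Λ E t L) (h' : ListFor Λ E t L') : L = L' := by
  have : Std.Irrefl fun r s : Site × ℕ => ring E s.1 s.2 < ring E r.1 r.2 := ⟨fun _ => lt_irrefl _⟩
  have : Std.Antisymm fun r s : Site × ℕ => ring E s.1 s.2 < ring E r.1 r.2 :=
    ⟨fun _ _ h1 h2 => absurd h1 (lt_asymm h2)⟩
  exact List.Pairwise.eq_of_mem_iff h.1 h'.1 fun r => (h.2 r).trans (h'.2 r).symm

lemma ListFor.nodup {Λ : Finset Site} {E : Site → ℕ → ℝ} {t : ℝ} {L : List (Site × ℕ)}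
    (h : ListFor Λ E t L) : L.Nodup :=
  h.1.imp fun hab e => by rw [e] at hab; exact lt_irrefl _ hab

/-- With regular clocks the update rule has a solution. -/
theorem exists_path {β : ℝ} (hβ : 0 ≤ β) (σ₀ : Config) {E : Site → ℕ → ℝ} (hE : Regular E)
    (U : Site × ℕ → ℝ) : ∃ σ, IsPath β σ₀ E U σ := by
  let Ψ : (ℝ → Config) →o (ℝ → Config) :=
    ⟨fun σ t x => if t < ring E x 0 then σ₀ x else decide (∃ n, ring E x n ≤ t ∧
      t < ring E x (n + 1) ∧ U (x, n) < plusProb β (nbrSum (σ (ring E x n)) x)), by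
      intro a b h t x
      simp only
      split_ifs
      · exact le_rfl
      · rw [Bool.le_iff_imp]
        simp only [decide_eq_true_eq]
        rintro ⟨n, h1, h2, h3⟩
        exact ⟨n, h1, h2, h3.trans_le (plusProb_mono hβ (nbrSum_mono x (h _)))⟩⟩
  refine ⟨Ψ.lfp, fun x => ⟨fun t _ ht => ?_, fun n t h1 h2 => ?_⟩⟩
  · rw [← Ψ.map_lfp]
    simp only [Ψ, OrderHom.coe_mk, ht, if_true]
  · nth_rewrite 1 [← Ψ.map_lfp]
    have h0 : ¬ t < ring E x 0 := not_lt.2 (((hE.strictMono x).monotone (Nat.zero_le n)).trans h1)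
    simp only [Ψ, OrderHom.coe_mk, h0, if_false, decide_eq_true_eq]
    refine ⟨?_, fun h => ⟨n, h1, h2, h⟩⟩
    rintro ⟨m, h3, h4, h5⟩
    have a := (hE.strictMono x).lt_iff_lt.1 (h3.trans_lt h2)
    have b := (hE.strictMono x).lt_iff_lt.1 (h1.trans_lt h4)
    obtain rfl : m = n := by omega
    exact h5

/-- The heat-bath kernel at `x`. -/
def heat (x : Site) (F : Config → ℝ) (ξ : Config) : ℝ :=
  plusProb betaC (nbrSum ξ x) * F (Function.update ξ x true) +
    (1 - plusProb betaC (nbrSum ξ x)) * F (Function.update ξ x false)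

lemma sum_star (x : Site) (f : Edge → ℝ) : ∑ e ∈ star x, f e =
    f (x, false) + f (x, true) + f ((x.1 - 1, x.2), false) + f ((x.1, x.2 - 1), true) := by
  rw [star, sum_insert (by simp [Prod.ext_iff]; omega),
    sum_insert (by simp [Prod.ext_iff]; omega), sum_insert (by simp), sum_singleton]
  ring

lemma weight_update {Λ : Finset Site} {x : Site} (hx : x ∈ Λ) (σ : Config) (b : Bool) :
    weight betaC (touching Λ) (Function.update σ x b) =
      weight betaC (touching Λ \ star x) σ * Real.exp (betaC * (spin b * nbrSum σ x)) := by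
  have hs : star x ⊆ touching Λ := subset_biUnion_of_mem star hx
  unfold weight
  rw [← Real.exp_add, ← mul_add, ← sum_sdiff hs]
  congr 3
  · refine sum_congr rfl fun e he => ?_
    have he' : e ∉ star x := (Finset.mem_sdiff.1 he).2
    rw [mem_star, not_or] at he'
    simp only [bond, Function.update_of_ne he'.1, Function.update_of_ne he'.2]
  · obtain ⟨i, j⟩ := x
    rw [sum_star]
    simp only [bond, nbrSum, tip_true, tip_false, sub_add_cancel, Function.update_self]
    rw [Function.update_of_ne (by simp), Function.update_of_ne (by simp),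
      Function.update_of_ne (by simp), Function.update_of_ne (by simp)]
    ring

lemma pavg_heat {Λ : Finset Site} {x : Site} (hx : x ∈ Λ) (F : Config → ℝ) :
    pavg Λ (heat x F) = pavg Λ F := by
  unfold pavg avg
  congr 1
  have h1 := sum_fill_flp (G := {x}) (Λ := Λ) (by simpa using hx) ⊤
    fun σ => weight betaC (touching Λ) σ * heat x F σ
  have h2 := sum_fill_flp (G := {x}) (Λ := Λ) (by simpa using hx) ⊤
    fun σ => weight betaC (touching Λ) σ * F σ
  have key : ∀ σ, weight betaC (touching Λ) σ * heat x F σ +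
      weight betaC (touching Λ) (flp {x} σ) * heat x F (flp {x} σ) =
      weight betaC (touching Λ) σ * F σ +
        weight betaC (touching Λ) (flp {x} σ) * F (flp {x} σ) := by
    intro σ
    have e1 : flp {x} σ = Function.update σ x (!σ x) := by
      funext y
      by_cases hy : y = x
      · subst hy; simp [flp]
      · simp [flp, hy]
    have e2 : heat x F (flp {x} σ) = heat x F σ := by
      have : nbrSum (flp {x} σ) x = nbrSum σ x := by
        simp [nbrSum, flp, Prod.ext_iff]
      unfold heat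
      rw [this, e1, Function.update_idem, Function.update_idem]
    have wt := weight_update hx σ true
    have wf := weight_update hx σ false
    simp only [spin_true, spin_false, one_mul, neg_one_mul, mul_neg] at wt wf
    have p1 := Real.exp_pos (betaC * nbrSum σ x)
    have p2 := Real.exp_pos (-(betaC * nbrSum σ x))
    have e3 : (weight betaC (touching Λ) (Function.update σ x true) +
        weight betaC (touching Λ) (Function.update σ x false)) * heat x F σ =
        weight betaC (touching Λ) (Function.update σ x true) * F (Function.update σ x true) +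
        weight betaC (touching Λ) (Function.update σ x false) * F (Function.update σ x false) := by
      rw [wt, wf]
      unfold heat plusProb
      field_simp
      ring
    rw [e2, e1]
    cases h : σ x
    · have : Function.update σ x false = σ := by rw [← h, Function.update_eq_self]
      rw [this] at e3
      simp only [Bool.not_false]
      linarith
    · have : Function.update σ x true = σ := by rw [← h, Function.update_eq_self]
      rw [this] at e3
      simp only [Bool.not_true]
      linarith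
  have h3 := sum_congr (rfl : fill Λ ⊤ = fill Λ ⊤) fun σ _ => key σ
  rw [sum_add_distrib, sum_add_distrib, h1, h2] at h3
  linarith

end

end Pool.Agent.MP_cb84d8_pr

end MrgPart4

-- marker of a merged file
example : 731051 + 847341 = 731051 + 847341 := rfl
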