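import Mathlib.Topology.Separation.CompletelyRegular
import Pool.Agent.MP_cb84d8_pr.Paths

/-!
Resampling one coordinate of a product measure; the Poisson clocks; invariance of the plus state.
-/

open Finset Filter Topology MeasureTheory ProbabilityTheory
open scoped ENNReal

namespace Pool.Agent.MP_cb84d8_pr

noncomputable section
open Classical

section update
variable {ι α : Type*} [DecidableEq ι] [MeasurableSpace α] (μ : Measure α) [IsProbabilityMeasure μ]

lemma infinitePi_update (i : ι) :
    ((Measure.infinitePi fun _ : ι => μ).prod μ).map (fun p => Function.update p.1 i p.2) =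
      Measure.infinitePi fun _ : ι => μ := by
  refine Measure.eq_infinitePi _ fun s t ht => ?_
  rw [Measure.map_apply measurable_update' (MeasurableSet.pi s.countable_toSet fun j _ => ht j)]
  by_cases hi : i ∈ s
  · have : (fun p : (ι → α) × α => Function.update p.1 i p.2) ⁻¹' (Set.pi s t) =
        (Set.pi (s.erase i) t) ×ˢ t i := by
      ext ⟨x, u⟩
      simp only [Set.mem_preimage, Set.mem_pi, mem_coe, Set.mem_prod, mem_erase]
      constructor
      · intro h
        refine ⟨fun j hj => ?_, by simpa using h i hi⟩
        have := h j hj.2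
        rwa [Function.update_of_ne hj.1] at this
      · intro h j hj
        by_cases e : j = i
        · subst e; simpa using h.2
        · rw [Function.update_of_ne e]; exact h.1 j ⟨e, hj⟩
    rw [this, Measure.prod_prod, Measure.infinitePi_pi _ fun j _ => ht j, prod_erase_mul _ _ hi]
  · have : (fun p : (ι → α) × α => Function.update p.1 i p.2) ⁻¹' (Set.pi s t) =
        (Set.pi s t) ×ˢ Set.univ := by
      ext ⟨x, u⟩
      simp only [Set.mem_preimage, Set.mem_pi, mem_coe, Set.mem_prod, Set.mem_univ, and_true]
      refine forall₂_congr fun j hj => ?_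
      rw [Function.update_of_ne (fun e : j = i => hi (e ▸ hj))]
    rw [this, Measure.prod_prod, Measure.infinitePi_pi _ fun j _ => ht j, measure_univ, mul_one]

lemma infinitePi_le_of_update (i : ι) {A : Set (ι → α)} (hA : MeasurableSet A) {c : ℝ≥0∞}
    (h : ∀ x, μ {u | Function.update x i u ∈ A} ≤ c) :
    (Measure.infinitePi fun _ : ι => μ) A ≤ c := by
  rw [← infinitePi_update μ i, Measure.map_apply measurable_update' hA,
    Measure.prod_apply (measurable_update' hA)]
  refine (lintegral_mono fun x => h x).trans ?_
  simp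

end update

instance : IsProbabilityMeasure (expMeasure 1) := isProbabilityMeasure_expMeasure one_pos

instance : IsProbabilityMeasure (volume.restrict (Set.Icc (0 : ℝ) 1)) := ⟨by simp⟩

/-- The law of the waiting times of one clock. -/
def oneClock : Measure (ℕ → ℝ) := Measure.infinitePi fun _ => expMeasure 1

instance : IsProbabilityMeasure oneClock := by unfold oneClock; infer_instance

instance : IsProbabilityMeasure clockLaw := by unfold clockLaw; infer_instance

instance : IsProbabilityMeasure unifLaw := by unfold unifLaw; infer_instance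

lemma clockLaw_eq : clockLaw = Measure.infinitePi fun _ => oneClock := rfl

lemma exp_le_volume (A : Set ℝ) : expMeasure 1 A ≤ volume A := by
  have : expMeasure 1 ≤ volume := by
    unfold expMeasure gammaMeasure
    conv_rhs => rw [← withDensity_one (μ := volume)]
    refine withDensity_mono (Eventually.of_forall fun x => ?_)
    have := exponentialPDF_eq 1 x
    unfold exponentialPDF exponentialPDFReal at this
    simp only [gammaPDF, this, Pi.one_apply]
    refine ENNReal.ofReal_le_one.2 ?_
    split_ifs with h
    · simpa using h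
    · exact zero_le_one
  exact this A

lemma exp_Iic (T : ℝ) (hT : 0 ≤ T) :
    expMeasure 1 (Set.Iic T) = ENNReal.ofReal (1 - Real.exp (-T)) := by
  rw [← ofReal_cdf, cdf_expMeasure_eq one_pos, if_pos hT, one_mul]

/-- Partial sums of the waiting times. -/
def psum (n : ℕ) (e : ℕ → ℝ) : ℝ := ∑ k ∈ range (n + 1), e k

lemma measurable_psum (n : ℕ) : Measurable (psum n) :=
  Finset.measurable_sum _ fun k _ => measurable_pi_apply k

lemma psum_le_volume (n : ℕ) {A : Set ℝ} (hA : MeasurableSet A) :
    oneClock {e | psum n e ∈ A} ≤ volume A := by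
  refine infinitePi_le_of_update _ n (measurable_psum n hA) fun x => (exp_le_volume _).trans ?_
  have : {u | Function.update x n u ∈ psum n ⁻¹' A} =
      (fun u => (∑ k ∈ range n, x k) + u) ⁻¹' A := by
    ext u
    simp only [Set.mem_ofPred_eq, psum, Set.mem_preimage, sum_range_succ, Function.update_self]
    rw [sum_congr rfl fun k hk => Function.update_of_ne (mem_range.1 hk).ne _ _]
  rw [this, measure_preimage_add]

lemma ae_pos : ∀ᵐ e ∂oneClock, ∀ k, 0 < e k := by
  refine ae_all_iff.2 fun k => ?_
  have h : ∀ᵐ u ∂expMeasure 1, 0 < u := by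
    rw [ae_iff]
    have := exp_Iic 0 le_rfl
    simp only [neg_zero, Real.exp_zero, sub_self, ENNReal.ofReal_zero] at this
    simpa [Set.Iic] using this
  exact (measurePreserving_eval_infinitePi (fun _ : ℕ => expMeasure 1) k).quasiMeasurePreserving.ae h

lemma psum_le_small {T : ℝ} (hT : 0 ≤ T) (n : ℕ) :
    oneClock {e | psum n e ≤ T} ≤ ENNReal.ofReal ((1 - Real.exp (-T)) ^ (n + 1)) := by
  have h0 : 0 ≤ 1 - Real.exp (-T) := by
    have := Real.exp_le_one_iff.2 (neg_nonpos.2 hT)
    linarith
  calc oneClock {e | psum n e ≤ T} ≤ oneClock (Set.pi (range (n + 1)) fun _ => Set.Iic T) := by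
        refine measure_mono_ae ?_
        filter_upwards [ae_pos] with e he h k hk
        exact (single_le_sum (fun j _ => (he j).le) hk).trans h
    _ = _ := by
        unfold oneClock
        rw [Measure.infinitePi_pi _ fun _ _ => measurableSet_Iic, prod_const, card_range,
          exp_Iic T hT, ENNReal.ofReal_pow h0]

lemma exists_psum_small {T : ℝ} (hT : 0 ≤ T) {ε : ℝ} (hε : 0 < ε) :
    ∃ M : ℕ, oneClock {e | psum M e ≤ T} ≤ ENNReal.ofReal ε := by
  have h0 : 0 ≤ 1 - Real.exp (-T) := by
    have := Real.exp_le_one_iff.2 (neg_nonpos.2 hT)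
    linarith
  have h1 : 1 - Real.exp (-T) < 1 := by linarith [Real.exp_pos (-T)]
  obtain ⟨M, hM⟩ := exists_pow_lt_of_lt_one hε h1
  refine ⟨M, (psum_le_small hT M).trans (ENNReal.ofReal_le_ofReal ?_)⟩
  exact (pow_le_pow_of_le_one h0 h1.le (Nat.le_succ M)).trans hM.le

lemma ae_unbounded : ∀ᵐ e ∂oneClock, ∀ t, ∃ n, t < psum n e := by
  have : ∀ᵐ e ∂oneClock, ∀ T : ℕ, ∃ n, (T : ℝ) < psum n e := by
    refine ae_all_iff.2 fun T => ?_
    rw [ae_iff]
    refine le_antisymm (ENNReal.le_of_forall_pos_le_add fun ε hε _ => ?_) zero_le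
    obtain ⟨M, hM⟩ := exists_psum_small (Nat.cast_nonneg T) (show (0 : ℝ) < ε from hε)
    rw [zero_add, ← ENNReal.ofReal_coe_nnreal]
    refine le_trans (measure_mono fun e he => ?_) hM
    simp only [Set.mem_ofPred_eq, not_exists, not_lt] at he ⊢
    exact he M
  filter_upwards [this] with e he t
  obtain ⟨T, hT⟩ := exists_nat_ge t
  obtain ⟨n, hn⟩ := he T
  exact ⟨n, hT.trans_lt hn⟩

lemma ae_regular : ∀ᵐ E ∂clockLaw, Regular E := by
  have : ∀ᵐ E ∂clockLaw, ∀ x, (∀ k, 0 < E x k) ∧ ∀ t, ∃ n, t < psum n (E x) :=
    ae_all_iff.2 fun x =>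
      (measurePreserving_eval_infinitePi (fun _ : Site => oneClock) x).quasiMeasurePreserving.ae
        (ae_pos.and ae_unbounded)
  filter_upwards [this] with E hE
  exact ⟨fun x => (hE x).1, fun x => (hE x).2⟩

lemma measurable_ring (x : Site) (n : ℕ) : Measurable fun E : Site → ℕ → ℝ => ring E x n :=
  (measurable_psum n).comp (measurable_pi_apply x)

lemma ae_distinct : ∀ᵐ E ∂clockLaw, ∀ x y, x ≠ y → ∀ n m, ring E x n ≠ ring E y m := by
  refine ae_all_iff.2 fun x => ae_all_iff.2 fun y => ?_
  by_cases h : x = y
  · simp [h]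
  simp only [ne_eq, h, not_false_eq_true, forall_const]
  refine ae_all_iff.2 fun n => ae_all_iff.2 fun m => ?_
  rw [ae_iff]
  simp only [not_not]
  refine le_antisymm ?_ zero_le
  refine infinitePi_le_of_update oneClock x
    (measurableSet_eq_fun (measurable_ring x n) (measurable_ring y m)) fun E => ?_
  have := psum_le_volume n (measurableSet_singleton (ring E y m))
  rw [Real.volume_singleton] at this
  refine le_trans (le_of_eq ?_) this
  congr 1
  ext e
  simp [ring, psum, Function.update_of_ne (Ne.symm h)]

/-- A ring in the time window `(t, t + δ]`. -/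
def window (t δ : ℝ) : Set (ℕ → ℝ) := {e | ∃ n, t < psum n e ∧ psum n e ≤ t + δ}

lemma measurableSet_window (t δ : ℝ) : MeasurableSet (window t δ) := by
  unfold window
  rw [Set.ofPred_exists]
  exact MeasurableSet.iUnion fun n => (measurable_psum n) measurableSet_Ioc

lemma window_small {T : ℝ} (hT : 0 ≤ T) {ε : ℝ} (hε : 0 < ε) : ∃ δ : ℝ, 0 < δ ∧
    ∀ t, t ≤ T → oneClock.real (window t δ) ≤ ε := by
  obtain ⟨M, hM⟩ := exists_psum_small (show 0 ≤ T + 1 by linarith) (half_pos hε)
  set δ := min 1 (ε / 2 / (M + 1)) with hδ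
  have hδ0 : 0 < δ := lt_min one_pos (by positivity)
  refine ⟨δ, hδ0, fun t ht => ?_⟩
  refine ENNReal.toReal_le_of_le_ofReal hε.le ?_
  calc oneClock (window t δ) ≤ oneClock ({e | psum M e ≤ T + 1} ∪
        ⋃ n ∈ range M, {e | psum n e ∈ Set.Ioc t (t + δ)}) := by
        refine measure_mono_ae ?_
        filter_upwards [ae_pos] with e he
        rintro ⟨n, h1, h2⟩
        by_cases hn : n < M
        · exact Or.inr (Set.mem_biUnion (mem_coe.2 (mem_range.2 hn)) ⟨h1, h2⟩)
        · left
          have : psum M e ≤ psum n e :=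
            sum_le_sum_of_subset_of_nonneg (range_subset_range.2 (by omega))
              fun k _ _ => (he k).le
          have := min_le_left 1 (ε / 2 / (M + 1))
          simp only [Set.mem_ofPred_eq]
          linarith
    _ ≤ ENNReal.ofReal (ε / 2) + ∑ _n ∈ range M, ENNReal.ofReal δ := by
        refine (measure_union_le _ _).trans (add_le_add hM ((measure_biUnion_finset_le _ _).trans
          (sum_le_sum fun n _ => (psum_le_volume n measurableSet_Ioc).trans ?_)))
        simp
    _ ≤ ENNReal.ofReal ε := by
        rw [← ENNReal.ofReal_sum_of_nonneg fun _ _ => hδ0.le,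
          ← ENNReal.ofReal_add (by positivity) (sum_nonneg fun _ _ => hδ0.le)]
        refine ENNReal.ofReal_le_ofReal ?_
        have h1 : δ ≤ ε / 2 / (M + 1) := min_le_right _ _
        rw [le_div_iff₀ (by positivity)] at h1
        simp only [sum_const, card_range, nsmul_eq_mul]
        nlinarith

lemma measurable_run (L : List (Site × ℕ)) (τ : Config) :
    ∀ F : Config → ℝ, Measurable fun U => F (run U L τ) := by
  induction L with
  | nil => exact fun F => measurable_const (a := F τ)
  | cons r L ih =>
    intro F
    have : (fun U => F (run U (r :: L) τ)) = fun U : Site × ℕ → ℝ =>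
        if U r < plusProb betaC (nbrSum (run U L τ) r.1) then
          F (Function.update (run U L τ) r.1 true)
        else F (Function.update (run U L τ) r.1 false) := by
      funext U
      simp only [run, upd]
      split_ifs with h <;> simp [h]
    rw [this]
    exact Measurable.ite (measurableSet_lt (measurable_pi_apply r)
      (ih fun ξ => plusProb betaC (nbrSum ξ r.1))) (ih fun ξ => F (Function.update ξ r.1 true))
      (ih fun ξ => F (Function.update ξ r.1 false))

lemma run_update {r : Site × ℕ} {L : List (Site × ℕ)} (h : r ∉ L) (U : Site × ℕ → ℝ) (u : ℝ)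
    (τ : Config) : run (Function.update U r u) L τ = run U L τ := by
  induction L with
  | nil => rfl
  | cons s L ih =>
    simp only [run]
    rw [ih fun h' => h (List.mem_cons_of_mem _ h'),
      Function.update_of_ne fun e : s = r => h (e ▸ List.mem_cons_self)]

lemma integral_upd (x : Site) (F : Config → ℝ) (ξ : Config) :
    ∫ u, F (upd x u ξ) ∂(volume.restrict (Set.Icc (0 : ℝ) 1)) = heat x F ξ := by
  set p := plusProb betaC (nbrSum ξ x) with hp
  have h0 : 0 ≤ p := plusProb_nonneg _ _
  have h1 : p ≤ 1 := plusProb_le_one _ _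
  have : (fun u => F (upd x u ξ)) = fun u => (Set.Iio p).indicator
      (fun _ => F (Function.update ξ x true) - F (Function.update ξ x false)) u +
        F (Function.update ξ x false) := by
    funext u
    by_cases h : u < p <;> simp [upd, ← hp, h, Set.indicator]
  rw [this, integral_add ((integrable_const _).indicator measurableSet_Iio) (integrable_const _),
    integral_indicator_const _ measurableSet_Iio, integral_const]
  have e : Set.Iio p ∩ Set.Icc 0 1 = Set.Ico 0 p := by
    ext u
    simp only [Set.mem_inter_iff, Set.mem_Iio, Set.mem_Icc, Set.mem_Ico]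
    exact ⟨fun h => ⟨h.2.1, h.1⟩, fun h => ⟨h.2, h.1, h.2.le.trans h1⟩⟩
  rw [measureReal_restrict_apply measurableSet_Iio, e]
  simp [heat, ← hp, h0]
  ring

lemma integrable_run (L : List (Site × ℕ)) (τ : Config) {F : Config → ℝ} (hF : ∀ ξ, |F ξ| ≤ 1) :
    Integrable (fun U => F (run U L τ)) unifLaw :=
  Integrable.of_bound (measurable_run L τ F).aestronglyMeasurable 1
    (Eventually.of_forall fun _ => hF _)

lemma integral_run_cons {r : Site × ℕ} {L : List (Site × ℕ)} (h : r ∉ L) (τ : Config)
    {F : Config → ℝ} (hF : ∀ ξ, |F ξ| ≤ 1) :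
    ∫ U, F (run U (r :: L) τ) ∂unifLaw = ∫ U, heat r.1 F (run U L τ) ∂unifLaw := by
  have hm := measurable_run (r :: L) τ F
  have e := infinitePi_update (volume.restrict (Set.Icc (0 : ℝ) 1)) r
  unfold unifLaw
  conv_lhs => rw [← e]
  rw [integral_map measurable_update'.aemeasurable hm.aestronglyMeasurable, integral_prod]
  · refine integral_congr_ae (Eventually.of_forall fun U => ?_)
    simp only [run, run_update h, Function.update_self]
    exact integral_upd _ _ _
  · exact Integrable.of_bound (hm.comp measurable_update').aestronglyMeasurable 1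
      (Eventually.of_forall fun _ => hF _)

lemma abs_heat_le (x : Site) {F : Config → ℝ} (hF : ∀ ξ, |F ξ| ≤ 1) (ξ : Config) :
    |heat x F ξ| ≤ 1 := by
  have h0 := plusProb_nonneg betaC (nbrSum ξ x)
  have h1 := plusProb_le_one betaC (nbrSum ξ x)
  have a := abs_le.1 (hF (Function.update ξ x true))
  have b := abs_le.1 (hF (Function.update ξ x false))
  unfold heat
  rw [abs_le]
  constructor <;> nlinarith

/-- The plus state of `Λ` is invariant under heat-bath updates with fresh uniform variables. -/
lemma pavg_run {Λ : Finset Site} (L : List (Site × ℕ)) (hL : L.Nodup) (hΛ : ∀ r ∈ L, r.1 ∈ Λ) :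
    ∀ F : Config → ℝ, (∀ ξ, |F ξ| ≤ 1) →
      pavg Λ (fun τ => ∫ U, F (run U L τ) ∂unifLaw) = pavg Λ F := by
  induction L with
  | nil => intro F _; simp [run]
  | cons r L ih =>
    intro F hF
    rw [List.nodup_cons] at hL
    simp only [integral_run_cons hL.1 _ hF]
    rw [ih hL.2 (fun s hs => hΛ s (List.mem_cons_of_mem _ hs)) _ (abs_heat_le _ hF),
      pavg_heat (hΛ r List.mem_cons_self)]

end

end Pool.Agent.MP_cb84d8_pr
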