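import Mathlib.Probability.ProductMeasure
import Mathlib.Probability.Distributions.Exponential

/-!
The Ising model on the square lattice, its Gibbs measures and the heat-bath Glauber dynamics.
-/

open MeasureTheory ProbabilityTheory

namespace Pool.Agent.MP_cb84d8_pr

noncomputable section
open Classical

/-- Sites of the square lattice. -/
abbrev Site := ℤ × ℤ

/-- Spin configurations: `true` is the spin `+1`, `false` is the spin `-1`. -/
abbrev Config := Site → Bool

/-- The value `±1` of a spin. -/
def spin (b : Bool) : ℝ := if b = true then 1 else -1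

/-- Nearest-neighbour adjacency in `ℤ²`. -/
def Adj (x y : Site) : Prop := |x.1 - y.1| + |x.2 - y.2| = 1

/-- The critical inverse temperature `log (1 + √2) / 2`. -/
def betaC : ℝ := Real.log (1 + √2) / 2

/-- Edges of `ℤ²`: `(x, false)` joins `x` to `x + (1, 0)`, and `(x, true)` joins `x` to
`x + (0, 1)`. -/
abbrev Edge := Site × Bool

/-- The second endpoint of an edge. -/
def tip (e : Edge) : Site := if e.2 = true then (e.1.1, e.1.2 + 1) else (e.1.1 + 1, e.1.2)

/-- The product of the two spins at the endpoints of an edge. -/
def bond (σ : Config) (e : Edge) : ℝ := spin (σ e.1) * spin (σ (tip e))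

/-- The four edges at a site. -/
def star (x : Site) : Finset Edge :=
  {(x, false), (x, true), ((x.1 - 1, x.2), false), ((x.1, x.2 - 1), true)}

/-- The edges with at least one endpoint in `Λ`. -/
def touching (Λ : Finset Site) : Finset Edge := Λ.biUnion star

/-- The Boltzmann weight `exp (β ∑ σ(x) σ(y))`, the sum running over the edges in `F`. -/
def weight (β : ℝ) (F : Finset Edge) (σ : Config) : ℝ := Real.exp (β * ∑ e ∈ F, bond σ e)

/-- The configurations that agree with `τ` outside the finite set `Λ`. -/
def fill (Λ : Finset Site) (τ : Config) : Finset Config :=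
  Λ.powerset.image fun S x => if x ∈ Λ then decide (x ∈ S) else τ x

/-- The mean of `f` over the configurations that agree with `τ` outside `Λ`, for the Boltzmann
weight of the edge set `F`. -/
def avg (β : ℝ) (F : Finset Edge) (Λ : Finset Site) (τ : Config) (f : Config → ℝ) : ℝ :=
  (∑ σ ∈ fill Λ τ, weight β F σ * f σ) / ∑ σ ∈ fill Λ τ, weight β F σ

/-- Gibbs measures of the Ising model at inverse temperature `β`: probability measures that obey
the DLR equations in every finite volume `Λ`. -/
def IsGibbs (β : ℝ) (μ : Measure Config) : Prop :=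
  IsProbabilityMeasure μ ∧ ∀ (Λ : Finset Site) (A : Set Config), MeasurableSet A →
    μ A = ∫⁻ τ, ENNReal.ofReal (avg β (touching Λ) Λ τ (A.indicator 1)) ∂μ

/-- The sum of the four spins next to `x`. -/
def nbrSum (σ : Config) (x : Site) : ℝ :=
  spin (σ (x.1 + 1, x.2)) + spin (σ (x.1 - 1, x.2)) + spin (σ (x.1, x.2 + 1)) +
    spin (σ (x.1, x.2 - 1))

/-- The heat-bath probability of the spin `+1` when the neighbouring spins sum to `S`. -/
def plusProb (β S : ℝ) : ℝ := Real.exp (β * S) / (Real.exp (β * S) + Real.exp (-(β * S)))

/-- The time of ring number `n` (from `0`) of the clock at `x`, given the waiting times `E`. -/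
def ring (E : Site → ℕ → ℝ) (x : Site) (n : ℕ) : ℝ := ∑ k ∈ Finset.range (n + 1), E x k

/-- `σ` is a path of the heat-bath dynamics with initial state `σ₀`, waiting times `E` and update
variables `U`: the spin at `x` is `σ₀ x` until the first ring at `x`, and from ring number `n` to
the next one it is `+1` exactly when `U (x, n)` is below the heat-bath probability computed from
the neighbouring spins at the time of the ring. -/
def IsPath (β : ℝ) (σ₀ : Config) (E : Site → ℕ → ℝ) (U : Site × ℕ → ℝ) (σ : ℝ → Config) : Prop :=
  ∀ x : Site, (∀ t, 0 ≤ t → t < ring E x 0 → σ t x = σ₀ x) ∧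
    ∀ (n : ℕ) (t : ℝ), ring E x n ≤ t → t < ring E x (n + 1) →
      (σ t x = true ↔ U (x, n) < plusProb β (nbrSum (σ (ring E x n)) x))

/-- Independent exponential waiting times of rate one: independent rate-one Poisson clocks. -/
def clockLaw : Measure (Site → ℕ → ℝ) :=
  Measure.infinitePi fun _ => Measure.infinitePi fun _ => expMeasure 1

/-- Independent uniform variables on `[0, 1]`, one for each ring of each clock. -/
def unifLaw : Measure (Site × ℕ → ℝ) :=
  Measure.infinitePi fun _ => volume.restrict (Set.Icc 0 1)

/-- `σ` has an infinite nearest-neighbour cluster of `+` spins. -/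
def HasInfinitePlusCluster (σ : Config) : Prop :=
  ∃ x, σ x = true ∧
    {y | Relation.ReflTransGen (fun a b => Adj a b ∧ σ a = true ∧ σ b = true) x y}.Infinite

end

end Pool.Agent.MP_cb84d8_pr
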