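import Mathlib.MeasureTheory.Measure.RegularityCompacts
import Mathlib.Topology.UniformSpace.Uniformizable
import Pool.Agent.MP_cb84d8_pr.Clocks

/-!
No exceptional times for the critical Glauber dynamics.
-/

open Finset Filter Topology MeasureTheory ProbabilityTheory
open scoped ENNReal

namespace Pool.Agent.MP_cb84d8_pr

noncomputable section
open Classical

lemma measurable_cut (Λ : Finset Site) : Measurable (cut Λ) := by
  refine measurable_pi_lambda _ fun x => ?_
  unfold cut
  split_ifs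
  · exact measurable_pi_apply x
  · exact measurable_const

lemma measurableSet_run (L : List (Site × ℕ)) (τ : Config) (A : Config → Prop) :
    MeasurableSet {U | A (run U L τ)} := by
  have := measurable_run L τ (fun ξ => if A ξ then 1 else 0) (measurableSet_singleton 1)
  convert this using 1
  ext U
  simp

lemma measurableSet_run_cut (Λ : Finset Site) (L : List (Site × ℕ)) (A : Config → Prop) :
    MeasurableSet {p : Config × (Site × ℕ → ℝ) | A (run p.2 L (cut Λ p.1))} := by
  have : {p : Config × (Site × ℕ → ℝ) | A (run p.2 L (cut Λ p.1))} =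
      ⋃ ξ ∈ fill Λ ⊤, (cut Λ ⁻¹' {ξ}) ×ˢ {U | A (run U L ξ)} := by
    ext p
    simp only [Set.mem_ofPred_eq, Set.mem_iUnion, Set.mem_prod, Set.mem_preimage,
      Set.mem_singleton_iff]
    exact ⟨fun h => ⟨_, cut_mem Λ p.1, rfl, h⟩, fun ⟨ξ, _, h1, h2⟩ => h1 ▸ h2⟩
  rw [this]
  exact Finset.measurableSet_biUnion _ fun ξ _ =>
    (measurable_cut Λ (measurableSet_singleton ξ)).prod (measurableSet_run L ξ A)

lemma gibbs_run_le {μ : Measure Config} (hμ : IsGibbs betaC μ) {Λ : Finset Site}
    {L : List (Site × ℕ)} (hL : L.Nodup) (hΛ : ∀ r ∈ L, r.1 ∈ Λ) {A : Config → Prop}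
    (hA : ∀ a b, a ≤ b → A a → A b) :
    μ.prod unifLaw {p | A (run p.2 L (cut Λ p.1))} ≤
      ENNReal.ofReal (pavg Λ fun σ => if A σ then 1 else 0) := by
  have := hμ.1
  have hm := measurableSet_run_cut Λ L A
  rw [Measure.prod_apply_symm hm]
  have hF : ∀ ξ, |(fun σ => if A σ then (1 : ℝ) else 0) ξ| ≤ 1 := fun ξ => by
    simp only; split_ifs <;> simp
  have step : ∀ U, μ ((fun x => (x, U)) ⁻¹' {p | A (run p.2 L (cut Λ p.1))}) ≤
      ENNReal.ofReal (pavg Λ fun τ => if A (run U L τ) then 1 else 0) := by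
    intro U
    rw [hμ.2 Λ _ (measurable_prodMk_right hm)]
    refine (lintegral_mono fun τ => ENNReal.ofReal_le_ofReal
      (avg_le_plus betaC_pos.le τ subset_rfl subset_rfl ?_)).trans ?_
    · intro a b hab
      simp only [Set.indicator, Set.mem_preimage, Set.mem_ofPred_eq, Pi.one_apply]
      split_ifs with h1 h2
      · exact le_rfl
      · exact absurd (hA _ _ (run_mono U L (cut_mono Λ hab)) h1) h2
      · exact zero_le_one
      · exact le_rfl
    · rw [lintegral_const, measure_univ, mul_one]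
      refine ENNReal.ofReal_le_ofReal (le_of_eq (avg_congr fun σ hσ => ?_))
      simp only [Set.indicator, Set.mem_preimage, Set.mem_ofPred_eq, Pi.one_apply, cut_of_mem hσ]
  refine (lintegral_mono step).trans (le_of_eq ?_)
  have hint : ∀ τ, Integrable (fun U => weight betaC (touching Λ) τ *
      (if A (run U L τ) then (1 : ℝ) else 0)) unifLaw :=
    fun τ => (integrable_run L τ hF).const_mul _
  rw [← ofReal_integral_eq_lintegral_ofReal, ← pavg_run L hL hΛ _ hF]
  · unfold pavg avg
    rw [integral_div, integral_finsetSum _ fun τ _ => hint τ]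
    simp only [integral_const_mul]
  · unfold pavg avg
    exact (integrable_finsetSum _ fun τ _ => hint τ).div_const _
  · exact Eventually.of_forall fun U => avg_nonneg fun _ _ => by split_ifs <;> norm_num

lemma measurableSet_listFor (Λ : Finset Site) (t : ℝ) (L : List (Site × ℕ)) :
    MeasurableSet {E | ListFor Λ E t L} := by
  have h1 : MeasurableSet
      {E : Site → ℕ → ℝ | L.Pairwise fun r s => ring E s.1 s.2 < ring E r.1 r.2} := by
    induction L with
    | nil => simp
    | cons a L ih =>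
      simp only [List.pairwise_cons, Set.ofPred_and, Set.ofPred_forall]
      exact (MeasurableSet.iInter fun r => MeasurableSet.iInter fun _ =>
        measurableSet_lt (measurable_ring _ _) (measurable_ring _ _)).inter ih
  have h2 : ∀ r : Site × ℕ,
      MeasurableSet {E : Site → ℕ → ℝ | r ∈ L ↔ r.1 ∈ Λ ∧ ring E r.1 r.2 ≤ t} := by
    intro r
    have := measurableSet_le (measurable_ring r.1 r.2) (measurable_const (a := t))
    by_cases a : r ∈ L <;> by_cases b : r.1 ∈ Λ <;>
      simp only [a, b, true_iff, false_iff, true_and, false_and,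
        Set.ofPred_true, Set.ofPred_false, MeasurableSet.univ, MeasurableSet.empty]
    · exact this
    · exact this.compl
  unfold ListFor
  simp only [Set.ofPred_and, Set.ofPred_forall]
  exact h1.inter (MeasurableSet.iInter h2)

/-- The clocks in `Λ` that ring in the window are those of `ζ`. -/
def ringSet (Λ ζ : Finset Site) (t δ : ℝ) : Set (Site → ℕ → ℝ) :=
  Set.pi Λ fun x => if x ∈ ζ then window t δ else (window t δ)ᶜ

lemma measurableSet_ringSet (Λ ζ : Finset Site) (t δ : ℝ) : MeasurableSet (ringSet Λ ζ t δ) :=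
  MeasurableSet.pi Λ.countable_toSet fun x _ => by
    split_ifs
    exacts [measurableSet_window t δ, (measurableSet_window t δ).compl]

lemma clock_ringSet {Λ ζ : Finset Site} (h : ζ ⊆ Λ) (t δ : ℝ) :
    clockLaw (ringSet Λ ζ t δ) = ENNReal.ofReal ((∏ _x ∈ ζ, oneClock.real (window t δ)) *
      ∏ _x ∈ Λ \ ζ, (1 - oneClock.real (window t δ))) := by
  have hw := measurableSet_window t δ
  rw [clockLaw_eq, ringSet, Measure.infinitePi_pi _ fun x _ => by
    split_ifs
    exacts [hw, hw.compl], ← prod_sdiff h, mul_comm,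
    ENNReal.ofReal_mul (prod_nonneg fun _ _ => measureReal_nonneg),
    ENNReal.ofReal_prod_of_nonneg fun _ _ => measureReal_nonneg,
    ENNReal.ofReal_prod_of_nonneg fun _ _ => sub_nonneg.2 measureReal_le_one]
  congr 1
  · exact prod_congr rfl fun x hx => by rw [if_pos hx, ofReal_measureReal]
  · refine prod_congr rfl fun x hx => ?_
    rw [if_neg (mem_sdiff.1 hx).2, ← probReal_compl_eq_one_sub hw, ofReal_measureReal]

/-- Some path has an infinite plus cluster meeting the box of size `m` in the time window. -/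
def badWindow (m : ℤ) (t δ : ℝ) : Set ((Site → ℕ → ℝ) × Config × (Site × ℕ → ℝ)) :=
  {ω | Regular ω.1 ∧ (∀ x y, x ≠ y → ∀ n m, ring ω.1 x n ≠ ring ω.1 y m) ∧
    ∃ σ, IsPath betaC ω.2.1 ω.1 ω.2.2 σ ∧ ∃ s, t ≤ s ∧ s ≤ t + δ ∧ ∃ x ∈ box m,
      {y | Relation.ReflTransGen (fun a b => Adj a b ∧ σ s a = true ∧ σ s b = true) x y}.Infinite}

lemma badWindow_subset {m N : ℤ} (h : m ≤ N) {t : ℝ} (ht : 0 ≤ t) (δ : ℝ) :
    badWindow m t δ ⊆ ⋃ ζ ∈ (box N).powerset, ⋃ L : List (Site × ℕ),
      ({E | ListFor (box N) E t L} ∩ ringSet (box N) ζ t δ) ×ˢ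
        {p | crossing (fun a => run p.2 L (cut (box N) p.1) a = true ∨ a ∈ ζ) m N} := by
  rintro ⟨E, σ₀, U⟩ ⟨hE, hd, σ, hσ, s, hs1, hs2, x, hx, hinf⟩
  obtain ⟨L, hL⟩ := exists_listFor hE hd (box N) t
  simp only [Set.mem_iUnion, Set.mem_prod, Set.mem_inter_iff, Set.mem_ofPred_eq]
  refine ⟨(box N).filter fun x => E x ∈ window t δ, mem_powerset.2 (filter_subset _ _), L,
    ⟨hL, fun x hx => ?_⟩, ?_⟩
  · by_cases hw : E x ∈ window t δ <;> simp [mem_coe.1 hx, hw]
  · obtain ⟨y, hy, hy'⟩ := hinf.exists_notMem_finset (box N)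
    refine crossing_of_path h hx hy' (rtg_mono ?_ hy)
    have key : ∀ a, σ s a = true → run U L (cut (box N) σ₀) a = true ∨
        a ∈ (box N).filter fun x => E x ∈ window t δ := by
      intro a ha
      by_cases hb : a ∈ box N
      · by_cases hw : E a ∈ window t δ
        · exact Or.inr (mem_filter.2 ⟨hb, hw⟩)
        · left
          have := hσ.no_ring hE ht hs1 (x := a) fun n hn => hw ⟨n, hn.1, hn.2.trans hs2⟩
          exact Bool.le_iff_imp.1 (hσ.le_run hE _ L t ht hL a) (this ▸ ha)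
      · left
        rw [run_out U fun r hr (e : r.1 = a) => hb (e ▸ ((hL.2 r).1 hr).1)]
        simp [cut, hb]
    exact fun a b hab => ⟨hab.1, key a hab.2.1, key b hab.2.2⟩

lemma badWindow_null {μ : Measure Config} (hμ : IsGibbs betaC μ) {m : ℤ} (hm : 0 ≤ m) {t δ : ℝ}
    (ht : 0 ≤ t) (hδ : oneClock.real (window t δ) ≤ eps0) :
    clockLaw.prod (μ.prod unifLaw) (badWindow m t δ) = 0 := by
  have := hμ.1
  refine le_antisymm (ENNReal.le_of_forall_pos_le_add fun ε hε _ => ?_) zero_le
  obtain ⟨N, hN, hb⟩ := static_bound hm (show (0 : ℝ) < ε from hε)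
  have hb' := hb (fun _ => oneClock.real (window t δ)) fun _ => ⟨measureReal_nonneg, hδ⟩
  rw [zero_add, ← ENNReal.ofReal_coe_nnreal]
  refine (measure_mono (badWindow_subset hN ht δ)).trans
    ((measure_biUnion_finset_le _ _).trans (le_trans ?_ (ENNReal.ofReal_le_ofReal hb')))
  set c : Finset Site → ℝ := fun ζ => pavg (box N) fun σ =>
    if crossing (fun a => σ a = true ∨ a ∈ ζ) m N then 1 else 0 with hc
  have hc0 : ∀ ζ, 0 ≤ c ζ := fun ζ => avg_nonneg fun _ _ => by split_ifs <;> norm_num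
  have hw : ∀ ζ : Finset Site, 0 ≤ (∏ _x ∈ ζ, oneClock.real (window t δ)) *
      ∏ _x ∈ box N \ ζ, (1 - oneClock.real (window t δ)) := fun ζ =>
    mul_nonneg (prod_nonneg fun _ _ => measureReal_nonneg)
      (prod_nonneg fun _ _ => sub_nonneg.2 measureReal_le_one)
  have e : pavg (box N) (fun σ => ber (fun _ => oneClock.real (window t δ)) (box N) fun ζ =>
      if crossing (fun a => σ a = true ∨ a ∈ ζ) m N then 1 else 0) =
      ∑ ζ ∈ (box N).powerset, ((∏ _x ∈ ζ, oneClock.real (window t δ)) *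
        ∏ _x ∈ box N \ ζ, (1 - oneClock.real (window t δ))) * c ζ := by
    unfold pavg ber
    rw [avg_sum]
    exact sum_congr rfl fun ζ _ => avg_const_mul _
  rw [e, ENNReal.ofReal_sum_of_nonneg fun ζ _ => mul_nonneg (hw ζ) (hc0 ζ)]
  refine sum_le_sum fun ζ hζ => ?_
  rw [ENNReal.ofReal_mul (hw ζ), ← clock_ringSet (mem_powerset.1 hζ)]
  refine (measure_iUnion_le _).trans ?_
  calc _ ≤ ∑' L : List (Site × ℕ), clockLaw ({E | ListFor (box N) E t L} ∩ ringSet (box N) ζ t δ) *
        ENNReal.ofReal (c ζ) := by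
        refine ENNReal.tsum_le_tsum fun L => ?_
        rw [Measure.prod_prod]
        rcases ({E | ListFor (box N) E t L} ∩ ringSet (box N) ζ t δ).eq_empty_or_nonempty with
          h | ⟨E, hE, -⟩
        · simp [h]
        · refine mul_le_mul_right (gibbs_run_le hμ (ListFor.nodup hE)
            (fun r hr => ((hE.2 r).1 hr).1) (A := fun σ =>
              crossing (fun a => σ a = true ∨ a ∈ ζ) m N) fun a b hab h => ?_) _
          exact h.mono fun x _ hx => hx.imp (Bool.le_iff_imp.1 (hab x)) id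
    _ ≤ _ := by
        rw [ENNReal.tsum_mul_right, ← measure_iUnion]
        · exact mul_le_mul_left (measure_mono (Set.iUnion_subset fun L => Set.inter_subset_right)) _
        · intro L L' hLL'
          exact Set.disjoint_left.2 fun E h1 h2 => hLL' (ListFor.unique h1.1 h2.1)
        · exact fun L => (measurableSet_listFor _ _ _).inter (measurableSet_ringSet _ _ _ _)

lemma ae_clock {μ : Measure Config} [IsProbabilityMeasure μ] :
    ∀ᵐ ω ∂clockLaw.prod (μ.prod unifLaw),
      Regular ω.1 ∧ ∀ x y, x ≠ y → ∀ n m, ring ω.1 x n ≠ ring ω.1 y m :=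
  Measure.quasiMeasurePreserving_fst.ae (ae_regular.and ae_distinct)

theorem no_exceptional_times {μ : Measure Config} (hμ : IsGibbs betaC μ) :
    ∀ᵐ ω ∂clockLaw.prod (μ.prod unifLaw), ∀ σ, IsPath betaC ω.2.1 ω.1 ω.2.2 σ →
      ∀ t, 0 ≤ t → ¬ HasInfinitePlusCluster (σ t) := by
  have := hμ.1
  choose δ hδ0 hδ using fun T : ℕ => window_small (Nat.cast_nonneg T) eps0_pos
  have h1 : ∀ᵐ ω ∂clockLaw.prod (μ.prod unifLaw), ∀ (T k m : ℕ), k * δ T ≤ T →
      ω ∉ badWindow m (k * δ T) (δ T) := by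
    refine ae_all_iff.2 fun T => ae_all_iff.2 fun k => ae_all_iff.2 fun m => ?_
    by_cases h : k * δ T ≤ T
    · simp only [h, forall_const]
      exact measure_eq_zero_iff_ae_notMem.1 (badWindow_null hμ (Int.natCast_nonneg m)
        (mul_nonneg (Nat.cast_nonneg k) (hδ0 T).le) (hδ T _ h))
    · simp [h]
  filter_upwards [h1, ae_clock] with ω hω hreg σ hσ t ht
  rintro ⟨x, -, hx⟩
  obtain ⟨T, hT⟩ := exists_nat_ge t
  have hd := hδ0 T
  have a : (⌊t / δ T⌋₊ : ℝ) * δ T ≤ t := by
    rw [← le_div_iff₀ hd]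
    exact Nat.floor_le (by positivity)
  have b : t ≤ (⌊t / δ T⌋₊ : ℝ) * δ T + δ T := by
    have := Nat.lt_floor_add_one (t / δ T)
    rw [div_lt_iff₀ hd] at this
    linarith
  refine hω T ⌊t / δ T⌋₊ (x.1.natAbs + x.2.natAbs) (a.trans hT)
    ⟨hreg.1, hreg.2, σ, hσ, t, a, b, x, ?_, hx⟩
  rw [mem_box]
  omega

theorem ae_exists_path {μ : Measure Config} (hμ : IsGibbs betaC μ) :
    ∀ᵐ ω ∂clockLaw.prod (μ.prod unifLaw), ∃ σ, IsPath betaC ω.2.1 ω.1 ω.2.2 σ := by
  have := hμ.1
  filter_upwards [ae_clock] with ω hω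
  exact exists_path betaC_pos.le _ hω.1 _

end

end Pool.Agent.MP_cb84d8_pr
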