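import Mathlib.MeasureTheory.Measure.Prokhorov
import Mathlib.Topology.Connected.Separation
import Mathlib.Topology.Separation.Lemmas
import Pool.Agent.MP_cb84d8_pr.Main

/-!
Existence of a Gibbs measure, as a limit point of finite-volume plus states.
-/

open Finset Filter Topology MeasureTheory ProbabilityTheory
open scoped ENNReal NNReal BoundedContinuousFunction

namespace Pool.Agent.MP_cb84d8_pr

noncomputable section
open Classical

lemma fill_eq_of_mem {Λ : Finset Site} {τ σ : Config} (h : σ ∈ fill Λ τ) : fill Λ σ = fill Λ τ := by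
  ext ξ
  rw [mem_fill] at h
  simp only [mem_fill]
  exact forall₂_congr fun x hx => by rw [h x hx]

lemma avg_avg (β : ℝ) (F : Finset Edge) {Λ Λ' : Finset Site} (h : Λ ⊆ Λ') (τ₀ : Config)
    (f : Config → ℝ) : avg β F Λ' τ₀ (fun τ => avg β F Λ τ f) = avg β F Λ' τ₀ f := by
  unfold avg
  congr 1
  simp only [sum_div, mul_sum]
  rw [sum_comm' (t' := fill Λ' τ₀) (s' := fun σ => fill Λ σ)]
  · refine sum_congr rfl fun σ _ => ?_
    rw [sum_congr rfl (g := fun τ => weight β F τ *
      (weight β F σ * f σ / ∑ ξ ∈ fill Λ σ, weight β F ξ)) fun τ hτ => by rw [fill_eq_of_mem hτ],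
      ← sum_mul, mul_div_cancel₀ _ (Z_pos _ _ _ _).ne']
  · intro τ σ
    simp only [mem_fill]
    constructor
    · rintro ⟨h1, h2⟩
      exact ⟨fun x hx => (h2 x hx).symm, fun x hx => (h2 x fun h' => hx (h h')).trans (h1 x hx)⟩
    · rintro ⟨h1, h2⟩
      exact ⟨fun x hx => (h1 x fun h' => hx (h h')).trans (h2 x hx), fun x hx => (h1 x hx).symm⟩

/-- The configuration that is plus on `S`, minus on the rest of `Λ` and `τ` elsewhere. -/
def glue (Λ S : Finset Site) (τ : Config) : Config :=
  fun x => if x ∈ Λ then decide (x ∈ S) else τ x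

lemma sum_fill (Λ : Finset Site) (τ : Config) (g : Config → ℝ) :
    ∑ σ ∈ fill Λ τ, g σ = ∑ S ∈ Λ.powerset, g (glue Λ S τ) := by
  unfold fill
  refine sum_image fun S hS T hT h => ?_
  simp only [coe_powerset, Set.mem_preimage, Set.mem_powerset_iff, coe_subset] at hS hT
  ext x
  by_cases hx : x ∈ Λ
  · have := congrFun h x
    simpa [hx] using this
  · exact ⟨fun h' => absurd (hS h') hx, fun h' => absurd (hT h') hx⟩

lemma continuous_glue (Λ S : Finset Site) : Continuous (glue Λ S) := by
  refine continuous_pi fun x => ?_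
  unfold glue
  split_ifs
  · exact continuous_const
  · exact continuous_apply x

lemma continuous_weight (β : ℝ) (F : Finset Edge) : Continuous (weight β F) := by
  have : ∀ x, Continuous fun σ : Config => spin (σ x) :=
    fun x => (continuous_of_discreteTopology (f := spin)).comp (continuous_apply x)
  unfold weight bond
  exact Real.continuous_exp.comp (continuous_const.mul
    (continuous_finsetSum _ fun e _ => (this _).mul (this _)))

lemma continuous_avg (β : ℝ) (F : Finset Edge) (Λ : Finset Site) {f : Config → ℝ}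
    (hf : Continuous f) : Continuous fun τ => avg β F Λ τ f := by
  have h0 : ∀ τ, ∑ S ∈ Λ.powerset, weight β F (glue Λ S τ) ≠ 0 := fun τ => by
    rw [← sum_fill]; exact (Z_pos _ _ _ _).ne'
  unfold avg
  simp only [sum_fill]
  exact (continuous_finsetSum _ fun S _ => ((continuous_weight β F).comp
    (continuous_glue Λ S)).mul (hf.comp (continuous_glue Λ S))).div
    (continuous_finsetSum _ fun S _ => (continuous_weight β F).comp (continuous_glue Λ S)) h0

lemma measurable_avg (β : ℝ) (F : Finset Edge) (Λ : Finset Site) {f : Config → ℝ}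
    (hf : Measurable f) : Measurable fun τ => avg β F Λ τ f := by
  unfold avg
  simp only [sum_fill]
  exact (Finset.measurable_sum _ fun S _ => ((continuous_weight β F).comp
    (continuous_glue Λ S)).measurable.mul (hf.comp (continuous_glue Λ S).measurable)).div
    (Finset.measurable_sum _ fun S _ =>
      ((continuous_weight β F).comp (continuous_glue Λ S)).measurable)

/-- The finite-volume Gibbs measure with boundary condition `τ`. -/
def gam (β : ℝ) (Λ : Finset Site) (τ : Config) : Measure Config :=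
  ∑ σ ∈ fill Λ τ, ENNReal.ofReal (weight β (touching Λ) σ /
    ∑ ξ ∈ fill Λ τ, weight β (touching Λ) ξ) • Measure.dirac σ

lemma lintegral_gam (β : ℝ) (Λ : Finset Site) (τ : Config) {f : Config → ℝ} (hf : Measurable f)
    (h0 : ∀ σ, 0 ≤ f σ) :
    ∫⁻ σ, ENNReal.ofReal (f σ) ∂gam β Λ τ = ENNReal.ofReal (avg β (touching Λ) Λ τ f) := by
  have hw : ∀ σ, 0 ≤ weight β (touching Λ) σ / ∑ ξ ∈ fill Λ τ, weight β (touching Λ) ξ :=
    fun σ => div_nonneg (weight_pos _ _ _).le (Z_pos _ _ _ _).le
  unfold gam avg
  rw [lintegral_finsetSum_measure, sum_div, ENNReal.ofReal_sum_of_nonneg fun σ _ =>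
    div_nonneg (mul_nonneg (weight_pos _ _ _).le (h0 σ)) (Z_pos _ _ _ _).le]
  refine sum_congr rfl fun σ _ => ?_
  rw [lintegral_smul_measure, lintegral_dirac' _ hf.ennreal_ofReal, smul_eq_mul,
    ← ENNReal.ofReal_mul (hw σ)]
  congr 1
  ring

lemma gam_apply (β : ℝ) (Λ : Finset Site) (τ : Config) {A : Set Config} (hA : MeasurableSet A) :
    gam β Λ τ A = ENNReal.ofReal (avg β (touching Λ) Λ τ (A.indicator 1)) := by
  rw [← lintegral_gam β Λ τ (measurable_one.indicator hA)
    (fun σ => Set.indicator_nonneg (fun _ _ => zero_le_one) σ), ← lintegral_indicator_one hA]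
  congr 1
  funext σ
  by_cases h : σ ∈ A <;> simp [h]

instance (β : ℝ) (Λ : Finset Site) (τ : Config) : IsProbabilityMeasure (gam β Λ τ) :=
  ⟨by rw [gam_apply _ _ _ MeasurableSet.univ, Set.indicator_univ,
    show (1 : Config → ℝ) = fun _ => 1 from rfl, avg_const, ENNReal.ofReal_one]⟩

lemma measurable_gam (β : ℝ) (Λ : Finset Site) : Measurable (gam β Λ) :=
  Measure.measurable_of_measurable_coe _ fun A hA => by
    simp only [gam_apply _ _ _ hA]
    exact (measurable_avg _ _ _ (measurable_one.indicator hA)).ennreal_ofReal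

/-- Gibbs measures exist at every inverse temperature. -/
theorem exists_gibbs (β : ℝ) : ∃ μ, IsGibbs β μ := by
  let P : ℤ → ProbabilityMeasure Config := fun N => ⟨gam β (box N) ⊤, inferInstance⟩
  obtain ⟨μ, -, hμ⟩ := isCompact_univ.ultrafilter_le_nhds ((Ultrafilter.of (atTop : Filter ℤ)).map P)
    (by simp)
  have hT : Tendsto P (Ultrafilter.of (atTop : Filter ℤ) : Filter ℤ) (𝓝 μ) := hμ
  have hlim : ∀ f : Config →ᵇ ℝ≥0, Tendsto (fun N => ENNReal.ofReal
      (avg β (touching (box N)) (box N) ⊤ fun σ => f σ)) (Ultrafilter.of (atTop : Filter ℤ) : Filter ℤ)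
      (𝓝 (∫⁻ σ, f σ ∂(μ : Measure Config))) := by
    intro f
    refine (ProbabilityMeasure.tendsto_iff_forall_lintegral_tendsto.1 hT f).congr fun N => ?_
    rw [← lintegral_gam β _ _ (f := fun σ => f σ)
      (NNReal.continuous_coe.comp f.continuous).measurable
      fun σ => (f σ).2]
    simp [P]
  refine ⟨μ, inferInstance, fun Λ A hA => ?_⟩
  have hprob : IsProbabilityMeasure ((μ : Measure Config).bind (gam β Λ)) :=
    ⟨by rw [Measure.bind_apply MeasurableSet.univ (measurable_gam β Λ).aemeasurable]; simp⟩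
  have key : (μ : Measure Config) = (μ : Measure Config).bind (gam β Λ) := by
    refine ext_of_forall_lintegral_eq_of_IsFiniteMeasure fun f => ?_
    have hf : Continuous fun σ => (f σ : ℝ) := NNReal.continuous_coe.comp f.continuous
    let g : Config →ᵇ ℝ≥0 := BoundedContinuousFunction.mkOfCompact
      ⟨fun τ => (avg β (touching Λ) Λ τ fun σ => f σ).toNNReal,
        continuous_real_toNNReal.comp (continuous_avg _ _ _ hf)⟩
    have hg : ∀ τ, (g τ : ℝ) = avg β (touching Λ) Λ τ fun σ => f σ := fun τ =>
      Real.coe_toNNReal _ (avg_nonneg fun σ _ => (f σ).2)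
    rw [Measure.lintegral_bind (f := fun σ => (f σ : ℝ≥0∞)) (measurable_gam β Λ).aemeasurable
      (measurable_coe_nnreal_ennreal.comp f.continuous.measurable).aemeasurable]
    have e : ∀ τ, ∫⁻ σ, (f σ : ℝ≥0∞) ∂gam β Λ τ = g τ := by
      intro τ
      rw [← ENNReal.ofReal_coe_nnreal (p := g τ), hg,
        ← lintegral_gam β _ _ hf.measurable fun σ => (f σ).2]
      simp
    simp only [e]
    refine tendsto_nhds_unique (hlim f) ((hlim g).congr' ?_)
    filter_upwards [(Ultrafilter.of_le atTop) (tendsto_box.eventually (eventually_subset Λ))]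
      with N hN
    simp only [hg]
    rw [← avg_avg β (touching (box N)) hN ⊤ fun σ => f σ]
    congr 1
    exact avg_congr fun τ _ => (avg_edges (touching_mono hN)).symm
  conv_lhs => rw [key]
  rw [Measure.bind_apply hA (measurable_gam β Λ).aemeasurable]
  simp only [gam_apply _ _ _ hA]

end

end Pool.Agent.MP_cb84d8_pr
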